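import Mathlib
import Pool.Agent.Cac.Defs

/-!
# A convex polyhedron with five vertices and no symmetry whose core and anticore are congruent
(MP_46b0f6_co): the definitions of the statement
-/

namespace Pool.Agent.Cac5

open Set Pool.Agent.Cac

/-- The triangle `v i, v j, v k`. -/
def Tri (v : Fin 5 → E3) (i j k : Fin 5) : Set E3 := convexHull ℝ {v i, v j, v k}

/-- The three triangles `012`, `023`, `034`. -/
def Front (v : Fin 5 → E3) : Set E3 := Tri v 0 1 2 ∪ Tri v 0 2 3 ∪ Tri v 0 3 4

/-- The labels shifted by one. -/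
def sh (v : Fin 5 → E3) : Fin 5 → E3 := fun i => v (i + 1)

/-- The six triangles: `012`, `023`, `034` and `123`, `134`, `140`. -/
def Sur (v : Fin 5 → E3) : Set E3 := Front v ∪ Front (sh v)

/-- `v 0, ..., v 4` are the vertices of a convex polyhedron with non-empty interior whose boundary
is the union of the six triangles. -/
structure Poly (v : Fin 5 → E3) : Prop where
  ext : ∀ i, v i ∉ convexHull ℝ (v '' {j | j ≠ i})
  int : (interior (convexHull ℝ (range v))).Nonempty
  bdy : frontier (convexHull ℝ (range v)) = Sur v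

/-- The plane region of the three triangles `012`, `023`, `034`. -/
def Pent (p : Fin 5 → ℂ) : Set ℂ :=
  convexHull ℝ {p 0, p 1, p 2} ∪ convexHull ℝ {p 0, p 2, p 3} ∪ convexHull ℝ {p 0, p 3, p 4}

/-- `p` is a development into the plane of the three triangles of `Front v`, hinged at the edges
`v 0, v 2` and `v 0, v 3`. -/
structure Dev (v : Fin 5 → E3) (p : Fin 5 → ℂ) : Prop where
  d01 : dist (p 0) (p 1) = dist (v 0) (v 1)
  d12 : dist (p 1) (p 2) = dist (v 1) (v 2)
  d23 : dist (p 2) (p 3) = dist (v 2) (v 3)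
  d34 : dist (p 3) (p 4) = dist (v 3) (v 4)
  d04 : dist (p 0) (p 4) = dist (v 0) (v 4)
  d02 : dist (p 0) (p 2) = dist (v 0) (v 2)
  d03 : dist (p 0) (p 3) = dist (v 0) (v 3)
  opp2 : (line[ℝ, p 0, p 2]).SOppSide (p 1) (p 3)
  opp3 : (line[ℝ, p 0, p 3]).SOppSide (p 2) (p 4)

/-- `Pent p` is a convex pentagon with the corners `p 0, ..., p 4`. -/
def ConvexPent (p : Fin 5 → ℂ) : Prop :=
  Pent p = convexHull ℝ (range p) ∧ ∀ i, p i ∉ convexHull ℝ (p '' {j | j ≠ i})

/-- Up to its corners there is exactly one shortest polygonal path from `x` to `y` on the surface: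
it has the length `l` and consists of the segments `x, q` and `q, y`, which run in the front. -/
def OneShortest (v : Fin 5 → E3) (x y : E3) (l : ℝ) : Prop :=
  ∃ q, segment ℝ x q ∪ segment ℝ q y ⊆ Front v ∧ dist x q + dist q y = l ∧
    ∀ n c, IsPath (Sur v) x y n c → l ≤ len n c ∧
      (len n c = l → ∀ j < n, segment ℝ (c j) (c (j + 1)) ⊆ segment ℝ x q ∪ segment ℝ q y)

end Pool.Agent.Cac5
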