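import Mathlib
import Pool.Agent.Cac.Tet
import Pool.Agent.Cac5.Defs

/-!
# General facts: leaving a face, shortest path over a hinge
-/

set_option linter.unusedVariables false

namespace Pool.Agent.Cac5

open Set Pool.Agent.Cac

-- BEGIN row exg
/-- A path that leaves the closed set `A` passes a point of `A ∩ B`.
PROOF. There is `i < n` with `c i ∈ A`, `c (i + 1) ∉ A` (`c 0 = x ∈ A`, `c n = y ∉ A`; induction or
`Nat.find`). The segment is preconnected, contained in `A ∪ B`, meets `A` (in `c i`) and `B` (in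
`c (i + 1)`): `isPreconnected_closed_iff` (`(convex_segment _ _).isPreconnected`). -/
theorem exg {A B : Set E3} (hA : IsClosed A) (hB : IsClosed B) {x y : E3} {n : ℕ} {c : ℕ → E3}
    (h : IsPath (A ∪ B) x y n c) (hx : x ∈ A) (hy : y ∉ A) :
    ∃ i < n, ∃ z ∈ segment ℝ (c i) (c (i + 1)), z ∈ A ∩ B := by
  classical
  obtain ⟨hc0, hcn, hseg⟩ := h
  have hex : ∃ i, c i ∉ A := ⟨n, by rw [hcn]; exact hy⟩
  have hfind := Nat.find_spec hex
  have hmin : ∀ j < Nat.find hex, c j ∈ A := fun j hj => not_not.1 (Nat.find_min hex hj)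
  have hle : Nat.find hex ≤ n := Nat.find_le (by rw [hcn]; exact hy)
  have hpos : Nat.find hex ≠ 0 := by
    intro h0
    rw [h0, hc0] at hfind
    exact hfind hx
  obtain ⟨i, hi⟩ := Nat.exists_eq_succ_of_ne_zero hpos
  rw [Nat.succ_eq_add_one] at hi
  rw [hi] at hfind hmin hle
  have hs := hseg i (by omega)
  have hp : IsPreconnected (segment ℝ (c i) (c (i + 1))) := (convex_segment _ _).isPreconnected
  have hiA : c i ∈ A := hmin i (by omega)
  have hiB : c (i + 1) ∈ B := (hs (right_mem_segment ℝ _ _)).resolve_left hfind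
  obtain ⟨z, hz, hz2⟩ := isPreconnected_closed_iff.1 hp A B hA hB hs
    ⟨c i, left_mem_segment ℝ _ _, hiA⟩ ⟨c (i + 1), right_mem_segment ℝ _ _, hiB⟩
  exact ⟨i, by omega, z, hz, hz2⟩
-- END row exg

-- BEGIN row thru
private theorem thru_seg {x w z : E3} (h : dist x w + dist w z ≤ dist x z) :
    w ∈ segment ℝ x z := by
  rw [mem_segment_iff_wbtw, ← dist_add_dist_eq_iff]
  exact le_antisymm h (dist_triangle x w z)

private theorem thru_cov {a b z : E3} (hz : z ∈ segment ℝ a b) :
    segment ℝ a b ⊆ segment ℝ a z ∪ segment ℝ z b := by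
  intro w hw
  rw [← insert_endpoints_openSegment] at hw
  rcases hw with hw | hw | hw
  · rw [hw]
    exact Or.inl (left_mem_segment ℝ _ _)
  · rw [hw]
    exact Or.inr (right_mem_segment ℝ _ _)
  · have hr : z ∈ Set.range (AffineMap.lineMap a b : ℝ → E3) := by
      rw [segment_eq_image_lineMap] at hz
      obtain ⟨t, _, ht⟩ := hz
      exact ⟨t, ht⟩
    rcases openSegment_subset_union a b hr hw with h | h | h
    · rw [h]
      exact Or.inl (right_mem_segment ℝ _ _)
    · exact Or.inl (openSegment_subset_segment ℝ _ _ h)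
    · exact Or.inr (openSegment_subset_segment ℝ _ _ h)

/-- A path through a point of the segment number `i`.
PROOF. `len n c = ∑_{j < i} + dist (c i) (c (i+1)) + ∑_{i < j < n}`, and
`dist (c i) (c (i+1)) = dist (c i) z + dist z (c (i+1))` (`dist_add_dist_of_mem_segment`). For every
`j ≤ i`: `dist x (c j) ≤ ∑_{k < j}` and `dist (c j) z ≤ ∑_{j ≤ k < i} + dist (c i) z`
(`dist_le_Ico_sum_dist`, `dist_le_range_sum_dist`), in the same way behind `z`. In the case of
equality all these are equalities, so `dist x (c j) + dist (c j) z ≤ dist x z`, that is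
`c j ∈ segment x z` (`dist_add_dist_eq_iff`, `mem_segment_iff_wbtw`) for `j ≤ i` and
`c j ∈ segment z y` for `j > i`; segments are convex; the segment number `i` is
`segment (c i) z ∪ segment z (c (i+1))` (`segment_subset_union` / `openSegment_subset_union`). -/
theorem thru {S : Set E3} {x y z : E3} {n i : ℕ} {c : ℕ → E3} (h : IsPath S x y n c) (hi : i < n)
    (hz : z ∈ segment ℝ (c i) (c (i + 1))) :
    dist x z + dist z y ≤ len n c ∧
      (len n c = dist x z + dist z y →
        ∀ j < n, segment ℝ (c j) (c (j + 1)) ⊆ segment ℝ x z ∪ segment ℝ z y) := by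
  obtain ⟨h0, hn, _⟩ := h
  set P : ℕ → ℕ → ℝ := fun a b => ∑ j ∈ Finset.Ico a b, dist (c j) (c (j + 1)) with hP
  have hd : ∀ a b, a ≤ b → dist (c a) (c b) ≤ P a b := fun a b hab => dist_le_Ico_sum_dist c hab
  have hadd : ∀ a b d, a ≤ b → b ≤ d → P a b + P b d = P a d := fun a b d h1 h2 =>
    Finset.sum_Ico_consecutive _ h1 h2
  have hone : P i (i + 1) = dist (c i) (c (i + 1)) := by
    rw [hP]
    simp only [Nat.Ico_succ_singleton, Finset.sum_singleton]
  have hlen : len n c = P 0 n := by
    rw [hP, len, Finset.range_eq_Ico]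
  have hsp : P 0 n = P 0 i + dist (c i) (c (i + 1)) + P (i + 1) n := by
    rw [← hadd 0 (i + 1) n (by omega) (by omega), ← hadd 0 i (i + 1) (by omega) (by omega), hone]
  have hzz : dist (c i) z + dist z (c (i + 1)) = dist (c i) (c (i + 1)) :=
    dist_add_dist_of_mem_segment hz
  have ha : ∀ j ≤ i, dist x (c j) ≤ P 0 j ∧ dist (c j) z ≤ P j i + dist (c i) z := by
    intro j hj
    refine ⟨by rw [← h0]; exact hd 0 j (by omega), ?_⟩
    exact (dist_triangle _ (c i) _).trans (by linarith [hd j i hj])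
  have hb : ∀ j, i + 1 ≤ j → j ≤ n → dist z (c j) ≤ dist z (c (i + 1)) + P (i + 1) j ∧
      dist (c j) y ≤ P j n := by
    intro j hj hjn
    refine ⟨(dist_triangle _ (c (i + 1)) _).trans (by linarith [hd (i + 1) j hj]), ?_⟩
    rw [← hn]
    exact hd j n hjn
  have hxz : dist x z ≤ P 0 i + dist (c i) z := by
    have h1 := (ha i le_rfl).1
    exact (dist_triangle _ (c i) _).trans (by linarith)
  have hzy : dist z y ≤ dist z (c (i + 1)) + P (i + 1) n := by
    have h1 := (hb (i + 1) le_rfl (by omega)).2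
    exact (dist_triangle _ (c (i + 1)) _).trans (by linarith)
  refine ⟨by rw [hlen, hsp]; linarith, ?_⟩
  intro he
  rw [hlen, hsp] at he
  have hA : ∀ j ≤ i, c j ∈ segment ℝ x z := by
    intro j hj
    apply thru_seg
    have h1 := ha j hj
    have h2 := hadd 0 j i (by omega) hj
    linarith
  have hB : ∀ j, i + 1 ≤ j → j ≤ n → c j ∈ segment ℝ z y := by
    intro j hj hjn
    apply thru_seg
    have h1 := hb j hj hjn
    have h2 := hadd (i + 1) j n hj hjn
    linarith
  intro j hj
  rcases lt_trichotomy j i with h1 | h1 | h1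
  · exact ((convex_segment x z).segment_subset (hA j h1.le) (hA (j + 1) h1)).trans
      Set.subset_union_left
  · subst h1
    refine (thru_cov hz).trans (Set.union_subset_union ?_ ?_)
    · exact (convex_segment x z).segment_subset (hA j le_rfl) (right_mem_segment ℝ _ _)
    · exact (convex_segment z y).segment_subset (left_mem_segment ℝ _ _) (hB (j + 1) le_rfl hj)
  · exact ((convex_segment z y).segment_subset (hB j h1 hj.le) (hB (j + 1) (by omega) hj)).trans
      Set.subset_union_right
-- END row thru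

-- BEGIN row minq
private theorem minq_comp (a b : E3) : IsCompact (segment ℝ a b) := by
  rw [← convexHull_pair]
  exact (Set.toFinite _).isCompact_convexHull ℝ

/-- The best point of a hinge.
PROOF. `fun z => dist x z + dist z D` is continuous, the segment is compact (see `min_q_comp` in
Tet.lean), so it has a minimum at `q`; `q ≠ B`, `q ≠ C` by `hB`, `hC`, so `q` is in the open segment
(see `min_q_open`), `q = (1 - k) • B + k • C`. -/
theorem minq {B C D x m : E3} (hm : m ∈ segment ℝ B C)
    (hB : dist x m + dist m D < dist x B + dist B D)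
    (hC : dist x m + dist m D < dist x C + dist C D) :
    ∃ k : ℝ, 0 < k ∧ k < 1 ∧ ∀ z ∈ segment ℝ B C,
      dist x ((1 - k) • B + k • C) + dist ((1 - k) • B + k • C) D ≤ dist x z + dist z D := by
  obtain ⟨q, hq, hmin⟩ := (minq_comp B C).exists_isMinOn ⟨m, hm⟩
    (f := fun w => dist x w + dist w D) (by fun_prop)
  have hmin' : ∀ w ∈ segment ℝ B C, dist x q + dist q D ≤ dist x w + dist w D :=
    fun w hw => hmin hw
  have hqm := hmin' m hm
  obtain ⟨a, b, ha, hb, hab, rfl⟩ := hq
  have ea : a = 1 - b := by linarith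
  subst ea
  refine ⟨b, ?_, ?_, hmin'⟩
  · rcases hb.lt_or_eq with h | h
    · exact h
    · exfalso
      subst h
      simp only [sub_zero, one_smul, zero_smul, add_zero] at hqm
      linarith
  · rcases ha.lt_or_eq with h | h
    · linarith
    · exfalso
      have hb1 : b = 1 := by linarith
      subst hb1
      simp only [sub_self, one_smul, zero_smul, zero_add] at hqm
      linarith
-- END row minq

-- BEGIN row uni
/-- Only one point of the line `b c` is on the segment from `X` to `d`.
PROOF. Both points are on the segment `X d` (`dist_add_dist_eq_iff`): `Z = lineMap X d u`,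
`Z' = lineMap X d u'`. If `k ≠ k'` then `Z ≠ Z'` (`b ≠ c` by `h.ind`), `u ≠ u'`, and
`d = Z + ((1 - u) / (u' - u)) • (Z' - Z)` is on the line `b c`, against `Ind d b c` (`cr_ind`). -/
theorem uni {a b c d X : ℂ} {s t k k' : ℝ} (h : Cr a b c d s t)
    (h1 : dist X ((1 - k) • b + k • c) + dist ((1 - k) • b + k • c) d = dist X d)
    (h2 : dist X ((1 - k') • b + k' • c) + dist ((1 - k') • b + k' • c) d = dist X d) :
    k = k' := by
  obtain ⟨u, -, hu⟩ := dist_add_dist_eq_iff.1 h1
  obtain ⟨u', -, hu'⟩ := dist_add_dist_eq_iff.1 h2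
  rw [AffineMap.lineMap_apply_module] at hu hu'
  have hI := (cr_ind h).1
  obtain ⟨e1, -, e3⟩ := hI (u - u') (-((1 - u') * (1 - k) - (1 - u) * (1 - k')))
    (-((1 - u') * k - (1 - u) * k')) (by ring) (by
      have e : (u - u') • d + (-((1 - u') * (1 - k) - (1 - u) * (1 - k'))) • b +
          (-((1 - u') * k - (1 - u) * k')) • c =
          (1 - u') • ((1 - u) • X + u • d - ((1 - k) • b + k • c)) -
            (1 - u) • ((1 - u') • X + u' • d - ((1 - k') • b + k' • c)) := by module
      rw [e, hu, hu']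
      simp)
  have hu0 : u' = u := by linarith
  subst hu0
  have e4 : (1 - u') * (k - k') = 0 := by linarith
  rcases mul_eq_zero.1 e4 with h3 | h3
  · have h4 : u' = 1 := by linarith
    subst h4
    obtain ⟨e5, -, -⟩ := hI 1 (-(1 - k)) (-k) (by ring) (by
      have e : (1 : ℝ) • d + (-(1 - k)) • b + (-k) • c =
          ((1 - 1 : ℝ) • X + (1 : ℝ) • d) - ((1 - k) • b + k • c) := by module
      rw [e, hu]
      simp)
    exact absurd e5 one_ne_zero
  · linarith
-- END row uni

-- BEGIN row hin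
/-- The distances to the points of the hinge in space and in the plane.
PROOF. `tri_iso` for the triangle `A, B, C` with the weights `α, β, γ` and `0, 1 - k, k`, and for the
triangle `B, C, D` with `1 - k, k, 0` and `0, 0, 1` (as `hinge`, `hinge'` in `source`, Tet.lean). -/
theorem hin {A B C D : E3} {a b c d : ℂ} (e1 : dist A B = dist a b) (e2 : dist A C = dist a c)
    (e3 : dist B C = dist b c) (e4 : dist B D = dist b d) (e5 : dist C D = dist c d)
    {α β γ : ℝ} (hs : α + β + γ = 1) (k : ℝ) :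
    dist (α • A + β • B + γ • C) ((1 - k) • B + k • C) =
        dist (α • a + β • b + γ • c) ((1 - k) • b + k • c) ∧
      dist ((1 - k) • B + k • C) D = dist ((1 - k) • b + k • c) d := by
  constructor
  · have h := tri_iso A B C a b c e1 e2 e3 α β γ 0 (1 - k) k hs (by ring)
    simpa only [zero_smul, zero_add] using h
  · have h := tri_iso B C D b c d e3 e4 e5 (1 - k) k 0 0 0 1 (by ring) (by ring)
    simpa only [zero_smul, zero_add, add_zero, one_smul] using h
-- END row hin

-- BEGIN row seg2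
/-- A straight segment over the hinge. PROOF. As `source_seg` in Tet.lean (private there): copy. -/
theorem seg2 (X Q P : ℂ) (h : dist X Q + dist Q P = dist X P) (A B : Set ℂ)
    (hA : Convex ℝ A) (hB : Convex ℝ B) (hX : X ∈ A) (hQ : Q ∈ A) (hQ' : Q ∈ B) (hP : P ∈ B) :
    segment ℝ X P ⊆ A ∪ B := by
  have hw : Wbtw ℝ X Q P := dist_add_dist_eq_iff.1 h
  intro y hy
  rw [← insert_endpoints_openSegment] at hy
  rcases hy with rfl | rfl | hy
  · exact Or.inl hX
  · exact Or.inr hP
  · have hr : Q ∈ range (AffineMap.lineMap X P : ℝ → ℂ) := by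
      obtain ⟨r, _, hr⟩ := hw
      exact ⟨r, hr⟩
    rcases openSegment_subset_union X P hr hy with rfl | hy | hy
    · exact Or.inl hQ
    · exact Or.inl (hA.segment_subset hX hQ (openSegment_subset_segment ℝ _ _ hy))
    · exact Or.inr (hB.segment_subset hQ' hP (openSegment_subset_segment ℝ _ _ hy))
-- END row seg2

-- BEGIN row leg
/-- The shortest path over the hinge `B C`.
PROOF. `minq` gives `k`; put `q = (1 - k) • B + k • C`, `X = α • a + β • b + γ • c`. `hin` and
`straight hcr X _ k` give `dist x q + dist q D = dist X d`. Let `cc` be a path from `x` to `D`. `exg`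
(with `A := convexHull ℝ {A, B, C}`, closed: `(Set.toFinite _).isClosed_convexHull`) gives `z` in the
intersection, `thru` gives `dist x z + dist z D ≤ len`. By `hI` either `z ∈ segment B C`, then
`dist x q + dist q D ≤ dist x z + dist z D` by `minq`, or `dist x q + dist q D ≤
dist x m + dist m D < dist x z + dist z D`. If `len = dist x q + dist q D` then
`z = (1 - r) • B + r • C` is in the segment, and `dist x z + dist z D = dist X d`, so `r = k` by
`hin`, `uni`: `z = q`, and `thru` gives the inclusion. The last inclusion: `seg2` with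
`Q = (1 - k) • b + k • c`. -/
theorem leg {R : Set E3} {A B C D x m : E3} {a b c d : ℂ} {s t : ℝ} (hcr : Cr a b c d s t)
    (e1 : dist A B = dist a b) (e2 : dist A C = dist a c)
    (e3 : dist B C = dist b c) (e4 : dist B D = dist b d) (e5 : dist C D = dist c d)
    (hR : IsClosed R) (hD : D ∉ convexHull ℝ {A, B, C})
    (hI : convexHull ℝ {A, B, C} ∩ R ⊆
      segment ℝ B C ∪ {y | dist x m + dist m D < dist x y + dist y D})
    (hm : m ∈ segment ℝ B C)
    (hB : dist x m + dist m D < dist x B + dist B D)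
    (hC : dist x m + dist m D < dist x C + dist C D)
    {α β γ : ℝ} (h0 : 0 ≤ α) (h1 : 0 ≤ β) (h2 : 0 ≤ γ) (hs : α + β + γ = 1)
    (hx : α • A + β • B + γ • C = x) :
    ∃ q ∈ openSegment ℝ B C, dist x q + dist q D = dist (α • a + β • b + γ • c) d ∧
      (∀ n cc, IsPath (convexHull ℝ {A, B, C} ∪ R) x D n cc →
        dist x q + dist q D ≤ len n cc ∧ (len n cc = dist x q + dist q D →
          ∀ j < n, segment ℝ (cc j) (cc (j + 1)) ⊆ segment ℝ x q ∪ segment ℝ q D)) ∧
      segment ℝ (α • a + β • b + γ • c) d ⊆ convexHull ℝ {a, b, c} ∪ convexHull ℝ {b, c, d} := by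
  obtain ⟨k, k0, k1, hk⟩ := minq hm hB hC
  have hinge : ∀ r : ℝ, dist x ((1 - r) • B + r • C) =
      dist (α • a + β • b + γ • c) ((1 - r) • b + r • c) := by
    intro r
    rw [← hx]
    exact (hin e1 e2 e3 e4 e5 (α := α) (β := β) (γ := γ) hs r).1
  have hinge' : ∀ r : ℝ, dist ((1 - r) • B + r • C) D = dist ((1 - r) • b + r • c) d :=
    fun r => (hin e1 e2 e3 e4 e5 (α := α) (β := β) (γ := γ) hs r).2
  have hseg : ∀ r : ℝ, 0 ≤ r → r ≤ 1 → (1 - r) • B + r • C ∈ segment ℝ B C :=
    fun r h0 h1 => ⟨1 - r, r, by linarith, h0, by ring, rfl⟩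
  have hXm : α • a + β • b + γ • c ∈ convexHull ℝ {a, b, c} :=
    (hull3 _ _ _ _).2 ⟨α, β, γ, h0, h1, h2, hs, rfl⟩
  have hxm : x ∈ convexHull ℝ {A, B, C} := (hull3 _ _ _ _).2 ⟨α, β, γ, h0, h1, h2, hs, hx⟩
  have hst : dist (α • a + β • b + γ • c) ((1 - k) • b + k • c) + dist ((1 - k) • b + k • c) d =
      dist (α • a + β • b + γ • c) d := by
    refine straight hcr _ hXm k k0 k1 fun r hr0 hr1 => ?_
    rw [← hinge, ← hinge', ← hinge, ← hinge']
    exact hk _ (hseg r hr0 hr1)
  refine ⟨(1 - k) • B + k • C, ⟨1 - k, k, by linarith, k0, by ring, rfl⟩, ?_, ?_, ?_⟩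
  · rw [hinge, hinge', hst]
  · intro n cc hp
    have hcl : IsClosed (convexHull ℝ ({A, B, C} : Set E3)) :=
      Set.Finite.isClosed_convexHull ℝ (Set.toFinite _)
    obtain ⟨i, hi, z, hz, hzA, hzR⟩ := exg hcl hR hp hxm hD
    have hthru := thru hp hi hz
    have hz1 : dist x ((1 - k) • B + k • C) + dist ((1 - k) • B + k • C) D ≤ dist x z + dist z D ∧
        (dist x z + dist z D = dist x ((1 - k) • B + k • C) + dist ((1 - k) • B + k • C) D →
          z = (1 - k) • B + k • C) := by
      rcases hI ⟨hzA, hzR⟩ with hzs | hzm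
      · refine ⟨hk z hzs, ?_⟩
        obtain ⟨l, r, hl, hr, hlr, rfl⟩ := hzs
        obtain rfl : l = 1 - r := by linarith
        intro heq
        have h3 : dist (α • a + β • b + γ • c) ((1 - r) • b + r • c) +
            dist ((1 - r) • b + r • c) d = dist (α • a + β • b + γ • c) d := by
          rw [← hst, ← hinge, ← hinge', ← hinge, ← hinge']
          exact heq
        rw [uni hcr h3 hst]
      · have h4 : dist x m + dist m D < dist x z + dist z D := hzm
        have h5 := hk m hm
        exact ⟨by linarith, fun h6 => by exfalso; linarith⟩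
    refine ⟨hz1.1.trans hthru.1, fun hlen => ?_⟩
    have h6 : dist x z + dist z D =
        dist x ((1 - k) • B + k • C) + dist ((1 - k) • B + k • C) D :=
      le_antisymm (hlen ▸ hthru.1) hz1.1
    have h7 := hthru.2 (hlen.trans h6.symm)
    rw [hz1.2 h6] at h7
    exact h7
  · refine seg2 _ ((1 - k) • b + k • c) _ hst _ _ (convex_convexHull ℝ _) (convex_convexHull ℝ _)
      hXm ?_ ?_ (subset_convexHull ℝ _ (by simp))
    · exact (hull3 _ _ _ _).2 ⟨0, 1 - k, k, le_refl _, by linarith, k0.le, by ring, by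
        simp only [zero_smul, zero_add]⟩
    · exact (hull3 _ _ _ _).2 ⟨1 - k, k, 0, by linarith, k0.le, le_refl _, by ring, by
        simp only [zero_smul, add_zero]⟩
-- END row leg

-- BEGIN row ctr
private theorem ctr_real (a1 a2 b1 b2 c1 c2 d1 d2 : ℝ)
    (h1 : 0 < (c1 - b1) * (a2 - b2) - (c2 - b2) * (a1 - b1))
    (h2 : (c1 - b1) * (d2 - b2) - (c2 - b2) * (d1 - b1) < 0) :
    ∃ s t : ℝ, 0 < s ∧ s < 1 ∧ (1 - s) * a1 + s * d1 = (1 - t) * b1 + t * c1 ∧
      (1 - s) * a2 + s * d2 = (1 - t) * b2 + t * c2 := by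
  obtain ⟨Pa, hPa⟩ : ∃ r, r = (c1 - b1) * (a2 - b2) - (c2 - b2) * (a1 - b1) := ⟨_, rfl⟩
  obtain ⟨Pd, hPd⟩ : ∃ r, r = (c1 - b1) * (d2 - b2) - (c2 - b2) * (d1 - b1) := ⟨_, rfl⟩
  rw [← hPa] at h1
  rw [← hPd] at h2
  have hN : (c1 - b1) ^ 2 + (c2 - b2) ^ 2 ≠ 0 := by
    intro hn
    have h3 : c1 - b1 = 0 := by
      have : (c1 - b1) ^ 2 = 0 := by nlinarith [sq_nonneg (c1 - b1), sq_nonneg (c2 - b2)]
      exact pow_eq_zero_iff two_ne_zero |>.1 this
    have h4 : c2 - b2 = 0 := by
      have : (c2 - b2) ^ 2 = 0 := by nlinarith [sq_nonneg (c1 - b1), sq_nonneg (c2 - b2)]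
      exact pow_eq_zero_iff two_ne_zero |>.1 this
    rw [h3, h4] at hPa
    linarith
  have hd : 0 < Pa - Pd := by linarith
  have hs : Pa / (Pa - Pd) * (Pa - Pd) = Pa := div_mul_cancel₀ _ hd.ne'
  obtain ⟨s, hs'⟩ : ∃ s, s = Pa / (Pa - Pd) := ⟨_, rfl⟩
  rw [← hs'] at hs
  obtain ⟨t, ht⟩ : ∃ t, t * ((c1 - b1) ^ 2 + (c2 - b2) ^ 2) =
      ((1 - s) * (a1 - b1) + s * (d1 - b1)) * (c1 - b1) +
        ((1 - s) * (a2 - b2) + s * (d2 - b2)) * (c2 - b2) :=
    ⟨_, div_mul_cancel₀ _ hN⟩
  have hs1 : s * (((c1 - b1) * (a2 - b2) - (c2 - b2) * (a1 - b1)) -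
      ((c1 - b1) * (d2 - b2) - (c2 - b2) * (d1 - b1))) =
        (c1 - b1) * (a2 - b2) - (c2 - b2) * (a1 - b1) := by
    rw [← hPa, ← hPd]
    exact hs
  refine ⟨s, t, ?_, ?_, ?_, ?_⟩
  · rw [hs']
    exact div_pos h1 hd
  · rw [hs', div_lt_one hd]
    linarith
  · refine mul_left_cancel₀ hN ?_
    linear_combination -(c1 - b1) * ht + (c2 - b2) * hs1
  · refine mul_left_cancel₀ hN ?_
    linear_combination -(c2 - b2) * ht - (c1 - b1) * hs1

/-- A sign criterion for opposite sides in the plane.
PROOF. `P z = (c - b) × (z - b)`, `(c - b) × w = (c - b).re * w.im - (c - b).im * w.re`. With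
`s = P a / (P a - P d)`, in `(0, 1)`, the point `(1 - s) • a + s • d` has `P = 0`, so it is
`(1 - t) • b + t • c` for some `t` (`c ≠ b` since `P a ≠ 0`: `t = (z - b) · (c - b) / |c - b| ^ 2`);
`Ind a b c` since `P a ≠ 0` (apply `P` to a relation, then `c ≠ b`). Then `opp_of`. -/
theorem ctr {a b c d : ℂ}
    (h1 : 0 < (c - b).re * (a - b).im - (c - b).im * (a - b).re)
    (h2 : (c - b).re * (d - b).im - (c - b).im * (d - b).re < 0) :
    (line[ℝ, b, c]).SOppSide a d := by
  obtain ⟨a1, a2⟩ := a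
  obtain ⟨b1, b2⟩ := b
  obtain ⟨c1, c2⟩ := c
  obtain ⟨d1, d2⟩ := d
  simp only [Complex.sub_re, Complex.sub_im] at h1 h2
  obtain ⟨s, t, hs0, hs1, e1, e2⟩ := ctr_real a1 a2 b1 b2 c1 c2 d1 d2 h1 h2
  refine opp_of (s := s) (t := t) ⟨?_, hs0, hs1, ?_⟩
  · intro x y z h3 h4
    have h5 := congrArg Complex.re h4
    have h6 := congrArg Complex.im h4
    simp only [Complex.add_re, Complex.add_im, Complex.smul_re, Complex.smul_im, smul_eq_mul,
      Complex.zero_re, Complex.zero_im] at h5 h6
    have hx : x * ((c1 - b1) * (a2 - b2) - (c2 - b2) * (a1 - b1)) = 0 := by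
      linear_combination (c1 - b1) * (h6 - b2 * h3) - (c2 - b2) * (h5 - b1 * h3)
    have hx0 : x = 0 := by
      rcases mul_eq_zero.1 hx with h | h
      · exact h
      · exact absurd h h1.ne'
    subst hx0
    have hz1 : z * (c1 - b1) = 0 := by linear_combination h5 - b1 * h3
    have hz2 : z * (c2 - b2) = 0 := by linear_combination h6 - b2 * h3
    have hz0 : z = 0 := by
      by_contra hz
      have h7 : c1 - b1 = 0 := (mul_eq_zero.1 hz1).resolve_left hz
      have h8 : c2 - b2 = 0 := (mul_eq_zero.1 hz2).resolve_left hz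
      rw [h7, h8] at h1
      linarith
    refine ⟨rfl, by linarith, hz0⟩
  · apply Complex.ext
    · simp only [Complex.add_re, Complex.smul_re, smul_eq_mul]
      exact e1
    · simp only [Complex.add_im, Complex.smul_im, smul_eq_mul]
      exact e2
-- END row ctr

end Pool.Agent.Cac5
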