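import Mathlib
import Pool.Agent.Cac5.Gen

/-!
# The explicit polyhedron and the explicit pentagon

Coordinates `X w = w 0`, `Y w = w 1 / √3`, `Z w = w 2 / √5`: the vertices are `(0,0,0)`, `(2,3,1)`,
`(-2,3,3)`, `(0,0,4)`, `(2,-2,2)`.
-/

set_option linter.unusedVariables false

namespace Pool.Agent.Cac5

open Set Real Pool.Agent.Cac

/-- The vertices. -/
noncomputable def vx : Fin 5 → E3 :=
  ![!₂[0, 0, 0], !₂[2, 3 * √3, √5], !₂[-2, 3 * √3, 3 * √5], !₂[0, 0, 4 * √5], !₂[2, -2 * √3, 2 * √5]]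

/-- The slope of the first triangle. -/
noncomputable def kap : ℝ := √(17 / 76)

/-- The pentagon. -/
noncomputable def px : Fin 5 → ℂ :=
  ![0, ⟨3 * √5 / 2 - kap * √31, √31 / 2 + 3 * √5 * kap⟩, ⟨3 * √5, √31⟩, ⟨4 * √5, 0⟩, ⟨2 * √5, -4⟩]

/-- The centre of the set of source points: `(9 v 0 + 6 v 2 + 5 v 3) / 20`. -/
noncomputable def x0 : E3 := !₂[-3 / 5, 9 / 10 * √3, 19 / 10 * √5]

/-- The middle of the hinge `v 0, v 2`. -/
noncomputable def m1 : E3 := !₂[-1, 3 / 2 * √3, 3 / 2 * √5]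

/-- The middle of the hinge `v 0, v 3`. -/
noncomputable def m4 : E3 := !₂[0, 0, 2 * √5]

/-- The squares of the distances of the vertices. -/
def NN : Fin 5 → Fin 5 → ℝ :=
  ![![0, 36, 76, 80, 36], ![36, 0, 36, 76, 80], ![76, 36, 0, 36, 96], ![80, 76, 36, 0, 36],
    ![36, 80, 96, 36, 0]]

/-- The faces of the triangle `v 0, v 2, v 3` excepted. -/
def Rest (v : Fin 5 → E3) : Set E3 := Tri v 0 1 2 ∪ Tri v 0 3 4 ∪ Front (sh v)

/-- The linear coordinates. -/
noncomputable def cX (w : E3) : ℝ := w 0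
/-- The linear coordinates. -/
noncomputable def cY (w : E3) : ℝ := w 1 / √3
/-- The linear coordinates. -/
noncomputable def cZ (w : E3) : ℝ := w 2 / √5

/-- The six half spaces. -/
def QQ : Set E3 := {w | 0 ≤ 3 * cX w - 4 * cY w + 6 * cZ w ∧ 0 ≤ 3 * cX w + 2 * cY w ∧
  0 ≤ cX w + cY w ∧ 3 * cX w + 4 * cY w + 6 * cZ w ≤ 24 ∧ 6 * cX w + cY w + 5 * cZ w ≤ 20 ∧
  0 ≤ -4 * cX w + cY w + 5 * cZ w}

/-- Some of the six inequalities is an equality. -/
def EQ (w : E3) : Prop := 0 = 3 * cX w - 4 * cY w + 6 * cZ w ∨ 0 = 3 * cX w + 2 * cY w ∨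
  0 = cX w + cY w ∨ 3 * cX w + 4 * cY w + 6 * cZ w = 24 ∨ 6 * cX w + cY w + 5 * cZ w = 20 ∨
  0 = -4 * cX w + cY w + 5 * cZ w

-- BEGIN row vnum
/-- PROOF. `fin_cases i <;> fin_cases j`, `EuclideanSpace.dist_eq`, `Real.sq_sqrt`,
`Fin.sum_univ_three`, `Real.sq_sqrt` for `√3`, `√5` (`ring_nf` after `simp [vx, NN]`). -/
theorem vnum (i j : Fin 5) : dist (vx i) (vx j) ^ 2 = NN i j := by
  have h3 : (√3 : ℝ) ^ 2 = 3 := Real.sq_sqrt (by norm_num)
  have h5 : (√5 : ℝ) ^ 2 = 5 := Real.sq_sqrt (by norm_num)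
  rw [EuclideanSpace.dist_eq, Real.sq_sqrt (by positivity)]
  simp only [Fin.sum_univ_three, Real.dist_eq, sq_abs]
  fin_cases i <;> fin_cases j <;> simp [vx, NN] <;> nlinarith [h3, h5]
-- END row vnum

-- BEGIN row pnum
theorem pnum_d (a b : ℂ) : dist a b ^ 2 = (a.re - b.re) ^ 2 + (a.im - b.im) ^ 2 := by
  rw [Complex.dist_eq_re_im, Real.sq_sqrt (by positivity)]

theorem pnum_k : kap ^ 2 = 17 / 76 := by
  unfold kap
  exact Real.sq_sqrt (by norm_num)

/-- PROOF. `Complex.dist_eq_re_im` (or `Complex.sq_norm`, `Complex.normSq_apply`), `Real.sq_sqrt`;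
`kap ^ 2 = 17 / 76`. -/
theorem pnum : dist (px 0) (px 1) ^ 2 = 36 ∧ dist (px 1) (px 2) ^ 2 = 36 ∧
    dist (px 2) (px 3) ^ 2 = 36 ∧ dist (px 3) (px 4) ^ 2 = 36 ∧ dist (px 0) (px 4) ^ 2 = 36 ∧
    dist (px 0) (px 2) ^ 2 = 76 ∧ dist (px 0) (px 3) ^ 2 = 80 := by
  have h5 : √(5 : ℝ) ^ 2 = 5 := Real.sq_sqrt (by norm_num)
  have h31 : √(31 : ℝ) ^ 2 = 31 := Real.sq_sqrt (by norm_num)
  have hk := pnum_k
  have e0 : px 0 = 0 := rfl
  have e1 : px 1 = ⟨3 * √5 / 2 - kap * √31, √31 / 2 + 3 * √5 * kap⟩ := rfl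
  have e2 : px 2 = ⟨3 * √5, √31⟩ := rfl
  have e3 : px 3 = ⟨4 * √5, 0⟩ := rfl
  have e4 : px 4 = ⟨2 * √5, -4⟩ := rfl
  rw [e0, e1, e2, e3, e4]
  simp only [pnum_d, Complex.zero_re, Complex.zero_im]
  refine ⟨?_, ?_, ?_, ?_, ?_, ?_, ?_⟩
  · linear_combination (9 / 4 + 9 * kap ^ 2) * h5 + (1 / 4 + kap ^ 2) * h31 + 76 * hk
  · linear_combination (9 / 4 + 9 * kap ^ 2) * h5 + (1 / 4 + kap ^ 2) * h31 + 76 * hk
  · linear_combination h5 + h31
  · linear_combination 4 * h5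
  · linear_combination 4 * h5
  · linear_combination 9 * h5 + h31
  · linear_combination 16 * h5
-- END row pnum

-- BEGIN row popp
/-- PROOF. `ctr`: for the first one the two numbers are `76 * kap` and `- 4 * √5 * √31`, for the
second one `4 * √5 * √31` and `- 16 * √5`. -/
theorem popp : (line[ℝ, px 0, px 2]).SOppSide (px 1) (px 3) ∧
    (line[ℝ, px 0, px 3]).SOppSide (px 2) (px 4) := by
  have h5 : (√5 : ℝ) * √5 = 5 := Real.mul_self_sqrt (by norm_num)
  have h31 : (√31 : ℝ) * √31 = 31 := Real.mul_self_sqrt (by norm_num)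
  have p5 : (0 : ℝ) < √5 := Real.sqrt_pos.2 (by norm_num)
  have p31 : (0 : ℝ) < √31 := Real.sqrt_pos.2 (by norm_num)
  have hk : 0 < kap := Real.sqrt_pos.2 (by norm_num)
  have e0 : px 0 = 0 := rfl
  have e1 : px 1 = ⟨3 * √5 / 2 - kap * √31, √31 / 2 + 3 * √5 * kap⟩ := rfl
  have e2 : px 2 = ⟨3 * √5, √31⟩ := rfl
  have e3 : px 3 = ⟨4 * √5, 0⟩ := rfl
  have e4 : px 4 = ⟨2 * √5, -4⟩ := rfl
  refine ⟨ctr ?_ ?_, ctr ?_ ?_⟩
  · rw [e0, e1, e2]
    simp only [sub_zero]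
    have e : 3 * √5 * (√31 / 2 + 3 * √5 * kap) - √31 * (3 * √5 / 2 - kap * √31) = 76 * kap := by
      linear_combination 9 * kap * h5 + kap * h31
    rw [e]
    positivity
  · rw [e0, e2, e3]
    simp only [sub_zero]
    nlinarith [mul_pos p5 p31]
  · rw [e0, e2, e3]
    simp only [sub_zero]
    nlinarith [mul_pos p5 p31]
  · rw [e0, e3, e4]
    simp only [sub_zero]
    nlinarith
-- END row popp

-- BEGIN row dev
theorem dev_eq {a b : ℂ} {c d : E3} {t : ℝ} (h1 : dist a b ^ 2 = t) (h2 : dist c d ^ 2 = t) :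
    dist a b = dist c d :=
  (sq_eq_sq₀ dist_nonneg dist_nonneg).1 (h1.trans h2.symm)

/-- PROOF. `vnum`, `pnum`, `popp`; equal squares of distances (`pow_left_injective` or
`(sq_eq_sq₀ dist_nonneg dist_nonneg).1`); `sh vx i = vx (i + 1)` by `rfl`. -/
theorem dev : Dev vx px ∧ Dev (sh vx) px := by
  obtain ⟨p01, p12, p23, p34, p04, p02, p03⟩ := pnum
  obtain ⟨o2, o3⟩ := popp
  refine ⟨⟨?_, ?_, ?_, ?_, ?_, ?_, ?_, o2, o3⟩, ⟨?_, ?_, ?_, ?_, ?_, ?_, ?_, o2, o3⟩⟩
  · exact dev_eq p01 ((vnum 0 1).trans (by simp [NN]))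
  · exact dev_eq p12 ((vnum 1 2).trans (by simp [NN]))
  · exact dev_eq p23 ((vnum 2 3).trans (by simp [NN]))
  · exact dev_eq p34 ((vnum 3 4).trans (by simp [NN]))
  · exact dev_eq p04 ((vnum 0 4).trans (by simp [NN]))
  · exact dev_eq p02 ((vnum 0 2).trans (by simp [NN]))
  · exact dev_eq p03 ((vnum 0 3).trans (by simp [NN]))
  · exact dev_eq p01 ((vnum 1 2).trans (by simp [NN]) : dist (vx 1) (vx 2) ^ 2 = 36)
  · exact dev_eq p12 ((vnum 2 3).trans (by simp [NN]) : dist (vx 2) (vx 3) ^ 2 = 36)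
  · exact dev_eq p23 ((vnum 3 4).trans (by simp [NN]) : dist (vx 3) (vx 4) ^ 2 = 36)
  · exact dev_eq p34 ((vnum 4 0).trans (by simp [NN]) : dist (vx 4) (vx 0) ^ 2 = 36)
  · exact dev_eq p04 ((vnum 1 0).trans (by simp [NN]) : dist (vx 1) (vx 0) ^ 2 = 36)
  · exact dev_eq p02 ((vnum 1 3).trans (by simp [NN]) : dist (vx 1) (vx 3) ^ 2 = 76)
  · exact dev_eq p03 ((vnum 1 4).trans (by simp [NN]) : dist (vx 1) (vx 4) ^ 2 = 80)
-- END row dev

-- BEGIN row sec
/-- A point of a sector below the opposite side is in the triangle. With `u × w = u.re * w.im -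
u.im * w.re`. PROOF. `w = α a + β b`, `α = (b × w) / (b × a)`, `β = (w × a) / (b × a)`, and
`1 - α - β = ((b - a) × (w - a)) * (-1) / (b × a)` is not negative by `h3`; `hull3` (Tet.lean). -/
theorem sec {a b w : ℂ} (h : 0 < b.re * a.im - b.im * a.re)
    (h1 : 0 ≤ b.re * w.im - b.im * w.re) (h2 : 0 ≤ w.re * a.im - w.im * a.re)
    (h3 : (b - a).re * (w - a).im - (b - a).im * (w - a).re ≤ 0) :
    w ∈ convexHull ℝ {0, a, b} := by
  set D := b.re * a.im - b.im * a.re with hD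
  have hD0 : D ≠ 0 := ne_of_gt h
  simp only [Complex.sub_re, Complex.sub_im] at h3
  rw [hull3]
  refine ⟨1 - (b.re * w.im - b.im * w.re) / D - (w.re * a.im - w.im * a.re) / D,
    (b.re * w.im - b.im * w.re) / D, (w.re * a.im - w.im * a.re) / D, ?_, div_nonneg h1 h.le,
    div_nonneg h2 h.le, by ring, ?_⟩
  · have e : 1 - (b.re * w.im - b.im * w.re) / D - (w.re * a.im - w.im * a.re) / D =
        (D - (b.re * w.im - b.im * w.re) - (w.re * a.im - w.im * a.re)) / D := by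
      field_simp
    rw [e]
    apply div_nonneg _ h.le
    rw [hD]
    linarith
  · rw [smul_zero, zero_add]
    apply Complex.ext
    · simp only [Complex.add_re, Complex.real_smul, Complex.mul_re, Complex.ofReal_re,
        Complex.ofReal_im, zero_mul, sub_zero]
      rw [div_mul_eq_mul_div, div_mul_eq_mul_div, ← add_div, div_eq_iff hD0, hD]
      ring
    · simp only [Complex.add_im, Complex.real_smul, Complex.mul_im, Complex.ofReal_re,
        Complex.ofReal_im, zero_mul, add_zero]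
      rw [div_mul_eq_mul_div, div_mul_eq_mul_div, ← add_div, div_eq_iff hD0, hD]
      ring
-- END row sec

-- BEGIN row pcon
private theorem pcon_lin (a b : ℝ) : IsLinearMap ℝ (fun w : ℂ => a * w.re + b * w.im) := by
  constructor
  · intro x y
    simp only [Complex.add_re, Complex.add_im]
    ring
  · intro c x
    simp only [Complex.smul_re, Complex.smul_im, smul_eq_mul]
    ring

private theorem pcon_le (a b c : ℝ) (s : Set ℂ) (h : ∀ z ∈ s, a * z.re + b * z.im ≤ c) (w : ℂ)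
    (hw : w ∈ convexHull ℝ s) : a * w.re + b * w.im ≤ c :=
  convexHull_min (fun z hz => h z hz) (convex_halfSpace_le (pcon_lin a b) c) hw

private theorem pcon_lt (a b c : ℝ) (s : Set ℂ) (h : ∀ z ∈ s, a * z.re + b * z.im < c) (w : ℂ)
    (hw : w ∈ convexHull ℝ s) : a * w.re + b * w.im < c :=
  convexHull_min (fun z hz => h z hz) (convex_halfSpace_lt (pcon_lin a b) c) hw

private theorem pcon_mul {x y a b c d : ℝ} (h1 : a ≤ x) (h2 : x ≤ b) (h3 : c ≤ y) (h4 : y ≤ d)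
    (ha : 0 ≤ a) (hc : 0 ≤ c) : a * c ≤ x * y ∧ x * y ≤ b * d :=
  ⟨mul_le_mul h1 h3 hc (ha.trans h1), mul_le_mul h2 h4 (hc.trans h3) ((ha.trans h1).trans h2)⟩

private theorem pcon_five {P : Fin 5 → Prop} (h0 : P 0) (h1 : P 1) (h2 : P 2) (h3 : P 3)
    (h4 : P 4) (i : Fin 5) : P i := by
  fin_cases i
  · exact h0
  · exact h1
  · exact h2
  · exact h3
  · exact h4

private theorem pcon_num : ∃ A B C D E F : ℝ, (px 0).re = 0 ∧ (px 0).im = 0 ∧ (px 1).re = A ∧
    (px 1).im = B ∧ (px 2).re = C ∧ (px 2).im = D ∧ (px 3).re = E ∧ (px 3).im = 0 ∧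
    (px 4).re = F ∧ (px 4).im = -4 ∧ (0.7 ≤ A ∧ A ≤ 0.75) ∧ (5.94 ≤ B ∧ B ≤ 5.96) ∧
    (6.7 ≤ C ∧ C ≤ 6.71) ∧ (5.56 ≤ D ∧ D ≤ 5.57) ∧ (8.94 ≤ E ∧ E ≤ 8.95) ∧
    (4.47 ≤ F ∧ F ≤ 4.48) := by
  have a1 : (2.236 : ℝ) ≤ √5 := Real.le_sqrt_of_sq_le (by norm_num)
  have a2 : √5 ≤ (2.2361 : ℝ) := Real.sqrt_le_iff.2 ⟨by norm_num, by norm_num⟩
  have b1 : (5.567 : ℝ) ≤ √31 := Real.le_sqrt_of_sq_le (by norm_num)
  have b2 : √31 ≤ (5.568 : ℝ) := Real.sqrt_le_iff.2 ⟨by norm_num, by norm_num⟩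
  have c1 : (0.472 : ℝ) ≤ kap := Real.le_sqrt_of_sq_le (by norm_num)
  have c2 : kap ≤ (0.473 : ℝ) := Real.sqrt_le_iff.2 ⟨by norm_num, by norm_num⟩
  have d1 := pcon_mul c1 c2 b1 b2 (by norm_num) (by norm_num)
  have d2 := pcon_mul a1 a2 c1 c2 (by norm_num) (by norm_num)
  refine ⟨3 * √5 / 2 - kap * √31, √31 / 2 + 3 * √5 * kap, 3 * √5, √31, 4 * √5, 2 * √5, rfl, rfl,
    rfl, rfl, rfl, rfl, rfl, rfl, rfl, rfl, ?_, ?_, ?_, ?_, ?_, ?_⟩
  · constructor
    · norm_num at *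
      linarith [d1.2]
    · norm_num at *
      linarith [d1.1]
  · constructor
    · norm_num at *
      linarith [d2.1]
    · norm_num at *
      linarith [d2.2]
  · constructor <;> norm_num at * <;> linarith
  · constructor <;> norm_num at * <;> linarith
  · constructor <;> norm_num at * <;> linarith
  · constructor <;> norm_num at * <;> linarith

/-- The pentagon is convex. PROOF. `⊆`: `convexHull_mono` for the three triangles. `⊇`: by
`convexHull_min` all points `w` of the hull satisfy the five inequalities of the sides (each is a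
closed half plane containing the five points; the half plane is convex): with
`u × w = u.re * w.im - u.im * w.re`, `0 ≤ w × p1`, `(p2 - p1) × (w - p1) ≤ 0`,
`(p3 - p2) × (w - p2) ≤ 0`, `(p4 - p3) × (w - p3) ≤ 0`, `0 ≤ p4 × w`. If `0 ≤ p2 × w` use `sec` with
`a = p1`, `b = p2`; else if `0 ≤ p3 × w` use `sec` with `a = p2`, `b = p3`; else `a = p3`, `b = p4`.
Corners: `p i` is the unique maximum of a linear function: `- re`, `im`, `re + im`, `re`, `- im` for
`i = 0, 1, 2, 3, 4` (the hull of the other points is in an open half plane, `convexHull_min`).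
Numbers: `√5 = 2.2360..`, `√31 = 5.5677..`, `kap = 0.47296..` (`Real.lt_sqrt`, `Real.sqrt_lt'`). -/
theorem pcon : ConvexPent px := by
  obtain ⟨A, B, C, D, E, F, r0, i0, r1, i1, r2, i2, r3, i3, r4, i4, hA, hB, hC, hD, hE, hF⟩ :=
    pcon_num
  norm_num at hA hB hC hD hE hF
  have mCB := pcon_mul hC.1 hC.2 hB.1 hB.2 (by norm_num) (by norm_num)
  have mDA := pcon_mul hD.1 hD.2 hA.1 hA.2 (by norm_num) (by norm_num)
  have mEB := pcon_mul hE.1 hE.2 hB.1 hB.2 (by norm_num) (by norm_num)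
  have mFB := pcon_mul hF.1 hF.2 hB.1 hB.2 (by norm_num) (by norm_num)
  have mED := pcon_mul hE.1 hE.2 hD.1 hD.2 (by norm_num) (by norm_num)
  have mFD := pcon_mul hF.1 hF.2 hD.1 hD.2 (by norm_num) (by norm_num)
  norm_num at mCB mDA mEB mFB mED mFD
  obtain ⟨hA1, hA2⟩ := hA
  obtain ⟨hB1, hB2⟩ := hB
  obtain ⟨hC1, hC2⟩ := hC
  obtain ⟨hD1, hD2⟩ := hD
  obtain ⟨hE1, hE2⟩ := hE
  obtain ⟨hF1, hF2⟩ := hF
  obtain ⟨mCB1, mCB2⟩ := mCB
  obtain ⟨mDA1, mDA2⟩ := mDA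
  obtain ⟨mEB1, mEB2⟩ := mEB
  obtain ⟨mFB1, mFB2⟩ := mFB
  obtain ⟨mED1, mED2⟩ := mED
  obtain ⟨mFD1, mFD2⟩ := mFD
  have p0 : px 0 = 0 := rfl
  constructor
  · apply Set.Subset.antisymm
    · refine Set.union_subset (Set.union_subset ?_ ?_) ?_ <;>
        refine convexHull_mono ?_ <;> rintro _ (rfl | rfl | rfl) <;> exact Set.mem_range_self _
    · intro w hw
      have q1 : (-B) * w.re + A * w.im ≤ 0 := pcon_le _ _ _ _ (by
        rintro _ ⟨i, rfl⟩
        revert i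
        refine pcon_five ?_ ?_ ?_ ?_ ?_
        · rw [r0, i0]; linarith
        · rw [r1, i1]; linarith
        · rw [r2, i2]; linarith
        · rw [r3, i3]; linarith
        · rw [r4, i4]; linarith) w hw
      have q2 : (-(D - B)) * w.re + (C - A) * w.im ≤ (C - A) * B - (D - B) * A := pcon_le _ _ _ _ (by
        rintro _ ⟨i, rfl⟩
        revert i
        refine pcon_five ?_ ?_ ?_ ?_ ?_
        · rw [r0, i0]; linarith
        · rw [r1, i1]; linarith
        · rw [r2, i2]; linarith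
        · rw [r3, i3]; linarith
        · rw [r4, i4]; linarith) w hw
      have q3 : D * w.re + (E - C) * w.im ≤ (E - C) * D + D * C := pcon_le _ _ _ _ (by
        rintro _ ⟨i, rfl⟩
        revert i
        refine pcon_five ?_ ?_ ?_ ?_ ?_
        · rw [r0, i0]; linarith
        · rw [r1, i1]; linarith
        · rw [r2, i2]; linarith
        · rw [r3, i3]; linarith
        · rw [r4, i4]; linarith) w hw
      have q4 : 4 * w.re + (F - E) * w.im ≤ 4 * E := pcon_le _ _ _ _ (by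
        rintro _ ⟨i, rfl⟩
        revert i
        refine pcon_five ?_ ?_ ?_ ?_ ?_
        · rw [r0, i0]; linarith
        · rw [r1, i1]; linarith
        · rw [r2, i2]; linarith
        · rw [r3, i3]; linarith
        · rw [r4, i4]; linarith) w hw
      have q5 : (-4) * w.re + (-F) * w.im ≤ 0 := pcon_le _ _ _ _ (by
        rintro _ ⟨i, rfl⟩
        revert i
        refine pcon_five ?_ ?_ ?_ ?_ ?_
        · rw [r0, i0]; linarith
        · rw [r1, i1]; linarith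
        · rw [r2, i2]; linarith
        · rw [r3, i3]; linarith
        · rw [r4, i4]; linarith) w hw
      unfold Pent
      rw [p0]
      rcases le_total 0 (C * w.im - D * w.re) with h1 | h1
      · refine Or.inl (Or.inl (sec ?_ ?_ ?_ ?_))
        · rw [r1, i1, r2, i2]; linarith
        · rw [r2, i2]; exact h1
        · rw [r1, i1]; linarith
        · simp only [Complex.sub_re, Complex.sub_im]
          rw [r1, i1, r2, i2]; linarith
      · rcases le_total 0 (E * w.im) with h2 | h2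
        · refine Or.inl (Or.inr (sec ?_ ?_ ?_ ?_))
          · rw [r2, i2, r3, i3]; linarith
          · rw [r3, i3]; linarith
          · rw [r2, i2]; linarith
          · simp only [Complex.sub_re, Complex.sub_im]
            rw [r2, i2, r3, i3]; linarith
        · refine Or.inr (sec ?_ ?_ ?_ ?_)
          · rw [r3, i3, r4, i4]; linarith
          · rw [r4, i4]; linarith
          · rw [r3, i3]; linarith
          · simp only [Complex.sub_re, Complex.sub_im]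
            rw [r3, i3, r4, i4]; linarith
  · have key : ∀ (i : Fin 5) (a b : ℝ), (∀ j, j ≠ i →
        a * (px j).re + b * (px j).im < a * (px i).re + b * (px i).im) →
        px i ∉ convexHull ℝ (px '' {j | j ≠ i}) := by
      intro i a b h hm
      refine lt_irrefl _ (pcon_lt a b _ _ ?_ _ hm)
      rintro _ ⟨j, hj, rfl⟩
      exact h j hj
    refine pcon_five ?_ ?_ ?_ ?_ ?_
    · refine key 0 (-1) 0 (pcon_five (fun h => absurd rfl h) ?_ ?_ ?_ ?_) <;> intro _ <;>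
        simp only [r0, i0, r1, i1, r2, i2, r3, i3, r4, i4] <;> linarith
    · refine key 1 0 1 (pcon_five ?_ (fun h => absurd rfl h) ?_ ?_ ?_) <;> intro _ <;>
        simp only [r0, i0, r1, i1, r2, i2, r3, i3, r4, i4] <;> linarith
    · refine key 2 1 1 (pcon_five ?_ ?_ (fun h => absurd rfl h) ?_ ?_) <;> intro _ <;>
        simp only [r0, i0, r1, i1, r2, i2, r3, i3, r4, i4] <;> linarith
    · refine key 3 1 0 (pcon_five ?_ ?_ ?_ (fun h => absurd rfl h) ?_) <;> intro _ <;>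
        simp only [r0, i0, r1, i1, r2, i2, r3, i3, r4, i4] <;> linarith
    · refine key 4 0 (-1) (pcon_five ?_ ?_ ?_ ?_ (fun h => absurd rfl h)) <;> intro _ <;>
        simp only [r0, i0, r1, i1, r2, i2, r3, i3, r4, i4] <;> linarith
-- END row pcon

-- BEGIN row coo
/-- Coordinates of a combination of the vertices. PROOF. `simp [vx, cX, cY, cZ]`, `field_simp`;
backwards `ext i; fin_cases i`. -/
theorem coo (α β γ δ ε : ℝ) (w : E3) :
    α • vx 0 + β • vx 1 + γ • vx 2 + δ • vx 3 + ε • vx 4 = w ↔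
      2 * β - 2 * γ + 2 * ε = cX w ∧ 3 * β + 3 * γ - 2 * ε = cY w ∧
        β + 3 * γ + 4 * δ + 2 * ε = cZ w := by
  have h3 : (√3 : ℝ) ≠ 0 := by positivity
  have h5 : (√5 : ℝ) ≠ 0 := by positivity
  have e0 : (α • vx 0 + β • vx 1 + γ • vx 2 + δ • vx 3 + ε • vx 4) 0 =
      2 * β - 2 * γ + 2 * ε := by
    simp [vx]
    ring
  have e1 : (α • vx 0 + β • vx 1 + γ • vx 2 + δ • vx 3 + ε • vx 4) 1 =
      √3 * (3 * β + 3 * γ - 2 * ε) := by
    simp [vx]
    ring
  have e2 : (α • vx 0 + β • vx 1 + γ • vx 2 + δ • vx 3 + ε • vx 4) 2 =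
      √5 * (β + 3 * γ + 4 * δ + 2 * ε) := by
    simp [vx]
    ring
  constructor
  · intro h
    rw [h] at e0 e1 e2
    unfold cX cY cZ
    refine ⟨e0.symm, ?_, ?_⟩
    · rw [e1, mul_div_cancel_left₀ _ h3]
    · rw [e2, mul_div_cancel_left₀ _ h5]
  · rintro ⟨g0, g1, g2⟩
    unfold cX at g0
    unfold cY at g1
    unfold cZ at g2
    rw [g1, mul_div_cancel₀ _ h3] at e1
    rw [g2, mul_div_cancel₀ _ h5] at e2
    ext i
    fin_cases i
    · exact e0.trans g0
    · exact e1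
    · exact e2
-- END row coo

-- BEGIN row hul
private theorem hul_lin (a b : ℝ) (w w' : E3) : cX (a • w + b • w') = a * cX w + b * cX w' ∧
    cY (a • w + b • w') = a * cY w + b * cY w' ∧ cZ (a • w + b • w') = a * cZ w + b * cZ w' := by
  refine ⟨?_, ?_, ?_⟩
  · simp [cX]
  · simp only [cY, PiLp.add_apply, PiLp.smul_apply, smul_eq_mul]
    ring
  · simp only [cZ, PiLp.add_apply, PiLp.smul_apply, smul_eq_mul]
    ring

private theorem hul_conv : Convex ℝ QQ := by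
  intro w hw w' hw' a b ha hb hab
  obtain ⟨h1, h2, h3⟩ := hul_lin a b w w'
  obtain ⟨q1, q2, q3, q4, q5, q6⟩ := hw
  obtain ⟨r1, r2, r3, r4, r5, r6⟩ := hw'
  refine ⟨?_, ?_, ?_, ?_, ?_, ?_⟩ <;> simp only [h1, h2, h3]
  · linarith [mul_nonneg ha q1, mul_nonneg hb r1]
  · linarith [mul_nonneg ha q2, mul_nonneg hb r2]
  · linarith [mul_nonneg ha q3, mul_nonneg hb r3]
  · linarith [mul_nonneg ha (sub_nonneg.2 q4), mul_nonneg hb (sub_nonneg.2 r4)]
  · linarith [mul_nonneg ha (sub_nonneg.2 q5), mul_nonneg hb (sub_nonneg.2 r5)]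
  · linarith [mul_nonneg ha q6, mul_nonneg hb r6]

private theorem hul_mem {a b c d e : ℝ} (h0 : 0 ≤ a) (h1 : 0 ≤ b) (h2 : 0 ≤ c) (h3 : 0 ≤ d)
    (h4 : 0 ≤ e) (h : a + b + c + d + e = 1) :
    a • vx 0 + b • vx 1 + c • vx 2 + d • vx 3 + e • vx 4 ∈ convexHull ℝ (range vx) := by
  have h5 := (convex_convexHull ℝ (range vx)).sum_mem (t := Finset.univ)
    (w := ![a, b, c, d, e]) (z := vx)
    (by intro i _; fin_cases i <;> assumption)
    (by rw [Fin.sum_univ_five]; exact h)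
    (fun i _ => subset_convexHull _ _ ⟨i, rfl⟩)
  rw [Fin.sum_univ_five] at h5
  exact h5

/-- The hull is the intersection of the six half spaces. PROOF. `⊆`: `convexHull_min` (the five
vertices by `simp [vx]`, `QQ` is convex: the coordinates are linear). `⊇`: let `X, Y, Z` be the
coordinates of `w`. If `3 X ≤ 2 Y`: weights `(24 - 3 X - 4 Y - 6 Z) / 24` at `v 0`, `(3 X + 2 Y) / 12`
at `v 1`, `(2 Y - 3 X) / 12` at `v 2`, `(3 X - 4 Y + 6 Z) / 24` at `v 3`. If `2 Y ≤ 3 X`: weights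
`(20 - 6 X - Y - 5 Z) / 20` at `v 0`, `(X + Y) / 5` at `v 1`, `(-4 X + Y + 5 Z) / 20` at `v 3`,
`(3 X - 2 Y) / 10` at `v 4`. `coo`, and the combination is in the hull
(`convex_convexHull`, `Convex.sum_mem` or `mem_convexHull_of_exists_fintype`). -/
theorem hul : convexHull ℝ (range vx) = QQ := by
  apply Subset.antisymm
  · refine convexHull_min ?_ hul_conv
    rintro _ ⟨i, rfl⟩
    fin_cases i
    · obtain ⟨h1, h2, h3⟩ := (coo 1 0 0 0 0 (vx 0)).1 (by simp)
      change vx 0 ∈ QQ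
      refine ⟨?_, ?_, ?_, ?_, ?_, ?_⟩ <;> linarith
    · obtain ⟨h1, h2, h3⟩ := (coo 0 1 0 0 0 (vx 1)).1 (by simp)
      change vx 1 ∈ QQ
      refine ⟨?_, ?_, ?_, ?_, ?_, ?_⟩ <;> linarith
    · obtain ⟨h1, h2, h3⟩ := (coo 0 0 1 0 0 (vx 2)).1 (by simp)
      change vx 2 ∈ QQ
      refine ⟨?_, ?_, ?_, ?_, ?_, ?_⟩ <;> linarith
    · obtain ⟨h1, h2, h3⟩ := (coo 0 0 0 1 0 (vx 3)).1 (by simp)
      change vx 3 ∈ QQ
      refine ⟨?_, ?_, ?_, ?_, ?_, ?_⟩ <;> linarith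
    · obtain ⟨h1, h2, h3⟩ := (coo 0 0 0 0 1 (vx 4)).1 (by simp)
      change vx 4 ∈ QQ
      refine ⟨?_, ?_, ?_, ?_, ?_, ?_⟩ <;> linarith
  · rintro w ⟨q1, q2, q3, q4, q5, q6⟩
    rcases le_total (3 * cX w) (2 * cY w) with h | h
    · have h5 := (coo ((24 - 3 * cX w - 4 * cY w - 6 * cZ w) / 24) ((3 * cX w + 2 * cY w) / 12)
        ((2 * cY w - 3 * cX w) / 12) ((3 * cX w - 4 * cY w + 6 * cZ w) / 24) 0 w).2
        ⟨by ring, by ring, by ring⟩
      rw [← h5]
      exact hul_mem (by linarith) (by linarith) (by linarith) (by linarith) le_rfl (by ring)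
    · have h5 := (coo ((20 - 6 * cX w - cY w - 5 * cZ w) / 20) ((cX w + cY w) / 5) 0
        ((-4 * cX w + cY w + 5 * cZ w) / 20) ((3 * cX w - 2 * cY w) / 10) w).2
        ⟨by ring, by ring, by ring⟩
      rw [← h5]
      exact hul_mem (by linarith) (by linarith) le_rfl (by linarith) (by linarith) (by ring)
-- END row hul

-- BEGIN row fro
private theorem fro_cont : Continuous cX ∧ Continuous cY ∧ Continuous cZ := by
  refine ⟨?_, ?_, ?_⟩
  · unfold cX; fun_prop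
  · unfold cY; fun_prop
  · unfold cZ; fun_prop

private theorem fro_int {S : Set E3} {w : E3} (a b c e : ℝ) (ha : a ≠ 0)
    (hS : ∀ u ∈ S, 0 ≤ a * cX u + b * cY u + c * cZ u + e) (hw : w ∈ interior S) :
    0 < a * cX w + b * cY w + c * cZ w + e := by
  have hg : Continuous (fun r : ℝ => w + r • (EuclideanSpace.single 0 1 : E3)) := by fun_prop
  have h0 : (fun r : ℝ => w + r • (EuclideanSpace.single 0 1 : E3)) 0 ∈ interior S := by
    simpa using hw
  have h1 : ∀ᶠ r in nhds (0 : ℝ), w + r • (EuclideanSpace.single 0 1 : E3) ∈ interior S :=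
    hg.continuousAt.eventually_mem (isOpen_interior.mem_nhds h0)
  obtain ⟨δ, hδ, h2⟩ := Metric.eventually_nhds_iff.1 h1
  by_contra hcon
  have hpos : 0 < |a| + 1 := by positivity
  have h3 : dist (-(a * (δ / (2 * (|a| + 1))))) 0 < δ := by
    rw [Real.dist_eq, sub_zero, abs_neg, abs_mul, abs_of_pos (by positivity : 0 < δ / (2 * (|a| + 1)))]
    rw [← mul_div_assoc, div_lt_iff₀ (by positivity)]
    nlinarith [abs_nonneg a]
  have h4 := hS _ (interior_subset (h2 h3))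
  have e1 : cX (w + (-(a * (δ / (2 * (|a| + 1))))) • (EuclideanSpace.single 0 1 : E3)) =
      cX w - a * (δ / (2 * (|a| + 1))) := by
    simp [cX]; ring
  have e2 : cY (w + (-(a * (δ / (2 * (|a| + 1))))) • (EuclideanSpace.single 0 1 : E3)) =
      cY w := by
    simp [cY]
  have e3 : cZ (w + (-(a * (δ / (2 * (|a| + 1))))) • (EuclideanSpace.single 0 1 : E3)) =
      cZ w := by
    simp [cZ]
  rw [e1, e2, e3] at h4
  have h5 : 0 < a * a * (δ / (2 * (|a| + 1))) := by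
    have : 0 < a * a := mul_self_pos.2 ha
    positivity
  nlinarith

/-- The frontier of the six half spaces. PROOF. `QQ` is closed (`frontier = QQ \ interior QQ`). The set
of the strict inequalities is open and contained in `QQ`, so in the interior. If `f w` is equal to the
bound for one of the six linear functions `f` then `w` is not in the interior: `f` is a non-zero
continuous linear function; for a suitable vector `e` (`!₂[1,0,0]`, or `- !₂[1,0,0]`) the points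
`w + r • e`, `r > 0`, violate the inequality and tend to `w` (`Metric.mem_nhds_iff` or
`mem_interior_iff_mem_nhds` with the continuity of `r ↦ w + r • e` at `0`). -/
theorem fro : frontier QQ = {w | w ∈ QQ ∧ EQ w} := by
  obtain ⟨cx, cy, cz⟩ := fro_cont
  have hcl : IsClosed QQ := by
    unfold QQ
    simp only [Set.ofPred_and]
    refine IsClosed.inter ?_ (IsClosed.inter ?_ (IsClosed.inter ?_ (IsClosed.inter ?_
      (IsClosed.inter ?_ ?_))))
    · exact isClosed_le continuous_const (by fun_prop)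
    · exact isClosed_le continuous_const (by fun_prop)
    · exact isClosed_le continuous_const (by fun_prop)
    · exact isClosed_le (by fun_prop) continuous_const
    · exact isClosed_le (by fun_prop) continuous_const
    · exact isClosed_le continuous_const (by fun_prop)
  have hop : IsOpen {w : E3 | 0 < 3 * cX w - 4 * cY w + 6 * cZ w ∧ 0 < 3 * cX w + 2 * cY w ∧
      0 < cX w + cY w ∧ 3 * cX w + 4 * cY w + 6 * cZ w < 24 ∧ 6 * cX w + cY w + 5 * cZ w < 20 ∧
      0 < -4 * cX w + cY w + 5 * cZ w} := by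
    simp only [Set.ofPred_and]
    refine IsOpen.inter ?_ (IsOpen.inter ?_ (IsOpen.inter ?_ (IsOpen.inter ?_
      (IsOpen.inter ?_ ?_))))
    · exact isOpen_lt continuous_const (by fun_prop)
    · exact isOpen_lt continuous_const (by fun_prop)
    · exact isOpen_lt continuous_const (by fun_prop)
    · exact isOpen_lt (by fun_prop) continuous_const
    · exact isOpen_lt (by fun_prop) continuous_const
    · exact isOpen_lt continuous_const (by fun_prop)
  rw [hcl.frontier_eq]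
  ext w
  constructor
  · rintro ⟨hw, hni⟩
    refine ⟨hw, ?_⟩
    by_contra hE
    apply hni
    have hsub : {w : E3 | 0 < 3 * cX w - 4 * cY w + 6 * cZ w ∧ 0 < 3 * cX w + 2 * cY w ∧
        0 < cX w + cY w ∧ 3 * cX w + 4 * cY w + 6 * cZ w < 24 ∧ 6 * cX w + cY w + 5 * cZ w < 20 ∧
        0 < -4 * cX w + cY w + 5 * cZ w} ⊆ QQ := by
      rintro u ⟨u1, u2, u3, u4, u5, u6⟩
      exact ⟨u1.le, u2.le, u3.le, u4.le, u5.le, u6.le⟩
    apply interior_maximal hsub hop
    unfold EQ at hE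
    push Not at hE
    obtain ⟨n1, n2, n3, n4, n5, n6⟩ := hE
    obtain ⟨q1, q2, q3, q4, q5, q6⟩ := hw
    exact ⟨lt_of_le_of_ne q1 n1, lt_of_le_of_ne q2 n2, lt_of_le_of_ne q3 n3,
      lt_of_le_of_ne q4 n4, lt_of_le_of_ne q5 n5, lt_of_le_of_ne q6 n6⟩
  · rintro ⟨hw, hE⟩
    refine ⟨hw, fun hi => ?_⟩
    have i1 := fro_int (w := w) 3 (-4) 6 0 (by norm_num)
      (fun u (hu : u ∈ QQ) => by have := hu.1; linarith) hi
    have i2 := fro_int (w := w) 3 2 0 0 (by norm_num)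
      (fun u (hu : u ∈ QQ) => by have := hu.2.1; linarith) hi
    have i3 := fro_int (w := w) 1 1 0 0 (by norm_num)
      (fun u (hu : u ∈ QQ) => by have := hu.2.2.1; linarith) hi
    have i4 := fro_int (w := w) (-3) (-4) (-6) 24 (by norm_num)
      (fun u (hu : u ∈ QQ) => by have := hu.2.2.2.1; linarith) hi
    have i5 := fro_int (w := w) (-6) (-1) (-5) 20 (by norm_num)
      (fun u (hu : u ∈ QQ) => by have := hu.2.2.2.2.1; linarith) hi
    have i6 := fro_int (w := w) (-4) 1 5 0 (by norm_num)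
      (fun u (hu : u ∈ QQ) => by have := hu.2.2.2.2.2; linarith) hi
    rcases hE with h | h | h | h | h | h <;> linarith
-- END row fro

-- BEGIN row tri1
private theorem tri1_q {α β γ δ ε : ℝ} {w : E3} (ha : 0 ≤ α) (hb : 0 ≤ β) (hc : 0 ≤ γ) (hd : 0 ≤ δ)
    (he : 0 ≤ ε) (hs : α + β + γ + δ + ε = 1)
    (h : α • vx 0 + β • vx 1 + γ • vx 2 + δ • vx 3 + ε • vx 4 = w) : w ∈ QQ := by
  obtain ⟨h1, h2, h3⟩ := (coo α β γ δ ε w).1 h
  refine ⟨?_, ?_, ?_, ?_, ?_, ?_⟩ <;> linarith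

/-- The triangles satisfy equalities. PROOF. `hull3` (Tet.lean): a point of `Tri vx i j k` is a
combination of three vertices, so it is in `QQ = convexHull (range vx)` (`hul`), and by `coo` its
coordinates give the equality number 1, 2, 3, 4, 5, 6 for `012`, `023`, `034`, `123`, `134`, `140`. -/
theorem tri1 (w : E3) (h : w ∈ Sur vx) : w ∈ QQ ∧ EQ w := by
  rcases h with ((h | h) | h) | ((h | h) | h)
  · obtain ⟨x, y, z, hx, hy, hz, hs, he⟩ := (hull3 (vx 0) (vx 1) (vx 2) w).1 h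
    have e : x • vx 0 + y • vx 1 + z • vx 2 + (0 : ℝ) • vx 3 + (0 : ℝ) • vx 4 = w := by
      rw [← he]; module
    obtain ⟨h1, h2, h3⟩ := (coo x y z 0 0 w).1 e
    exact ⟨tri1_q hx hy hz le_rfl le_rfl (by linarith) e, Or.inl (by linarith)⟩
  · obtain ⟨x, y, z, hx, hy, hz, hs, he⟩ := (hull3 (vx 0) (vx 2) (vx 3) w).1 h
    have e : x • vx 0 + (0 : ℝ) • vx 1 + y • vx 2 + z • vx 3 + (0 : ℝ) • vx 4 = w := by
      rw [← he]; module
    obtain ⟨h1, h2, h3⟩ := (coo x 0 y z 0 w).1 e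
    exact ⟨tri1_q hx le_rfl hy hz le_rfl (by linarith) e, Or.inr (Or.inl (by linarith))⟩
  · obtain ⟨x, y, z, hx, hy, hz, hs, he⟩ := (hull3 (vx 0) (vx 3) (vx 4) w).1 h
    have e : x • vx 0 + (0 : ℝ) • vx 1 + (0 : ℝ) • vx 2 + y • vx 3 + z • vx 4 = w := by
      rw [← he]; module
    obtain ⟨h1, h2, h3⟩ := (coo x 0 0 y z w).1 e
    exact ⟨tri1_q hx le_rfl le_rfl hy hz (by linarith) e, Or.inr (Or.inr (Or.inl (by linarith)))⟩
  · obtain ⟨x, y, z, hx, hy, hz, hs, he⟩ := (hull3 (vx 1) (vx 2) (vx 3) w).1 h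
    have e : (0 : ℝ) • vx 0 + x • vx 1 + y • vx 2 + z • vx 3 + (0 : ℝ) • vx 4 = w := by
      rw [← he]; module
    obtain ⟨h1, h2, h3⟩ := (coo 0 x y z 0 w).1 e
    exact ⟨tri1_q le_rfl hx hy hz le_rfl (by linarith) e,
      Or.inr (Or.inr (Or.inr (Or.inl (by linarith))))⟩
  · obtain ⟨x, y, z, hx, hy, hz, hs, he⟩ := (hull3 (vx 1) (vx 3) (vx 4) w).1 h
    have e : (0 : ℝ) • vx 0 + x • vx 1 + (0 : ℝ) • vx 2 + y • vx 3 + z • vx 4 = w := by
      rw [← he]; module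
    obtain ⟨h1, h2, h3⟩ := (coo 0 x 0 y z w).1 e
    exact ⟨tri1_q le_rfl hx le_rfl hy hz (by linarith) e,
      Or.inr (Or.inr (Or.inr (Or.inr (Or.inl (by linarith)))))⟩
  · obtain ⟨x, y, z, hx, hy, hz, hs, he⟩ := (hull3 (vx 1) (vx 4) (vx 0) w).1 h
    have e : z • vx 0 + x • vx 1 + (0 : ℝ) • vx 2 + (0 : ℝ) • vx 3 + y • vx 4 = w := by
      rw [← he]; module
    obtain ⟨h1, h2, h3⟩ := (coo z x 0 0 y w).1 e
    exact ⟨tri1_q hz hx le_rfl le_rfl hy (by linarith) e,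
      Or.inr (Or.inr (Or.inr (Or.inr (Or.inr (by linarith)))))⟩
-- END row tri1

-- BEGIN row tri2
private theorem tri2_hull {x y z w : E3} {a b c : ℝ} (ha : 0 ≤ a) (hb : 0 ≤ b) (hc : 0 ≤ c)
    (h : a + b + c = 1) (hw : a • x + b • y + c • z = w) : w ∈ convexHull ℝ {x, y, z} := by
  have h1 : ({x, y, z} : Set E3) ⊆ convexHull ℝ {x, y, z} := subset_convexHull ℝ _
  have hx : x ∈ convexHull ℝ ({x, y, z} : Set E3) := h1 (by simp)
  have hy : y ∈ convexHull ℝ ({x, y, z} : Set E3) := h1 (by simp)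
  have hz : z ∈ convexHull ℝ ({x, y, z} : Set E3) := h1 (by simp)
  have hcv := convex_convexHull ℝ ({x, y, z} : Set E3)
  have h2 := hcv.sum_mem (t := Finset.univ) (w := ![a, b, c]) (z := ![x, y, z])
    (by intro i _; fin_cases i <;> simpa) (by simp [Fin.sum_univ_three, h])
    (by intro i _; fin_cases i <;> simpa)
  rw [← hw]
  simpa [Fin.sum_univ_three] using h2

private theorem tri2_mem {w : E3} {a b c d e : ℝ} (ha : 0 ≤ a) (hb : 0 ≤ b) (hc : 0 ≤ c)
    (hd : 0 ≤ d) (he : 0 ≤ e) (h : a + b + c + d + e = 1)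
    (hw : a • vx 0 + b • vx 1 + c • vx 2 + d • vx 3 + e • vx 4 = w)
    (hp : (d = 0 ∧ e = 0) ∨ (b = 0 ∧ e = 0) ∨ (b = 0 ∧ c = 0) ∨ (a = 0 ∧ e = 0) ∨
      (a = 0 ∧ c = 0) ∨ (c = 0 ∧ d = 0)) : w ∈ Sur vx := by
  unfold Sur Front
  rcases hp with ⟨rfl, rfl⟩ | ⟨rfl, rfl⟩ | ⟨rfl, rfl⟩ | ⟨rfl, rfl⟩ | ⟨rfl, rfl⟩ | ⟨rfl, rfl⟩
  · refine Or.inl (Or.inl (Or.inl ?_))
    exact tri2_hull ha hb hc (by linarith) (by rw [← hw]; simp)
  · refine Or.inl (Or.inl (Or.inr ?_))
    exact tri2_hull ha hc hd (by linarith) (by rw [← hw]; simp)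
  · refine Or.inl (Or.inr ?_)
    exact tri2_hull ha hd he (by linarith) (by rw [← hw]; simp)
  · refine Or.inr (Or.inl (Or.inl ?_))
    exact tri2_hull hb hc hd (by linarith) (by rw [← hw]; simp [sh])
  · refine Or.inr (Or.inl (Or.inr ?_))
    exact tri2_hull hb hd he (by linarith) (by rw [← hw]; simp [sh])
  · refine Or.inr (Or.inr ?_)
    exact tri2_hull hb he ha (by linarith) (by rw [← hw]; simp [sh]; abel)

/-- Conversely. PROOF. Six equalities, and the two cases `3 X ≤ 2 Y`, `2 Y ≤ 3 X` of `hul` with the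
weights given there: an equality makes a weight zero and the point is in the triangle (`coo`,
`hull3`), or in a side of it. E.g. `012`: `3 X - 4 Y + 6 Z = 0`: in the first case the weight at `v 3`
is zero; in the second case `3 X - 4 Y + 6 Z = 24 (weight at v 3) + 26 (weight at v 4)`, both zero.
`023`: `3 X + 2 Y = 12 w1` in the first case, `12 w1 + 2 w4` in the second. `034`: `X + Y =
5 w1 + w2` and `5 w1`. `123`: `24 - 3 X - 4 Y - 6 Z = 24 w0` and `24 w0 + 14 w4`. `134`: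
`20 - 6 X - Y - 5 Z = 20 w0 + 14 w2` and `20 w0`. `140`: `-4 X + Y + 5 Z = 26 w2 + 20 w3` and
`20 w3`. -/
theorem tri2 (w : E3) (h : w ∈ QQ) (h' : EQ w) : w ∈ Sur vx := by
  obtain ⟨q1, q2, q3, q4, q5, q6⟩ := h
  unfold EQ at h'
  rcases le_total (3 * cX w) (2 * cY w) with hc | hc
  · refine tri2_mem (a := (24 - 3 * cX w - 4 * cY w - 6 * cZ w) / 24)
      (b := (3 * cX w + 2 * cY w) / 12) (c := (2 * cY w - 3 * cX w) / 12)
      (d := (3 * cX w - 4 * cY w + 6 * cZ w) / 24) (e := 0) (by linarith) (by linarith)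
      (by linarith) (by linarith) le_rfl (by ring) ((coo _ _ _ _ _ w).2 ⟨by ring, by ring, by ring⟩)
      ?_
    rcases h' with e | e | e | e | e | e
    · exact Or.inl ⟨by linarith, rfl⟩
    · exact Or.inr (Or.inl ⟨by linarith, rfl⟩)
    · exact Or.inr (Or.inr (Or.inl ⟨by linarith, by linarith⟩))
    · exact Or.inr (Or.inr (Or.inr (Or.inl ⟨by linarith, rfl⟩)))
    · exact Or.inr (Or.inr (Or.inr (Or.inr (Or.inl ⟨by linarith, by linarith⟩))))
    · exact Or.inr (Or.inr (Or.inr (Or.inr (Or.inr ⟨by linarith, by linarith⟩))))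
  · refine tri2_mem (a := (20 - 6 * cX w - cY w - 5 * cZ w) / 20)
      (b := (cX w + cY w) / 5) (c := 0)
      (d := (-4 * cX w + cY w + 5 * cZ w) / 20) (e := (3 * cX w - 2 * cY w) / 10) (by linarith)
      (by linarith) le_rfl (by linarith) (by linarith) (by ring)
      ((coo _ _ _ _ _ w).2 ⟨by ring, by ring, by ring⟩) ?_
    rcases h' with e | e | e | e | e | e
    · exact Or.inl ⟨by linarith, by linarith⟩
    · exact Or.inr (Or.inl ⟨by linarith, by linarith⟩)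
    · exact Or.inr (Or.inr (Or.inl ⟨by linarith, rfl⟩))
    · exact Or.inr (Or.inr (Or.inr (Or.inl ⟨by linarith, by linarith⟩)))
    · exact Or.inr (Or.inr (Or.inr (Or.inr (Or.inl ⟨by linarith, rfl⟩))))
    · exact Or.inr (Or.inr (Or.inr (Or.inr (Or.inr ⟨rfl, by linarith⟩))))
-- END row tri2

-- BEGIN row ext
private theorem ext_aux (i : Fin 5) (a b c : ℝ) (h : ∀ j, j ≠ i →
    a * cX (vx j) + b * cY (vx j) + c * cZ (vx j) <
      a * cX (vx i) + b * cY (vx i) + c * cZ (vx i)) :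
    vx i ∉ convexHull ℝ (vx '' {j | j ≠ i}) := by
  intro hi
  have hlin : IsLinearMap ℝ (fun w : E3 => a * cX w + b * cY w + c * cZ w) := by
    constructor
    · intro v w
      simp only [cX, cY, cZ, PiLp.add_apply]
      ring
    · intro r w
      simp only [cX, cY, cZ, PiLp.smul_apply, smul_eq_mul]
      ring
  have hconv := convex_halfSpace_lt hlin (a * cX (vx i) + b * cY (vx i) + c * cZ (vx i))
  have hsub : vx '' {j | j ≠ i} ⊆ {w : E3 | a * cX w + b * cY w + c * cZ w <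
      a * cX (vx i) + b * cY (vx i) + c * cZ (vx i)} := by
    rintro _ ⟨j, hj, rfl⟩
    exact h j hj
  have h9 : a * cX (vx i) + b * cY (vx i) + c * cZ (vx i) <
      a * cX (vx i) + b * cY (vx i) + c * cZ (vx i) := convexHull_min hsub hconv hi
  exact lt_irrefl _ h9

private theorem ext_val : (cX (vx 0) = 0 ∧ cY (vx 0) = 0 ∧ cZ (vx 0) = 0) ∧
    (cX (vx 1) = 2 ∧ cY (vx 1) = 3 ∧ cZ (vx 1) = 1) ∧
    (cX (vx 2) = -2 ∧ cY (vx 2) = 3 ∧ cZ (vx 2) = 3) ∧
    (cX (vx 3) = 0 ∧ cY (vx 3) = 0 ∧ cZ (vx 3) = 4) ∧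
    (cX (vx 4) = 2 ∧ cY (vx 4) = -2 ∧ cZ (vx 4) = 2) := by
  have h3 : √(3 : ℝ) ≠ 0 := by positivity
  have h5 : √(5 : ℝ) ≠ 0 := by positivity
  refine ⟨⟨?_, ?_, ?_⟩, ⟨?_, ?_, ?_⟩, ⟨?_, ?_, ?_⟩, ⟨?_, ?_, ?_⟩, ?_, ?_, ?_⟩ <;>
    simp [vx, cX, cY, cZ, h3, h5, neg_div]

/-- Each vertex is extreme. PROOF. A linear function in the coordinates that is strictly larger at
`v i` than at the other four vertices (the hull of these is in an open half space,
`convexHull_min`): `- 3 X - 11 Z` (values `0, -17, -27, -44, -28`), `10 X + 8 Y`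
(`0, 44, 4, 0, 4`), `- 3 X + 6 Y` (`0, 12, 24, 0, -18`), `5 X + 2 Y + 11 Z`
(`0, 27, 29, 44, 28`), `9 X - Y` (`0, 15, -21, 0, 20`). -/
theorem ext (i : Fin 5) : vx i ∉ convexHull ℝ (vx '' {j | j ≠ i}) := by
  obtain ⟨⟨a0, b0, c0⟩, ⟨a1, b1, c1⟩, ⟨a2, b2, c2⟩, ⟨a3, b3, c3⟩, a4, b4, c4⟩ := ext_val
  have hc : ∀ j : Fin 5, j = 0 ∨ j = 1 ∨ j = 2 ∨ j = 3 ∨ j = 4 := by decide
  rcases hc i with rfl | rfl | rfl | rfl | rfl
  · refine ext_aux 0 (-3) 0 (-11) fun j hj => ?_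
    rcases hc j with rfl | rfl | rfl | rfl | rfl
    · exact absurd rfl hj
    · rw [a0, b0, c0, a1, b1, c1]; norm_num
    · rw [a0, b0, c0, a2, b2, c2]; norm_num
    · rw [a0, b0, c0, a3, b3, c3]; norm_num
    · rw [a0, b0, c0, a4, b4, c4]; norm_num
  · refine ext_aux 1 10 8 0 fun j hj => ?_
    rcases hc j with rfl | rfl | rfl | rfl | rfl
    · rw [a0, b0, c0, a1, b1, c1]; norm_num
    · exact absurd rfl hj
    · rw [a1, b1, c1, a2, b2, c2]; norm_num
    · rw [a1, b1, c1, a3, b3, c3]; norm_num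
    · rw [a1, b1, c1, a4, b4, c4]; norm_num
  · refine ext_aux 2 (-3) 6 0 fun j hj => ?_
    rcases hc j with rfl | rfl | rfl | rfl | rfl
    · rw [a0, b0, c0, a2, b2, c2]; norm_num
    · rw [a1, b1, c1, a2, b2, c2]; norm_num
    · exact absurd rfl hj
    · rw [a2, b2, c2, a3, b3, c3]; norm_num
    · rw [a2, b2, c2, a4, b4, c4]; norm_num
  · refine ext_aux 3 5 2 11 fun j hj => ?_
    rcases hc j with rfl | rfl | rfl | rfl | rfl
    · rw [a0, b0, c0, a3, b3, c3]; norm_num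
    · rw [a1, b1, c1, a3, b3, c3]; norm_num
    · rw [a2, b2, c2, a3, b3, c3]; norm_num
    · exact absurd rfl hj
    · rw [a3, b3, c3, a4, b4, c4]; norm_num
  · refine ext_aux 4 9 (-1) 0 fun j hj => ?_
    rcases hc j with rfl | rfl | rfl | rfl | rfl
    · rw [a0, b0, c0, a4, b4, c4]; norm_num
    · rw [a1, b1, c1, a4, b4, c4]; norm_num
    · rw [a2, b2, c2, a4, b4, c4]; norm_num
    · rw [a3, b3, c3, a4, b4, c4]; norm_num
    · exact absurd rfl hj
-- END row ext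

-- BEGIN row inn
/-- The interior is not empty. PROOF. By `hul` and an open set of strict inequalities: the point
`!₂[0, √3, 2 * √5]` has the coordinates `0, 1, 2`. (`3X-4Y+6Z = 8`, `3X+2Y = 2`, `X+Y = 1`,
`3X+4Y+6Z = 16 < 24`, `6X+Y+5Z = 11 < 20`, `-4X+Y+5Z = 11`.) -/
theorem inn : (interior (convexHull ℝ (range vx))).Nonempty := by
  rw [hul]
  have hX : Continuous cX := by unfold cX; fun_prop
  have hY : Continuous cY := by unfold cY; fun_prop
  have hZ : Continuous cZ := by unfold cZ; fun_prop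
  have o1 : IsOpen {w : E3 | 0 < 3 * cX w - 4 * cY w + 6 * cZ w} :=
    isOpen_lt (by fun_prop) (by fun_prop)
  have o2 : IsOpen {w : E3 | 0 < 3 * cX w + 2 * cY w} := isOpen_lt (by fun_prop) (by fun_prop)
  have o3 : IsOpen {w : E3 | 0 < cX w + cY w} := isOpen_lt (by fun_prop) (by fun_prop)
  have o4 : IsOpen {w : E3 | 3 * cX w + 4 * cY w + 6 * cZ w < 24} :=
    isOpen_lt (by fun_prop) (by fun_prop)
  have o5 : IsOpen {w : E3 | 6 * cX w + cY w + 5 * cZ w < 20} :=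
    isOpen_lt (by fun_prop) (by fun_prop)
  have o6 : IsOpen {w : E3 | 0 < -4 * cX w + cY w + 5 * cZ w} :=
    isOpen_lt (by fun_prop) (by fun_prop)
  have h3 : (√3 : ℝ) ≠ 0 := by positivity
  have h5 : (√5 : ℝ) ≠ 0 := by positivity
  have x1 : cX (!₂[0, √3, 2 * √5] : E3) = 0 := by simp [cX]
  have y1 : cY (!₂[0, √3, 2 * √5] : E3) = 1 := by simp [cY]
  have z1 : cZ (!₂[0, √3, 2 * √5] : E3) = 2 := by simp [cZ]
  refine ⟨!₂[0, √3, 2 * √5], mem_interior.2
    ⟨_, ?_, (((((o1.inter o2).inter o3).inter o4).inter o5).inter o6), ?_⟩⟩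
  · rintro w ⟨⟨⟨⟨⟨h1, h2⟩, h3⟩, h4⟩, h5⟩, h6⟩
    exact ⟨le_of_lt h1, le_of_lt h2, le_of_lt h3, le_of_lt h4, le_of_lt h5, le_of_lt h6⟩
  · refine ⟨⟨⟨⟨⟨?_, ?_⟩, ?_⟩, ?_⟩, ?_⟩, ?_⟩
    · show (0 : ℝ) < 3 * cX _ - 4 * cY _ + 6 * cZ _
      rw [x1, y1, z1]; norm_num
    · show (0 : ℝ) < 3 * cX _ + 2 * cY _
      rw [x1, y1]; norm_num
    · show (0 : ℝ) < cX _ + cY _
      rw [x1, y1]; norm_num
    · show 3 * cX _ + 4 * cY _ + 6 * cZ _ < (24 : ℝ)
      rw [x1, y1, z1]; norm_num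
    · show 6 * cX _ + cY _ + 5 * cZ _ < (20 : ℝ)
      rw [x1, y1, z1]; norm_num
    · show (0 : ℝ) < -4 * cX _ + cY _ + 5 * cZ _
      rw [x1, y1, z1]; norm_num
-- END row inn

-- BEGIN row ide
private def ide_N : Fin 5 → Fin 5 → ℕ :=
  ![![0, 36, 76, 80, 36], ![36, 0, 36, 76, 80], ![76, 36, 0, 36, 96], ![80, 76, 36, 0, 36],
    ![36, 80, 96, 36, 0]]

private theorem ide_cast (i j : Fin 5) : NN i j = (ide_N i j : ℝ) := by
  fin_cases i <;> fin_cases j <;> simp [NN, ide_N]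

private theorem ide_d (w u : E3) :
    dist w u ^ 2 = (w 0 - u 0) ^ 2 + (w 1 - u 1) ^ 2 + (w 2 - u 2) ^ 2 := by
  rw [EuclideanSpace.dist_eq, Real.sq_sqrt (Finset.sum_nonneg fun i _ => sq_nonneg _),
    Fin.sum_univ_three]
  simp [Real.dist_eq, sq_abs]

/-- Only the identity. PROOF. For each `i` there is `σ i` with `g (vx i) = vx (σ i)`, and
`NN (σ i) (σ j) = NN i j` (`vnum`, `g.dist_eq`); `NN` decides `σ i = i`: `24` is the only pair with
`96`, `2` has a partner with `76` and `4` has none, `NN (σ 0) 2 = 76` gives `σ 0 = 0`,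
`NN (σ 1) 4 = 80` gives `σ 1 = 1`, and `NN (σ 3) 0 = 80`, so `σ 3 = 3` (case check over the
five values). So `g` fixes `vx 0, vx 1, vx 2, vx 3`, which are affinely independent (volume), and an
isometry of `E3` is affine (`IsometryEquiv.toRealAffineIsometryEquiv`); or directly: the distances of
`g w` to the four points are those of `w`, so `inner (g w) (vx i) = inner w (vx i)` for `i = 1, 2, 3`
(with `vx 0 = 0`), hence the coordinates `X, Y, Z` are equal. -/
theorem ide (g : E3 ≃ᵢ E3) (h : g '' range vx = range vx) : g = IsometryEquiv.refl E3 := by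
  have h1 : ∀ i, ∃ j, vx j = g (vx i) := by
    intro i
    have h2 : g (vx i) ∈ g '' range vx := mem_image_of_mem g (mem_range_self i)
    rw [h] at h2
    exact h2
  choose σ hσ using h1
  have hN : ∀ i j, ide_N (σ i) (σ j) = ide_N i j := by
    intro i j
    have h2 := vnum (σ i) (σ j)
    rw [hσ, hσ, g.dist_eq, vnum, ide_cast, ide_cast] at h2
    exact_mod_cast h2.symm
  have a1 : ∀ a b : Fin 5, ide_N a b = 96 → (a = 2 ∧ b = 4) ∨ (a = 4 ∧ b = 2) := by decide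
  have a2 : ∀ b : Fin 5, ide_N 4 b ≠ 76 := by decide
  have a3 : ∀ b : Fin 5, ide_N 2 b = 76 → b = 0 := by decide
  have a4 : ∀ b : Fin 5, ide_N b 4 = 80 → b = 1 := by decide
  have a5 : ∀ b : Fin 5, ide_N b 0 = 80 → b = 3 := by decide
  have s2 : σ 2 = 2 ∧ σ 4 = 4 := by
    rcases a1 (σ 2) (σ 4) (hN 2 4) with h2 | h2
    · exact h2
    · exfalso
      have h3 : ide_N (σ 2) (σ 0) = 76 := hN 2 0
      rw [h2.1] at h3
      exact a2 _ h3
  have s0 : σ 0 = 0 := by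
    have h3 : ide_N (σ 2) (σ 0) = 76 := hN 2 0
    rw [s2.1] at h3
    exact a3 _ h3
  have s1 : σ 1 = 1 := by
    have h3 : ide_N (σ 1) (σ 4) = 80 := hN 1 4
    rw [s2.2] at h3
    exact a4 _ h3
  have s3 : σ 3 = 3 := by
    have h3 : ide_N (σ 3) (σ 0) = 80 := hN 3 0
    rw [s0] at h3
    exact a5 _ h3
  have f0 : g (vx 0) = vx 0 := by rw [← hσ, s0]
  have f1 : g (vx 1) = vx 1 := by rw [← hσ, s1]
  have f2 : g (vx 2) = vx 2 := by rw [← hσ, s2.1]
  have f3 : g (vx 3) = vx 3 := by rw [← hσ, s3]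
  have r3 : (0 : ℝ) < √3 := Real.sqrt_pos.2 (by norm_num)
  have r5 : (0 : ℝ) < √5 := Real.sqrt_pos.2 (by norm_num)
  ext w i
  have d0 : dist (g w) (vx 0) ^ 2 = dist w (vx 0) ^ 2 := by
    rw [← g.dist_eq w (vx 0), f0]
  have d1 : dist (g w) (vx 1) ^ 2 = dist w (vx 1) ^ 2 := by
    rw [← g.dist_eq w (vx 1), f1]
  have d2 : dist (g w) (vx 2) ^ 2 = dist w (vx 2) ^ 2 := by
    rw [← g.dist_eq w (vx 2), f2]
  have d3 : dist (g w) (vx 3) ^ 2 = dist w (vx 3) ^ 2 := by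
    rw [← g.dist_eq w (vx 3), f3]
  rw [ide_d, ide_d] at d0 d1 d2 d3
  simp [vx] at d0 d1 d2 d3
  have e2 : g w 2 = w 2 := by
    have h4 : √5 * (g w 2 - w 2) = 0 := by linarith
    rcases mul_eq_zero.1 h4 with h5 | h5
    · exact absurd h5 r5.ne'
    · linarith
  rw [e2] at d0 d1 d2 d3
  have e1 : g w 1 = w 1 := by
    have h4 : √3 * (g w 1 - w 1) = 0 := by linarith
    rcases mul_eq_zero.1 h4 with h5 | h5
    · exact absurd h5 r3.ne'
    · linarith
  rw [e1] at d0 d1 d2 d3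
  have e0 : g w 0 = w 0 := by linarith
  change (g w) i = w i
  fin_cases i
  · exact e0
  · exact e1
  · exact e2
-- END row ide

-- BEGIN row its
private theorem its_f : ∃ f : E3 →ₗ[ℝ] ℝ, f (vx 0) = 0 ∧ f (vx 1) = 12 ∧ f (vx 2) = 0 ∧
    f (vx 3) = 0 ∧ f (vx 4) = 2 := by
  have h3 : √3 ≠ (0 : ℝ) := by positivity
  let f : E3 →ₗ[ℝ] ℝ :=
    { toFun := fun w => 3 * w 0 + 2 * (w 1 / √3)
      map_add' := fun x y => by
        simp only [PiLp.add_apply]
        ring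
      map_smul' := fun c x => by
        simp only [PiLp.smul_apply, smul_eq_mul, RingHom.id_apply]
        ring }
  have hf : ∀ w, f w = 3 * w 0 + 2 * (w 1 / √3) := fun w => rfl
  refine ⟨f, ?_, ?_, ?_, ?_, ?_⟩
  all_goals
    rw [hf]
    simp only [vx, PiLp.toLp_apply, Matrix.cons_val]
    field_simp
    try norm_num

/-- The face `023` meets the other five faces in its sides. PROOF. The function `3 X + 2 Y` is `0` at
`v 0, v 2, v 3`, `12` at `v 1` and `2` at `v 4`; `hull3` for both triangles and `coo`: the weights at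
`v 1` and `v 4` are zero. Closed: finite hulls (`(Set.toFinite _).isClosed_convexHull` or
`IsCompact`). The surface: set algebra. -/
theorem its : Tri vx 0 2 3 ∩ Rest vx ⊆
      segment ℝ (vx 0) (vx 2) ∪ segment ℝ (vx 0) (vx 3) ∪ segment ℝ (vx 2) (vx 3) ∧
    IsClosed (Rest vx) ∧ Sur vx = Tri vx 0 2 3 ∪ Rest vx ∧
    vx 1 ∉ Tri vx 0 2 3 ∧ vx 4 ∉ Tri vx 0 2 3 := by
  obtain ⟨f, f0, f1, f2, f3, f4⟩ := its_f
  have hz : ∀ w ∈ Tri vx 0 2 3, f w = 0 := by
    intro w hw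
    obtain ⟨a, b, c, -, -, -, -, rfl⟩ := (hull3 _ _ _ _).1 hw
    simp [f0, f2, f3]
  refine ⟨?_, ?_, ?_, ?_, ?_⟩
  · rintro w ⟨hw, hw'⟩
    have h0 := hz w hw
    rcases hw' with (h | h) | ((h | h) | h)
    · obtain ⟨a, b, c, ha, hb, hc, hs, rfl⟩ := (hull3 _ _ _ _).1 h
      simp only [map_add, map_smul, smul_eq_mul, f0, f1, f2] at h0
      obtain rfl : b = 0 := by linarith
      exact Or.inl (Or.inl ⟨a, c, ha, hc, by linarith, by rw [zero_smul, add_zero]⟩)
    · obtain ⟨a, b, c, ha, hb, hc, hs, rfl⟩ := (hull3 _ _ _ _).1 h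
      simp only [map_add, map_smul, smul_eq_mul, f0, f3, f4] at h0
      obtain rfl : c = 0 := by linarith
      exact Or.inl (Or.inr ⟨a, b, ha, hb, by linarith, by rw [zero_smul, add_zero]⟩)
    · obtain ⟨a, b, c, ha, hb, hc, hs, rfl⟩ := (hull3 _ _ _ _).1 h
      have e1 : sh vx 0 = vx 1 := rfl
      have e2 : sh vx 1 = vx 2 := rfl
      have e3 : sh vx 2 = vx 3 := rfl
      rw [e1, e2, e3] at h0 ⊢
      simp only [map_add, map_smul, smul_eq_mul, f1, f2, f3] at h0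
      obtain rfl : a = 0 := by linarith
      exact Or.inr ⟨b, c, hb, hc, by linarith, by rw [zero_smul, zero_add]⟩
    · obtain ⟨a, b, c, ha, hb, hc, hs, rfl⟩ := (hull3 _ _ _ _).1 h
      have e1 : sh vx 0 = vx 1 := rfl
      have e2 : sh vx 2 = vx 3 := rfl
      have e3 : sh vx 3 = vx 4 := rfl
      rw [e1, e2, e3] at h0 ⊢
      simp only [map_add, map_smul, smul_eq_mul, f1, f3, f4] at h0
      obtain rfl : a = 0 := by linarith
      obtain rfl : c = 0 := by linarith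
      obtain rfl : b = 1 := by linarith
      rw [zero_smul, zero_smul, one_smul, zero_add, add_zero]
      exact Or.inr (right_mem_segment ℝ _ _)
    · obtain ⟨a, b, c, ha, hb, hc, hs, rfl⟩ := (hull3 _ _ _ _).1 h
      have e1 : sh vx 0 = vx 1 := rfl
      have e2 : sh vx 3 = vx 4 := rfl
      have e3 : sh vx 4 = vx 0 := rfl
      rw [e1, e2, e3] at h0 ⊢
      simp only [map_add, map_smul, smul_eq_mul, f1, f4, f0] at h0
      obtain rfl : a = 0 := by linarith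
      obtain rfl : b = 0 := by linarith
      obtain rfl : c = 1 := by linarith
      rw [zero_smul, zero_smul, one_smul, zero_add, zero_add]
      exact Or.inl (Or.inl (left_mem_segment ℝ _ _))
  · have hc : ∀ (v : Fin 5 → E3) (i j k : Fin 5), IsClosed (Tri v i j k) := fun v i j k =>
      (Set.toFinite _).isClosed_convexHull ℝ
    exact ((hc _ _ _ _).union (hc _ _ _ _)).union (((hc _ _ _ _).union (hc _ _ _ _)).union (hc _ _ _ _))
  · ext w
    simp only [Sur, Rest, Front, mem_union]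
    tauto
  · intro h
    have := hz _ h
    rw [f1] at this
    norm_num at this
  · intro h
    have := hz _ h
    rw [f4] at this
    norm_num at this
-- END row its

-- BEGIN row num1
private theorem num1_d (a b c a' b' c' : ℝ) :
    dist (!₂[a, b * √3, c * √5] : E3) !₂[a', b' * √3, c' * √5] ^ 2 =
      (a - a') ^ 2 + 3 * (b - b') ^ 2 + 5 * (c - c') ^ 2 := by
  have h3 : √3 ^ 2 = 3 := Real.sq_sqrt (by norm_num)
  have h5 : √5 ^ 2 = 5 := Real.sq_sqrt (by norm_num)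
  rw [EuclideanSpace.dist_eq, Real.sq_sqrt (Finset.sum_nonneg fun i _ => sq_nonneg _),
    Fin.sum_univ_three]
  simp only [Real.dist_eq, sq_abs]
  show (a - a') ^ 2 + (b * √3 - b' * √3) ^ 2 + (c * √5 - c' * √5) ^ 2 = _
  rw [← sub_mul, ← sub_mul, mul_pow, mul_pow, h3, h5]
  ring

private theorem num1_lo {y z : E3} {r : ℝ} (hr : 0 ≤ r) (h : r ^ 2 ≤ dist y z ^ 2) :
    r ≤ dist y z :=
  (sq_le_sq₀ hr dist_nonneg).1 h

private theorem num1_up {y z : E3} {r : ℝ} (hr : 0 ≤ r) (h : dist y z ^ 2 ≤ r ^ 2) :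
    dist y z ≤ r :=
  (sq_le_sq₀ dist_nonneg hr).1 h

/-- Numbers for `v 1`. PROOF. `m1 = v 2 / 2`. `|x0 m1|² = 2.04`, `|m1 v1|² = 17`. For a point `y` of
the line `v 0, v 3`: `|x0 y|² ≥ 2.79`, `|y v1|² ≥ 31` (only the first two coordinates). For
`y = (1 - r) • v 3 + r • v 2`, `0 ≤ r ≤ 1`: `|x0 y|² = 36 r² - 39.6 r + 24.84 ≥ 13.9`,
`|y v1|² = 36 r² - 76 r + 76 ≥ 36`. `|x0 v0|² = 20.84`, `|x0 v2|² = 21.24`, `|v0 v1| = |v2 v1| = 6`.
(`EuclideanSpace.dist_eq`, `Fin.sum_univ_three`, `Real.le_sqrt`.) -/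
theorem num1 : m1 ∈ segment ℝ (vx 0) (vx 2) ∧ dist x0 m1 + dist m1 (vx 1) ≤ 28 / 5 ∧
    (∀ y ∈ segment ℝ (vx 0) (vx 3) ∪ segment ℝ (vx 2) (vx 3), 7 ≤ dist x0 y + dist y (vx 1)) ∧
    7 ≤ dist x0 (vx 0) + dist (vx 0) (vx 1) ∧ 7 ≤ dist x0 (vx 2) + dist (vx 2) (vx 1) := by
  have e0 : vx 0 = !₂[0, 0 * √3, 0 * √5] := by
    ext i
    fin_cases i <;> simp [vx]
  have e1 : vx 1 = !₂[2, 3 * √3, 1 * √5] := by
    ext i
    fin_cases i <;> simp [vx]
  have e2 : vx 2 = !₂[-2, 3 * √3, 3 * √5] := rfl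
  have e3 : vx 3 = !₂[0, 0 * √3, 4 * √5] := by
    ext i
    fin_cases i <;> simp [vx]
  have ex : x0 = !₂[-3 / 5, 9 / 10 * √3, 19 / 10 * √5] := rfl
  have em : m1 = !₂[-1, 3 / 2 * √3, 3 / 2 * √5] := rfl
  refine ⟨⟨1 / 2, 1 / 2, by norm_num, by norm_num, by norm_num, ?_⟩, ?_, ?_, ?_, ?_⟩
  · rw [e0, e2, em]
    ext i
    fin_cases i <;> simp <;> ring
  · have h1 : dist x0 m1 ≤ 29 / 20 := by
      refine num1_up (by norm_num) ?_
      rw [ex, em, num1_d]
      norm_num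
    have h2 : dist m1 (vx 1) ≤ 83 / 20 := by
      refine num1_up (by norm_num) ?_
      rw [em, e1, num1_d]
      norm_num
    linarith
  · rintro y (⟨a, b, ha, hb, hab, rfl⟩ | ⟨a, b, ha, hb, hab, rfl⟩)
    · have ey : a • vx 0 + b • vx 3 = !₂[0, 0 * √3, (4 * b) * √5] := by
        rw [e0, e3]
        ext i
        fin_cases i <;> simp <;> ring
      have h1 : 8 / 5 ≤ dist x0 (a • vx 0 + b • vx 3) := by
        refine num1_lo (by norm_num) ?_
        rw [ey, ex, num1_d]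
        nlinarith [sq_nonneg (19 / 10 - 4 * b)]
      have h2 : 11 / 2 ≤ dist (a • vx 0 + b • vx 3) (vx 1) := by
        refine num1_lo (by norm_num) ?_
        rw [ey, e1, num1_d]
        nlinarith [sq_nonneg (4 * b - 1)]
      linarith
    · have ey : a • vx 2 + b • vx 3 = !₂[-2 * a, (3 * a) * √3, (3 * a + 4 * b) * √5] := by
        rw [e2, e3]
        ext i
        fin_cases i <;> simp <;> ring
      have hb' : b = 1 - a := by linarith
      have h1 : 37 / 10 ≤ dist x0 (a • vx 2 + b • vx 3) := by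
        refine num1_lo (by norm_num) ?_
        rw [ey, ex, num1_d, hb']
        nlinarith [sq_nonneg (a - 11 / 20)]
      have h2 : 6 ≤ dist (a • vx 2 + b • vx 3) (vx 1) := by
        refine num1_lo (by norm_num) ?_
        rw [ey, e1, num1_d, hb']
        nlinarith [mul_nonneg hb (sub_nonneg.2 (by linarith : a ≤ 1)), mul_nonneg ha hb]
      linarith
  · have h1 : 4 ≤ dist x0 (vx 0) := by
      refine num1_lo (by norm_num) ?_
      rw [ex, e0, num1_d]
      norm_num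
    have h2 : 6 ≤ dist (vx 0) (vx 1) := by
      refine num1_lo (by norm_num) ?_
      rw [e0, e1, num1_d]
      norm_num
    linarith
  · have h1 : 4 ≤ dist x0 (vx 2) := by
      refine num1_lo (by norm_num) ?_
      rw [ex, e2, num1_d]
      norm_num
    have h2 : 6 ≤ dist (vx 2) (vx 1) := by
      refine num1_lo (by norm_num) ?_
      rw [e2, e1, num1_d]
      norm_num
    linarith
-- END row num1

-- BEGIN row num4
private theorem num4_d (a b : E3) : dist a b ^ 2 =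
    (a 0 - b 0) ^ 2 + (a 1 - b 1) ^ 2 + (a 2 - b 2) ^ 2 := by
  rw [EuclideanSpace.dist_eq, Real.sq_sqrt (by positivity)]
  simp [Fin.sum_univ_three, Real.dist_eq, sq_abs]

private theorem num4_lo {a b c d : E3} {s t : ℝ} (h1 : s ^ 2 ≤ dist a b ^ 2)
    (h2 : t ^ 2 ≤ dist c d ^ 2) (h : 7 ≤ s + t) : 7 ≤ dist a b + dist c d := by
  have e1 : s ≤ dist a b := (abs_le_of_sq_le_sq' h1 dist_nonneg).2
  have e2 : t ≤ dist c d := (abs_le_of_sq_le_sq' h2 dist_nonneg).2
  linarith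

private theorem num4_s3 (p q : ℝ) : (p * √3 - q * √3) ^ 2 = 3 * (p - q) ^ 2 := by
  have q3 : (√3 : ℝ) ^ 2 = 3 := Real.sq_sqrt (by norm_num)
  rw [← sub_mul, mul_pow, q3]; ring

private theorem num4_s5 (p q : ℝ) : (p * √5 - q * √5) ^ 2 = 5 * (p - q) ^ 2 := by
  have q5 : (√5 : ℝ) ^ 2 = 5 := Real.sq_sqrt (by norm_num)
  rw [← sub_mul, mul_pow, q5]; ring

private theorem num4_c {a b : E3} {p q r s t u : ℝ} (h0 : a 0 = p) (h1 : a 1 = q * √3)
    (h2 : a 2 = r * √5) (k0 : b 0 = s) (k1 : b 1 = t * √3) (k2 : b 2 = u * √5) :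
    dist a b ^ 2 = (p - s) ^ 2 + 3 * (q - t) ^ 2 + 5 * (r - u) ^ 2 := by
  rw [num4_d, h0, h1, h2, k0, k1, k2, num4_s3, num4_s5]

private theorem num4_x0 : x0 0 = -3 / 5 ∧ x0 1 = 9 / 10 * √3 ∧ x0 2 = 19 / 10 * √5 := by
  simp [x0]

private theorem num4_v4 : (vx 4) 0 = 2 ∧ (vx 4) 1 = -2 * √3 ∧ (vx 4) 2 = 2 * √5 := by
  simp [vx]

private theorem num4_v0 : (vx 0) 0 = 0 ∧ (vx 0) 1 = 0 * √3 ∧ (vx 0) 2 = 0 * √5 := by
  simp [vx]

private theorem num4_v2 : (vx 2) 0 = -2 ∧ (vx 2) 1 = 3 * √3 ∧ (vx 2) 2 = 3 * √5 := by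
  simp [vx]

private theorem num4_v3 : (vx 3) 0 = 0 ∧ (vx 3) 1 = 0 * √3 ∧ (vx 3) 2 = 4 * √5 := by
  simp [vx]

private theorem num4_m4 : m4 0 = 0 ∧ m4 1 = 0 * √3 ∧ m4 2 = 2 * √5 := by
  simp [m4]

private theorem num4_seg (a b : ℝ) {u v : E3} {p q r s t w : ℝ} (h0 : u 0 = p)
    (h1 : u 1 = q * √3) (h2 : u 2 = r * √5) (k0 : v 0 = s) (k1 : v 1 = t * √3)
    (k2 : v 2 = w * √5) : (a • u + b • v) 0 = a * p + b * s ∧
      (a • u + b • v) 1 = (a * q + b * t) * √3 ∧ (a • u + b • v) 2 = (a * r + b * w) * √5 := by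
  refine ⟨?_, ?_, ?_⟩
  · change a * u 0 + b * v 0 = _
    rw [h0, k0]
  · change a * u 1 + b * v 1 = _
    rw [h1, k1]; ring
  · change a * u 2 + b * v 2 = _
    rw [h2, k2]; ring

private theorem num4_mem : m4 ∈ segment ℝ (vx 0) (vx 3) := by
  refine ⟨1 / 2, 1 / 2, by norm_num, by norm_num, by norm_num, ?_⟩
  obtain ⟨e0, e1, e2⟩ := num4_seg (1 / 2) (1 / 2) num4_v0.1 num4_v0.2.1 num4_v0.2.2
    num4_v3.1 num4_v3.2.1 num4_v3.2.2
  obtain ⟨f0, f1, f2⟩ := num4_m4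
  ext i
  fin_cases i
  · refine e0.trans (Eq.trans ?_ f0.symm)
    norm_num
  · refine e1.trans (Eq.trans ?_ f1.symm)
    norm_num
  · refine e2.trans (Eq.trans ?_ f2.symm)
    norm_num

private theorem num4_hi : dist x0 m4 + dist m4 (vx 4) ≤ 29 / 5 := by
  have h1 : dist x0 m4 ≤ 9 / 5 := by
    refine (abs_le_of_sq_le_sq' ?_ (by norm_num)).2
    rw [num4_c num4_x0.1 num4_x0.2.1 num4_x0.2.2 num4_m4.1 num4_m4.2.1 num4_m4.2.2]
    norm_num
  have h2 : dist m4 (vx 4) ≤ 4 := by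
    refine (abs_le_of_sq_le_sq' ?_ (by norm_num)).2
    rw [num4_c num4_m4.1 num4_m4.2.1 num4_m4.2.2 num4_v4.1 num4_v4.2.1 num4_v4.2.2]
    norm_num
  linarith

private theorem num4_g1 {y : E3} (hy : y ∈ segment ℝ (vx 0) (vx 2)) :
    7 ≤ dist x0 y + dist y (vx 4) := by
  obtain ⟨a, b, ha, hb, hab, rfl⟩ := hy
  obtain ⟨e0, e1, e2⟩ := num4_seg a b num4_v0.1 num4_v0.2.1 num4_v0.2.2
    num4_v2.1 num4_v2.2.1 num4_v2.2.2
  refine num4_lo (s := 13 / 10) (t := 57 / 10) ?_ ?_ (by norm_num)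
  · rw [num4_c num4_x0.1 num4_x0.2.1 num4_x0.2.2 e0 e1 e2]
    nlinarith [sq_nonneg (b - 1 / 2)]
  · rw [num4_c e0 e1 e2 num4_v4.1 num4_v4.2.1 num4_v4.2.2]
    nlinarith [sq_nonneg (b - 2 / 19)]

private theorem num4_g2 {y : E3} (hy : y ∈ segment ℝ (vx 2) (vx 3)) :
    7 ≤ dist x0 y + dist y (vx 4) := by
  obtain ⟨a, b, ha, hb, hab, rfl⟩ := hy
  obtain ⟨e0, e1, e2⟩ := num4_seg a b num4_v2.1 num4_v2.2.1 num4_v2.2.2
    num4_v3.1 num4_v3.2.1 num4_v3.2.2
  obtain rfl : b = 1 - a := by linarith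
  refine num4_lo (s := 2) (t := 5) ?_ ?_ (by norm_num)
  · rw [num4_c num4_x0.1 num4_x0.2.1 num4_x0.2.2 e0 e1 e2]
    nlinarith [sq_nonneg (a - 11 / 20)]
  · rw [num4_c e0 e1 e2 num4_v4.1 num4_v4.2.1 num4_v4.2.2]
    nlinarith [sq_nonneg a]

/-- Numbers for `v 4`. PROOF. `m4 = v 3 / 2`. `|x0 m4|² = 2.84`, `|m4 v4|² = 16`. For
`y = r • v 2`, `0 ≤ r ≤ 1`: `|x0 y|² = 76 r² - 75.6 r + 20.84 ≥ 2.03`,
`|y v4|² = 76 r² - 16 r + 36 ≥ 35.1`. For `y = (1 - r) • v 3 + r • v 2`: `|x0 y|² ≥ 13.9` as above,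
`|y v4|² = 36 r² + 24 r + 36 ≥ 36`. `|x0 v0|² = 20.84`, `|x0 v3|² = 24.84`,
`|v0 v4| = |v3 v4| = 6`. -/
theorem num4 : m4 ∈ segment ℝ (vx 0) (vx 3) ∧ dist x0 m4 + dist m4 (vx 4) ≤ 29 / 5 ∧
    (∀ y ∈ segment ℝ (vx 0) (vx 2) ∪ segment ℝ (vx 2) (vx 3), 7 ≤ dist x0 y + dist y (vx 4)) ∧
    7 ≤ dist x0 (vx 0) + dist (vx 0) (vx 4) ∧ 7 ≤ dist x0 (vx 3) + dist (vx 3) (vx 4) := by
  refine ⟨num4_mem, num4_hi, ?_, ?_, ?_⟩
  · rintro y (hy | hy)
    · exact num4_g1 hy
    · exact num4_g2 hy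
  · refine num4_lo (s := 4) (t := 6) ?_ ?_ (by norm_num)
    · rw [num4_c num4_x0.1 num4_x0.2.1 num4_x0.2.2 num4_v0.1 num4_v0.2.1 num4_v0.2.2]
      norm_num
    · rw [num4_c num4_v0.1 num4_v0.2.1 num4_v0.2.2 num4_v4.1 num4_v4.2.1 num4_v4.2.2]
      norm_num
  · refine num4_lo (s := 4) (t := 6) ?_ ?_ (by norm_num)
    · rw [num4_c num4_x0.1 num4_x0.2.1 num4_x0.2.2 num4_v3.1 num4_v3.2.1 num4_v3.2.2]
      norm_num
    · rw [num4_c num4_v3.1 num4_v3.2.1 num4_v3.2.2 num4_v4.1 num4_v4.2.1 num4_v4.2.2]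
      norm_num
-- END row num4

-- BEGIN row x0m
/-- PROOF. `x0 = (9 / 20) • v 0 + (6 / 20) • v 2 + (5 / 20) • v 3`, `hull3`. -/
theorem x0m : x0 ∈ Tri vx 0 2 3 := by
  unfold Tri
  rw [hull3]
  refine ⟨9 / 20, 6 / 20, 5 / 20, by norm_num, by norm_num, by norm_num, by norm_num, ?_⟩
  ext i
  fin_cases i
  · simp [vx, x0]; norm_num
  · simp [vx, x0]; ring
  · simp [vx, x0]; ring
-- END row x0m

-- BEGIN row str
/-- In the face `023` the straight segment is the only shortest path. PROOF. `q = v i`: the segment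
`x, v i` is in `Tri vx 0 2 3 ⊆ Front vx` (convexity), `segment (v i) (v i) = {v i}`. `len_ge`
(Tet.lean) gives `dist x (v i) ≤ len`; if `len n c = dist x (v i)`: if `n = 0` there is no `j`; else
`thru` with `i := 0`, `z := c 0 = x`. -/
theorem str {x : E3} (hx : x ∈ Tri vx 0 2 3) (i : Fin 5) (hi : i = 0 ∨ i = 2 ∨ i = 3) :
    OneShortest vx x (vx i) (dist x (vx i)) := by
  have hv : vx i ∈ Tri vx 0 2 3 := by
    rcases hi with rfl | rfl | rfl
    · exact subset_convexHull ℝ _ (by simp)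
    · exact subset_convexHull ℝ _ (by simp)
    · exact subset_convexHull ℝ _ (by simp)
  have hs : segment ℝ x (vx i) ⊆ Tri vx 0 2 3 :=
    (convex_convexHull ℝ _).segment_subset hx hv
  refine ⟨vx i, ?_, by rw [dist_self, add_zero], fun n c h => ?_⟩
  · rw [segment_same]
    intro w hw
    rcases hw with hw | hw
    · exact Or.inl (Or.inr (hs hw))
    · rw [mem_singleton_iff] at hw
      rw [hw]
      exact Or.inl (Or.inr hv)
  · refine ⟨len_ge _ _ _ n c h, fun he j hj => ?_⟩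
    have h0 : 0 < n := by omega
    have hz : x ∈ segment ℝ (c 0) (c (0 + 1)) := by
      rw [h.1]
      exact left_mem_segment ℝ _ _
    have h2 := (thru h h0 hz).2 (by rw [dist_self, zero_add]; exact he) j hj
    rw [segment_same] at h2
    intro w hw
    rcases h2 hw with h3 | h3
    · rw [mem_singleton_iff] at h3
      rw [h3]
      exact Or.inl (left_mem_segment ℝ _ _)
    · exact Or.inl h3
-- END row str

-- BEGIN row side1
private theorem side1_set {α : Type*} (a b c : α) : ({c, a, b} : Set α) = {a, b, c} := by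
  rw [Set.insert_comm c a, Set.pair_comm c b]

/-- The vertex `v 1`. PROOF. `leg` with `R = Rest vx`, `A, B, C, D = v 3, v 0, v 2, v 1`,
`a, b, c, d = px 3, px 0, px 2, px 1`, `m = m1`; `hcr` from `opp` (Tet.lean) and `popp` (`.symm`);
`e1 .. e5` from `dev.1`; `hI` from `its` and `num1` (all distances of `x` and of `x0` to a point differ
by less than `1 / 10`); the hulls of `{v 3, v 0, v 2}` and `{v 0, v 2, v 3}` are equal
(`Set.insert_comm`). The path `x, q, v 1` is in `Tri vx 0 2 3 ∪ Tri vx 0 1 2`. -/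
theorem side1 {x : E3} (h : dist x x0 < 1 / 10) {α β γ : ℝ} (h0 : 0 ≤ α) (h1 : 0 ≤ β)
    (h2 : 0 ≤ γ) (hs : α + β + γ = 1) (hx : α • vx 3 + β • vx 0 + γ • vx 2 = x) :
    OneShortest vx x (vx 1) (dist (α • px 3 + β • px 0 + γ • px 2) (px 1)) ∧
      segment ℝ (α • px 3 + β • px 0 + γ • px 2) (px 1) ⊆ Pent px := by
  obtain ⟨n1, n2, n3, n4, n5⟩ := num1
  obtain ⟨i1, i2, i3, i4, -⟩ := its
  have hne : px 0 ≠ px 2 := by
    intro he
    have h3 := pnum.2.2.2.2.2.1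
    rw [he, dist_self] at h3
    norm_num at h3
  obtain ⟨s, t, hcr⟩ := opp hne popp.1.symm
  have hT : convexHull ℝ {vx 3, vx 0, vx 2} = Tri vx 0 2 3 := by
    unfold Tri
    rw [side1_set]
  have hxm : dist x m1 < 1 / 10 + dist x0 m1 := by
    have h3 := dist_triangle x x0 m1
    linarith
  have hxy : ∀ y, dist x0 y < 1 / 10 + dist x y := by
    intro y
    have h3 := dist_triangle x0 x y
    rw [dist_comm x0 x] at h3
    linarith
  have hI : convexHull ℝ {vx 3, vx 0, vx 2} ∩ Rest vx ⊆ segment ℝ (vx 0) (vx 2) ∪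
      {y | dist x m1 + dist m1 (vx 1) < dist x y + dist y (vx 1)} := by
    intro y hy
    rw [hT] at hy
    have h3 : ∀ y ∈ segment ℝ (vx 0) (vx 3) ∪ segment ℝ (vx 2) (vx 3),
        dist x m1 + dist m1 (vx 1) < dist x y + dist y (vx 1) := by
      intro y hy
      have h4 := n3 y hy
      have h5 := hxy y
      linarith
    rcases i1 hy with (h4 | h4) | h4
    · exact Or.inl h4
    · exact Or.inr (h3 y (Or.inl h4))
    · exact Or.inr (h3 y (Or.inr h4))
  obtain ⟨q, hq, hqd, hp, hseg⟩ := leg (R := Rest vx) (x := x) (m := m1) hcr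
    (by rw [dist_comm (vx 3), dist_comm (px 3)]; exact dev.1.d03.symm)
    (by rw [dist_comm (vx 3), dist_comm (px 3)]; exact dev.1.d23.symm)
    dev.1.d02.symm dev.1.d01.symm
    (by rw [dist_comm (vx 2), dist_comm (px 2)]; exact dev.1.d12.symm)
    i2 (by rw [hT]; exact i4) hI n1
    (by have h5 := hxy (vx 0); linarith) (by have h5 := hxy (vx 2); linarith) h0 h1 h2 hs hx
  have hqs : q ∈ segment ℝ (vx 0) (vx 2) := openSegment_subset_segment ℝ _ _ hq
  refine ⟨⟨q, ?_, hqd, ?_⟩, ?_⟩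
  · apply Set.union_subset
    · have hx' : x ∈ Tri vx 0 2 3 := by
        rw [← hT]
        exact (hull3 _ _ _ _).2 ⟨α, β, γ, h0, h1, h2, hs, hx⟩
      have hq' : q ∈ Tri vx 0 2 3 := (convex_convexHull ℝ _).segment_subset
        (subset_convexHull ℝ _ (by simp)) (subset_convexHull ℝ _ (by simp)) hqs
      exact ((convex_convexHull ℝ _).segment_subset hx' hq').trans
        (fun w hw => Or.inl (Or.inr hw))
    · have hq' : q ∈ Tri vx 0 1 2 := (convex_convexHull ℝ _).segment_subset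
        (subset_convexHull ℝ _ (by simp)) (subset_convexHull ℝ _ (by simp)) hqs
      exact ((convex_convexHull ℝ _).segment_subset hq'
        (subset_convexHull ℝ _ (by simp))).trans (fun w hw => Or.inl (Or.inl hw))
  · intro n c hc
    rw [i3, ← hT] at hc
    obtain ⟨h3, h4⟩ := hp n c hc
    rw [← hqd]
    exact ⟨h3, h4⟩
  · refine hseg.trans ?_
    intro w hw
    unfold Pent
    rcases hw with hw | hw
    · rw [side1_set] at hw
      exact Or.inl (Or.inr hw)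
    · rw [Set.pair_comm (px 2) (px 1)] at hw
      exact Or.inl (Or.inl hw)
-- END row side1

-- BEGIN row side4
/-- The vertex `v 4`. PROOF. As `side1`, with `A, B, C, D = v 2, v 0, v 3, v 4`, `m = m4`, `num4`. -/
theorem side4 {x : E3} (h : dist x x0 < 1 / 10) {α β γ : ℝ} (h0 : 0 ≤ α) (h1 : 0 ≤ β)
    (h2 : 0 ≤ γ) (hs : α + β + γ = 1) (hx : α • vx 2 + β • vx 0 + γ • vx 3 = x) :
    OneShortest vx x (vx 4) (dist (α • px 2 + β • px 0 + γ • px 3) (px 4)) ∧
      segment ℝ (α • px 2 + β • px 0 + γ • px 3) (px 4) ⊆ Pent px := by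
  obtain ⟨hi1, hcl, hSur, -, hv4⟩ := its
  obtain ⟨hm, hm5, hoth, hb0, hb3⟩ := num4
  have hT : convexHull ℝ {vx 2, vx 0, vx 3} = Tri vx 0 2 3 := by
    unfold Tri
    rw [Set.insert_comm]
  have hbc : px 0 ≠ px 3 := by
    intro hh
    have h3 := pnum.2.2.2.2.2.2
    rw [hh, dist_self] at h3
    norm_num at h3
  obtain ⟨s, t, hcr⟩ := opp hbc popp.2
  have hd := dev.1
  have e1 : dist (vx 2) (vx 0) = dist (px 2) (px 0) := by
    rw [dist_comm (vx 2), dist_comm (px 2), hd.d02]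
  have e2 : dist (vx 2) (vx 3) = dist (px 2) (px 3) := hd.d23.symm
  have e3 : dist (vx 0) (vx 3) = dist (px 0) (px 3) := hd.d03.symm
  have e4 : dist (vx 0) (vx 4) = dist (px 0) (px 4) := hd.d04.symm
  have e5 : dist (vx 3) (vx 4) = dist (px 3) (px 4) := hd.d34.symm
  have hlow : ∀ y : E3, 7 ≤ dist x0 y + dist y (vx 4) →
      dist x m4 + dist m4 (vx 4) < dist x y + dist y (vx 4) := by
    intro y hy
    have h3 : dist x m4 ≤ dist x x0 + dist x0 m4 := dist_triangle _ _ _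
    have h4 : dist x0 y ≤ dist x x0 + dist x y := by
      have h5 := dist_triangle x0 x y
      rwa [dist_comm x0 x] at h5
    linarith
  have hI : convexHull ℝ {vx 2, vx 0, vx 3} ∩ Rest vx ⊆
      segment ℝ (vx 0) (vx 3) ∪ {y | dist x m4 + dist m4 (vx 4) < dist x y + dist y (vx 4)} := by
    rw [hT]
    intro y hy
    rcases hi1 hy with (h3 | h3) | h3
    · exact Or.inr (hlow y (hoth y (Or.inl h3)))
    · exact Or.inl h3
    · exact Or.inr (hlow y (hoth y (Or.inr h3)))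
  obtain ⟨q, hq, hql, hpath, hseg⟩ := leg (R := Rest vx) (m := m4) hcr e1 e2 e3 e4 e5 hcl
    (by rw [hT]; exact hv4) hI hm (hlow _ hb0) (hlow _ hb3) h0 h1 h2 hs hx
  have hq' : q ∈ segment ℝ (vx 0) (vx 3) := openSegment_subset_segment _ _ _ hq
  have hxT : x ∈ Tri vx 0 2 3 := by
    rw [← hT]
    exact (hull3 _ _ _ _).2 ⟨α, β, γ, h0, h1, h2, hs, hx⟩
  have hc1 : Convex ℝ (Tri vx 0 2 3) := convex_convexHull _ _
  have hc2 : Convex ℝ (Tri vx 0 3 4) := convex_convexHull _ _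
  have hqT : q ∈ Tri vx 0 2 3 :=
    hc1.segment_subset (subset_convexHull _ _ (by simp)) (subset_convexHull _ _ (by simp)) hq'
  have hqT' : q ∈ Tri vx 0 3 4 :=
    hc2.segment_subset (subset_convexHull _ _ (by simp)) (subset_convexHull _ _ (by simp)) hq'
  have h4T : vx 4 ∈ Tri vx 0 3 4 := subset_convexHull _ _ (by simp)
  refine ⟨⟨q, ?_, hql, ?_⟩, ?_⟩
  · rintro z (hz | hz)
    · exact Or.inl (Or.inr (hc1.segment_subset hxT hqT hz))
    · exact Or.inr (hc2.segment_subset hqT' h4T hz)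
  · intro n c hc
    rw [hSur, ← hT] at hc
    rw [← hql]
    exact hpath n c hc
  · intro z hz
    rcases hseg hz with h3 | h3
    · rw [Set.insert_comm] at h3
      exact Or.inl (Or.inr h3)
    · exact Or.inr h3
-- END row side4

-- BEGIN row fin
/-- All vertices. PROOF. `hull3` for `x`: weights `a, b, c` at `v 0, v 2, v 3`; `X` the combination of
`px 0, px 2, px 3` with the same weights, in `Pent px`. `i = 1`, `4`: `side1`, `side4` (reorder the
sums). `i = 0, 2, 3`: `str` with `dist x (v i) = dist X (px i)` (`tri_iso`, Tet.lean, and `dev.1`); the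
segment is in the middle triangle. -/
theorem fin {x : E3} (hx : x ∈ Tri vx 0 2 3) (h : dist x x0 < 1 / 10) :
    ∃ X ∈ Pent px, ∀ i, segment ℝ X (px i) ⊆ Pent px ∧
      OneShortest vx x (vx i) (dist X (px i)) := by
  obtain ⟨a, b, c, ha, hb, hc, hs, hxe⟩ := (hull3 _ _ _ _).1 hx
  have v1 : c • vx 3 + a • vx 0 + b • vx 2 = x := by rw [← hxe]; abel
  have v4 : b • vx 2 + a • vx 0 + c • vx 3 = x := by rw [← hxe]; abel
  have s1 := side1 h hc ha hb (by linarith) v1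
  have s4 := side4 h hb ha hc (by linarith) v4
  have p1 : c • px 3 + a • px 0 + b • px 2 = a • px 0 + b • px 2 + c • px 3 := by abel
  have p4 : b • px 2 + a • px 0 + c • px 3 = a • px 0 + b • px 2 + c • px 3 := by abel
  rw [p1] at s1
  rw [p4] at s4
  have hX : a • px 0 + b • px 2 + c • px 3 ∈ convexHull ℝ {px 0, px 2, px 3} :=
    (hull3 _ _ _ _).2 ⟨a, b, c, ha, hb, hc, hs, rfl⟩
  have iso : ∀ a' b' c' : ℝ, a' + b' + c' = 1 →
      dist x (a' • vx 0 + b' • vx 2 + c' • vx 3) =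
        dist (a • px 0 + b • px 2 + c • px 3) (a' • px 0 + b' • px 2 + c' • px 3) := by
    intro a' b' c' h'
    rw [← hxe]
    exact tri_iso _ _ _ _ _ _ dev.1.d02.symm dev.1.d03.symm dev.1.d23.symm _ _ _ _ _ _ hs h'
  have e0 := iso 1 0 0 (by ring)
  have e2 := iso 0 1 0 (by ring)
  have e3 := iso 0 0 1 (by ring)
  simp only [zero_smul, zero_add, add_zero, one_smul] at e0 e2 e3
  have sub : convexHull ℝ {px 0, px 2, px 3} ⊆ Pent px := fun z hz => Or.inl (Or.inr hz)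
  have seg : ∀ i : Fin 5, px i ∈ ({px 0, px 2, px 3} : Set ℂ) →
      segment ℝ (a • px 0 + b • px 2 + c • px 3) (px i) ⊆ Pent px := fun i hi =>
    ((convex_convexHull ℝ _).segment_subset hX (subset_convexHull ℝ _ hi)).trans sub
  refine ⟨a • px 0 + b • px 2 + c • px 3, sub hX, fun i => ?_⟩
  fin_cases i
  · exact ⟨seg 0 (by simp), by have := str hx 0 (by simp); rw [e0] at this; exact this⟩
  · exact ⟨s1.2, s1.1⟩
  · exact ⟨seg 2 (by simp), by have := str hx 2 (by simp); rw [e2] at this; exact this⟩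
  · exact ⟨seg 3 (by simp), by have := str hx 3 (by simp); rw [e3] at this; exact this⟩
  · exact ⟨s4.2, s4.1⟩
-- END row fin

end Pool.Agent.Cac5
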