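import Mathlib
import Pool.Agent.Cac5.Ex

/-!
# General bipyramids `v 2`, `v 4` over the triangle `v 0, v 1, v 3`
-/

set_option linter.unusedVariables false

namespace Pool.Agent.Cac5

open Set Real Pool.Agent.Cac

/-- `k0, ..., k3` are the barycentric coordinates of space with respect to `v 0, v 1, v 2, v 3` and
`v 4 = c0 v 0 + c1 v 1 - c2 v 2 + c3 v 3`. -/
structure Co (v : Fin 5 → E3) (k0 k1 k2 k3 : E3 → ℝ) (c0 c1 c2 c3 : ℝ) : Prop where
  p0 : 0 < c0
  p1 : 0 < c1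
  p2 : 0 < c2
  p3 : 0 < c3
  sm : c0 + c1 + c3 = 1 + c2
  n0 : Continuous k0
  n1 : Continuous k1
  n2 : Continuous k2
  n3 : Continuous k3
  su : ∀ w, k0 w + k1 w + k2 w + k3 w = 1
  ev : ∀ (a0 a1 a2 a3 a4 : ℝ) (w : E3), a0 + a1 + a2 + a3 + a4 = 1 →
    (a0 • v 0 + a1 • v 1 + a2 • v 2 + a3 • v 3 + a4 • v 4 = w ↔
      k0 w = a0 + c0 * a4 ∧ k1 w = a1 + c1 * a4 ∧ k2 w = a2 - c2 * a4 ∧ k3 w = a3 + c3 * a4)

/-- The six half spaces (of the triangles `123`, `023`, `012`, `034`, `134`, `140`). -/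
def QB (k0 k1 k2 k3 : E3 → ℝ) (c0 c1 c2 c3 : ℝ) : Set E3 := {w | 0 ≤ k0 w ∧ 0 ≤ k1 w ∧ 0 ≤ k3 w ∧
  0 ≤ c1 * k2 w + c2 * k1 w ∧ 0 ≤ c0 * k2 w + c2 * k0 w ∧ 0 ≤ c3 * k2 w + c2 * k3 w}

/-- Some of the six inequalities is an equality. -/
def EB (k0 k1 k2 k3 : E3 → ℝ) (c0 c1 c2 c3 : ℝ) (w : E3) : Prop := 0 = k0 w ∨ 0 = k1 w ∨ 0 = k3 w ∨
  0 = c1 * k2 w + c2 * k1 w ∨ 0 = c0 * k2 w + c2 * k0 w ∨ 0 = c3 * k2 w + c2 * k3 w

section
variable {v : Fin 5 → E3} {k0 k1 k2 k3 : E3 → ℝ} {c0 c1 c2 c3 : ℝ}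

-- BEGIN row caf
/-- The coordinates are affine. PROOF. `C.ev` with `a4 = 0` gives `w = ∑ k i w • v i` and the same for
`w'`; the combination has the coefficients of the right sides, `C.ev` again. -/
theorem caf (C : Co v k0 k1 k2 k3 c0 c1 c2 c3) (w w' : E3) (r : ℝ) :
    k0 ((1 + r) • w - r • w') = (1 + r) * k0 w - r * k0 w' ∧
    k1 ((1 + r) • w - r • w') = (1 + r) * k1 w - r * k1 w' ∧
    k2 ((1 + r) • w - r • w') = (1 + r) * k2 w - r * k2 w' ∧
    k3 ((1 + r) • w - r • w') = (1 + r) * k3 w - r * k3 w' := by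
  have hw := (C.ev (k0 w) (k1 w) (k2 w) (k3 w) 0 w (by rw [add_zero]; exact C.su w)).2
    ⟨by ring, by ring, by ring, by ring⟩
  have hw' := (C.ev (k0 w') (k1 w') (k2 w') (k3 w') 0 w' (by rw [add_zero]; exact C.su w')).2
    ⟨by ring, by ring, by ring, by ring⟩
  have s := C.su w
  have s' := C.su w'
  have h := (C.ev ((1 + r) * k0 w - r * k0 w') ((1 + r) * k1 w - r * k1 w')
    ((1 + r) * k2 w - r * k2 w') ((1 + r) * k3 w - r * k3 w') 0 ((1 + r) • w - r • w')
    (by linear_combination (1 + r) * s - r * s')).1 (by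
      conv_rhs => rw [← hw, ← hw']
      module)
  simpa only [mul_zero, add_zero, sub_zero] using h
-- END row caf

-- BEGIN row hulb
private theorem hulb_lin (C : Co v k0 k1 k2 k3 c0 c1 c2 c3) {a b : ℝ} (hab : a + b = 1)
    (w w' : E3) : k0 (a • w + b • w') = a * k0 w + b * k0 w' ∧
    k1 (a • w + b • w') = a * k1 w + b * k1 w' ∧ k2 (a • w + b • w') = a * k2 w + b * k2 w' ∧
    k3 (a • w + b • w') = a * k3 w + b * k3 w' := by
  have e1 := (C.ev (k0 w) (k1 w) (k2 w) (k3 w) 0 w (by linarith [C.su w])).2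
    ⟨by ring, by ring, by ring, by ring⟩
  have e2 := (C.ev (k0 w') (k1 w') (k2 w') (k3 w') 0 w' (by linarith [C.su w'])).2
    ⟨by ring, by ring, by ring, by ring⟩
  have e3 : (a * k0 w + b * k0 w') • v 0 + (a * k1 w + b * k1 w') • v 1 +
      (a * k2 w + b * k2 w') • v 2 + (a * k3 w + b * k3 w') • v 3 + (0 : ℝ) • v 4 =
        a • w + b • w' := by
    calc _ = a • (k0 w • v 0 + k1 w • v 1 + k2 w • v 2 + k3 w • v 3 + (0 : ℝ) • v 4) +
        b • (k0 w' • v 0 + k1 w' • v 1 + k2 w' • v 2 + k3 w' • v 3 + (0 : ℝ) • v 4) := by module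
      _ = a • w + b • w' := by rw [e1, e2]
  obtain ⟨f0, f1, f2, f3⟩ := (C.ev _ _ _ _ 0 (a • w + b • w')
    (by linear_combination a * C.su w + b * C.su w' + hab)).1 e3
  exact ⟨by linarith, by linarith, by linarith, by linarith⟩

private theorem hulb_mem {a b c d e : ℝ} (h0 : 0 ≤ a) (h1 : 0 ≤ b) (h2 : 0 ≤ c) (h3 : 0 ≤ d)
    (h4 : 0 ≤ e) (h : a + b + c + d + e = 1) :
    a • v 0 + b • v 1 + c • v 2 + d • v 3 + e • v 4 ∈ convexHull ℝ (range v) := by
  have h5 := (convex_convexHull ℝ (range v)).sum_mem (t := Finset.univ)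
    (w := ![a, b, c, d, e]) (z := v)
    (by intro i _; fin_cases i <;> assumption)
    (by rw [Fin.sum_univ_five]; exact h)
    (fun i _ => subset_convexHull _ _ ⟨i, rfl⟩)
  rw [Fin.sum_univ_five] at h5
  exact h5

/-- The hull. PROOF. `⊆`: a point of the hull is `∑ a i • v i` (`convexHull_range_eq_exists_affineCombination`
or `mem_convexHull_iff_exists_fintype`, or `Convex` of `QB` by `caf`-like affinity and the vertices by
`C.ev`), then `C.ev` and `nlinarith`/`positivity`. `⊇`: if `0 ≤ k2 w`: the weights `k0 w, k1 w, k2 w,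
k3 w, 0`; if `k2 w ≤ 0`: with `e = - k2 w / c2` the weights `k0 w - c0 * e, k1 w - c1 * e, 0,
k3 w - c3 * e, e`. -/
theorem hulb (C : Co v k0 k1 k2 k3 c0 c1 c2 c3) :
    convexHull ℝ (range v) = QB k0 k1 k2 k3 c0 c1 c2 c3 := by
  have p0 := C.p0
  have p1 := C.p1
  have p2 := C.p2
  have p3 := C.p3
  apply Subset.antisymm
  · refine convexHull_min ?_ ?_
    · rintro _ ⟨i, rfl⟩
      fin_cases i
      · obtain ⟨h1, h2, h3, h4⟩ := (C.ev 1 0 0 0 0 (v 0) (by norm_num)).1 (by simp)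
        change v 0 ∈ QB k0 k1 k2 k3 c0 c1 c2 c3
        refine ⟨?_, ?_, ?_, ?_, ?_, ?_⟩ <;> simp only [h1, h2, h3, h4] <;> linarith
      · obtain ⟨h1, h2, h3, h4⟩ := (C.ev 0 1 0 0 0 (v 1) (by norm_num)).1 (by simp)
        change v 1 ∈ QB k0 k1 k2 k3 c0 c1 c2 c3
        refine ⟨?_, ?_, ?_, ?_, ?_, ?_⟩ <;> simp only [h1, h2, h3, h4] <;> linarith
      · obtain ⟨h1, h2, h3, h4⟩ := (C.ev 0 0 1 0 0 (v 2) (by norm_num)).1 (by simp)
        change v 2 ∈ QB k0 k1 k2 k3 c0 c1 c2 c3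
        refine ⟨?_, ?_, ?_, ?_, ?_, ?_⟩ <;> simp only [h1, h2, h3, h4] <;> linarith
      · obtain ⟨h1, h2, h3, h4⟩ := (C.ev 0 0 0 1 0 (v 3) (by norm_num)).1 (by simp)
        change v 3 ∈ QB k0 k1 k2 k3 c0 c1 c2 c3
        refine ⟨?_, ?_, ?_, ?_, ?_, ?_⟩ <;> simp only [h1, h2, h3, h4] <;> linarith
      · obtain ⟨h1, h2, h3, h4⟩ := (C.ev 0 0 0 0 1 (v 4) (by norm_num)).1 (by simp)
        change v 4 ∈ QB k0 k1 k2 k3 c0 c1 c2 c3
        refine ⟨?_, ?_, ?_, ?_, ?_, ?_⟩ <;> simp only [h1, h2, h3, h4] <;> linarith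
    · intro w hw w' hw' a b ha hb hab
      obtain ⟨h1, h2, h3, h4⟩ := hulb_lin C hab w w'
      obtain ⟨q1, q2, q3, q4, q5, q6⟩ := hw
      obtain ⟨r1, r2, r3, r4, r5, r6⟩ := hw'
      refine ⟨?_, ?_, ?_, ?_, ?_, ?_⟩ <;> simp only [h1, h2, h3, h4]
      · linarith [mul_nonneg ha q1, mul_nonneg hb r1]
      · linarith [mul_nonneg ha q2, mul_nonneg hb r2]
      · linarith [mul_nonneg ha q3, mul_nonneg hb r3]
      · linarith [mul_nonneg ha q4, mul_nonneg hb r4]
      · linarith [mul_nonneg ha q5, mul_nonneg hb r5]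
      · linarith [mul_nonneg ha q6, mul_nonneg hb r6]
  · rintro w ⟨q1, q2, q3, q4, q5, q6⟩
    have hs := C.su w
    rcases le_total 0 (k2 w) with h | h
    · have h5 := (C.ev (k0 w) (k1 w) (k2 w) (k3 w) 0 w (by linarith)).2
        ⟨by ring, by ring, by ring, by ring⟩
      rw [← h5]
      exact hulb_mem q1 q2 h q3 le_rfl (by linarith)
    · obtain ⟨e, he⟩ : ∃ e, c2 * e = -k2 w := ⟨-k2 w / c2, mul_div_cancel₀ _ p2.ne'⟩
      have he0 : 0 ≤ e := (mul_nonneg_iff_of_pos_left p2).1 (by rw [he]; linarith)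
      have a0 : 0 ≤ k0 w - c0 * e := by
        refine (mul_nonneg_iff_of_pos_left p2).1 ?_
        have h6 : c2 * (k0 w - c0 * e) = c0 * k2 w + c2 * k0 w := by linear_combination (-c0) * he
        rw [h6]
        exact q5
      have a1 : 0 ≤ k1 w - c1 * e := by
        refine (mul_nonneg_iff_of_pos_left p2).1 ?_
        have h6 : c2 * (k1 w - c1 * e) = c1 * k2 w + c2 * k1 w := by linear_combination (-c1) * he
        rw [h6]
        exact q4
      have a3 : 0 ≤ k3 w - c3 * e := by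
        refine (mul_nonneg_iff_of_pos_left p2).1 ?_
        have h6 : c2 * (k3 w - c3 * e) = c3 * k2 w + c2 * k3 w := by linear_combination (-c3) * he
        rw [h6]
        exact q6
      have hsum : (k0 w - c0 * e) + (k1 w - c1 * e) + 0 + (k3 w - c3 * e) + e = 1 := by
        linear_combination hs - e * C.sm - he
      have h5 := (C.ev (k0 w - c0 * e) (k1 w - c1 * e) 0 (k3 w - c3 * e) e w hsum).2
        ⟨by ring, by ring, by linarith, by ring⟩
      rw [← h5]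
      exact hulb_mem a0 a1 le_rfl a3 he0 hsum
-- END row hulb

-- BEGIN row frob
private theorem frob_int {S : Set E3} {w c : E3} {g : E3 → ℝ}
    (ha : ∀ r : ℝ, g ((1 + r) • w - r • c) = (1 + r) * g w - r * g c) (hc : 0 < g c)
    (hS : ∀ u ∈ S, 0 ≤ g u) (hw : w ∈ interior S) : 0 < g w := by
  have hg : Continuous (fun r : ℝ => (1 + r) • w - r • c) := by fun_prop
  have h0 : (fun r : ℝ => (1 + r) • w - r • c) 0 ∈ interior S := by simpa using hw
  have h1 : ∀ᶠ r in nhds (0 : ℝ), (1 + r) • w - r • c ∈ interior S :=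
    hg.continuousAt.eventually_mem (isOpen_interior.mem_nhds h0)
  obtain ⟨δ, hδ, h2⟩ := Metric.eventually_nhds_iff.1 h1
  have h3 : dist (δ / 2) 0 < δ := by
    rw [Real.dist_eq, sub_zero, abs_of_pos (by positivity)]
    linarith
  have h4 := hS _ (interior_subset (h2 h3))
  rw [ha] at h4
  by_contra hcon
  have hcon' : g w ≤ 0 := not_lt.1 hcon
  have h5 : 0 < δ / 2 * g c := mul_pos (half_pos hδ) hc
  have h6 : 0 ≤ (1 + δ / 2) * (-g w) := mul_nonneg (by positivity) (by linarith)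
  nlinarith

/-- The frontier. PROOF. See `fro` in Ex.lean for the pattern. `QB` is closed. The set of the strict
inequalities is open and contained in `QB`. If one of the six functions `f` is zero at `w`: there is a
point `c` with all six positive (the point with the weights `1/4` at `v 0, v 1, v 2, v 3`: `C.ev`), and
`(1 + r) • w - r • c` (`caf`) violates the inequality for `r > 0` and tends to `w`. -/
theorem frob (C : Co v k0 k1 k2 k3 c0 c1 c2 c3) :
    frontier (QB k0 k1 k2 k3 c0 c1 c2 c3) =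
      {w | w ∈ QB k0 k1 k2 k3 c0 c1 c2 c3 ∧ EB k0 k1 k2 k3 c0 c1 c2 c3 w} := by
  have n0 := C.n0
  have n1 := C.n1
  have n2 := C.n2
  have n3 := C.n3
  have p0 := C.p0
  have p1 := C.p1
  have p2 := C.p2
  have p3 := C.p3
  have hcl : IsClosed (QB k0 k1 k2 k3 c0 c1 c2 c3) := by
    unfold QB
    simp only [Set.ofPred_and]
    refine IsClosed.inter ?_ (IsClosed.inter ?_ (IsClosed.inter ?_ (IsClosed.inter ?_
      (IsClosed.inter ?_ ?_))))
    · exact isClosed_le continuous_const (by fun_prop)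
    · exact isClosed_le continuous_const (by fun_prop)
    · exact isClosed_le continuous_const (by fun_prop)
    · exact isClosed_le continuous_const (by fun_prop)
    · exact isClosed_le continuous_const (by fun_prop)
    · exact isClosed_le continuous_const (by fun_prop)
  have hop : IsOpen {w : E3 | 0 < k0 w ∧ 0 < k1 w ∧ 0 < k3 w ∧ 0 < c1 * k2 w + c2 * k1 w ∧
      0 < c0 * k2 w + c2 * k0 w ∧ 0 < c3 * k2 w + c2 * k3 w} := by
    simp only [Set.ofPred_and]
    refine IsOpen.inter ?_ (IsOpen.inter ?_ (IsOpen.inter ?_ (IsOpen.inter ?_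
      (IsOpen.inter ?_ ?_))))
    · exact isOpen_lt continuous_const (by fun_prop)
    · exact isOpen_lt continuous_const (by fun_prop)
    · exact isOpen_lt continuous_const (by fun_prop)
    · exact isOpen_lt continuous_const (by fun_prop)
    · exact isOpen_lt continuous_const (by fun_prop)
    · exact isOpen_lt continuous_const (by fun_prop)
  rw [hcl.frontier_eq]
  ext w
  constructor
  · rintro ⟨hw, hni⟩
    refine ⟨hw, ?_⟩
    by_contra hE
    apply hni
    have hsub : {w : E3 | 0 < k0 w ∧ 0 < k1 w ∧ 0 < k3 w ∧ 0 < c1 * k2 w + c2 * k1 w ∧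
        0 < c0 * k2 w + c2 * k0 w ∧ 0 < c3 * k2 w + c2 * k3 w} ⊆ QB k0 k1 k2 k3 c0 c1 c2 c3 := by
      rintro u ⟨u1, u2, u3, u4, u5, u6⟩
      exact ⟨u1.le, u2.le, u3.le, u4.le, u5.le, u6.le⟩
    apply interior_maximal hsub hop
    unfold EB at hE
    push Not at hE
    obtain ⟨m1, m2, m3, m4, m5, m6⟩ := hE
    obtain ⟨q1, q2, q3, q4, q5, q6⟩ := hw
    exact ⟨lt_of_le_of_ne q1 m1, lt_of_le_of_ne q2 m2, lt_of_le_of_ne q3 m3,
      lt_of_le_of_ne q4 m4, lt_of_le_of_ne q5 m5, lt_of_le_of_ne q6 m6⟩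
  · rintro ⟨hw, hE⟩
    refine ⟨hw, fun hi => ?_⟩
    obtain ⟨c, hc⟩ : ∃ c : E3, (1 / 4 : ℝ) • v 0 + (1 / 4 : ℝ) • v 1 + (1 / 4 : ℝ) • v 2 +
      (1 / 4 : ℝ) • v 3 + (0 : ℝ) • v 4 = c := ⟨_, rfl⟩
    obtain ⟨d0, d1, d2, d3⟩ := (C.ev (1 / 4) (1 / 4) (1 / 4) (1 / 4) 0 c (by norm_num)).1 hc
    simp only [mul_zero, add_zero, sub_zero] at d0 d1 d2 d3
    have A := fun r : ℝ => caf C w c r
    have i1 := frob_int (w := w) (c := c) (g := k0) (fun r => (A r).1) (by rw [d0]; norm_num)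
      (fun u (hu : u ∈ QB k0 k1 k2 k3 c0 c1 c2 c3) => hu.1) hi
    have i2 := frob_int (w := w) (c := c) (g := k1) (fun r => (A r).2.1) (by rw [d1]; norm_num)
      (fun u (hu : u ∈ QB k0 k1 k2 k3 c0 c1 c2 c3) => hu.2.1) hi
    have i3 := frob_int (w := w) (c := c) (g := k3) (fun r => (A r).2.2.2) (by rw [d3]; norm_num)
      (fun u (hu : u ∈ QB k0 k1 k2 k3 c0 c1 c2 c3) => hu.2.2.1) hi
    have i4 := frob_int (w := w) (c := c) (g := fun u => c1 * k2 u + c2 * k1 u)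
      (fun r => by
        obtain ⟨a0, a1, a2, a3⟩ := A r
        simp only [a0, a1, a2, a3]
        ring) (by simp only [d1, d2]; positivity)
      (fun u (hu : u ∈ QB k0 k1 k2 k3 c0 c1 c2 c3) => hu.2.2.2.1) hi
    have i5 := frob_int (w := w) (c := c) (g := fun u => c0 * k2 u + c2 * k0 u)
      (fun r => by
        obtain ⟨a0, a1, a2, a3⟩ := A r
        simp only [a0, a1, a2, a3]
        ring) (by simp only [d0, d2]; positivity)
      (fun u (hu : u ∈ QB k0 k1 k2 k3 c0 c1 c2 c3) => hu.2.2.2.2.1) hi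
    have i6 := frob_int (w := w) (c := c) (g := fun u => c3 * k2 u + c2 * k3 u)
      (fun r => by
        obtain ⟨a0, a1, a2, a3⟩ := A r
        simp only [a0, a1, a2, a3]
        ring) (by simp only [d3, d2]; positivity)
      (fun u (hu : u ∈ QB k0 k1 k2 k3 c0 c1 c2 c3) => hu.2.2.2.2.2) hi
    rcases hE with h | h | h | h | h | h <;> linarith
-- END row frob

-- BEGIN row trib1
private theorem trib1_q {a0 a1 a2 a3 a4 : ℝ} {w : E3} (C : Co v k0 k1 k2 k3 c0 c1 c2 c3)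
    (h0 : 0 ≤ a0) (h1 : 0 ≤ a1) (h2 : 0 ≤ a2) (h3 : 0 ≤ a3) (h4 : 0 ≤ a4)
    (hs : a0 + a1 + a2 + a3 + a4 = 1)
    (h : a0 • v 0 + a1 • v 1 + a2 • v 2 + a3 • v 3 + a4 • v 4 = w) :
    w ∈ QB k0 k1 k2 k3 c0 c1 c2 c3 ∧ k0 w = a0 + c0 * a4 ∧ k1 w = a1 + c1 * a4 ∧
      k2 w = a2 - c2 * a4 ∧ k3 w = a3 + c3 * a4 := by
  obtain ⟨e0, e1, e2, e3⟩ := (C.ev a0 a1 a2 a3 a4 w hs).1 h
  have p0 := C.p0
  have p1 := C.p1
  have p2 := C.p2
  have p3 := C.p3
  refine ⟨⟨?_, ?_, ?_, ?_, ?_, ?_⟩, e0, e1, e2, e3⟩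
  · rw [e0]; positivity
  · rw [e1]; positivity
  · rw [e3]; positivity
  · have e : c1 * k2 w + c2 * k1 w = c1 * a2 + c2 * a1 := by rw [e1, e2]; ring
    rw [e]; positivity
  · have e : c0 * k2 w + c2 * k0 w = c0 * a2 + c2 * a0 := by rw [e0, e2]; ring
    rw [e]; positivity
  · have e : c3 * k2 w + c2 * k3 w = c3 * a2 + c2 * a3 := by rw [e3, e2]; ring
    rw [e]; positivity

/-- The triangles satisfy equalities. PROOF. As `tri1` in Ex.lean, with `C.ev`: in `012`: `k3 = 0`;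
`023`: `k1 = 0`; `034`: the fourth; `123`: `k0 = 0`; `134`: the fifth; `140`: the sixth. -/
theorem trib1 (C : Co v k0 k1 k2 k3 c0 c1 c2 c3) (w : E3) (h : w ∈ Sur v) :
    w ∈ QB k0 k1 k2 k3 c0 c1 c2 c3 ∧ EB k0 k1 k2 k3 c0 c1 c2 c3 w := by
  rcases h with ((h | h) | h) | ((h | h) | h)
  · obtain ⟨x, y, z, hx, hy, hz, hs, he⟩ := (hull3 (v 0) (v 1) (v 2) w).1 h
    have e : x • v 0 + y • v 1 + z • v 2 + (0 : ℝ) • v 3 + (0 : ℝ) • v 4 = w := by
      rw [← he]; module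
    obtain ⟨hq, e0, e1, e2, e3⟩ := trib1_q C hx hy hz le_rfl le_rfl (by linarith) e
    exact ⟨hq, Or.inr (Or.inr (Or.inl (by rw [e3]; ring)))⟩
  · obtain ⟨x, y, z, hx, hy, hz, hs, he⟩ := (hull3 (v 0) (v 2) (v 3) w).1 h
    have e : x • v 0 + (0 : ℝ) • v 1 + y • v 2 + z • v 3 + (0 : ℝ) • v 4 = w := by
      rw [← he]; module
    obtain ⟨hq, e0, e1, e2, e3⟩ := trib1_q C hx le_rfl hy hz le_rfl (by linarith) e
    exact ⟨hq, Or.inr (Or.inl (by rw [e1]; ring))⟩
  · obtain ⟨x, y, z, hx, hy, hz, hs, he⟩ := (hull3 (v 0) (v 3) (v 4) w).1 h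
    have e : x • v 0 + (0 : ℝ) • v 1 + (0 : ℝ) • v 2 + y • v 3 + z • v 4 = w := by
      rw [← he]; module
    obtain ⟨hq, e0, e1, e2, e3⟩ := trib1_q C hx le_rfl le_rfl hy hz (by linarith) e
    exact ⟨hq, Or.inr (Or.inr (Or.inr (Or.inl (by rw [e1, e2]; ring))))⟩
  · obtain ⟨x, y, z, hx, hy, hz, hs, he⟩ := (hull3 (v 1) (v 2) (v 3) w).1 h
    have e : (0 : ℝ) • v 0 + x • v 1 + y • v 2 + z • v 3 + (0 : ℝ) • v 4 = w := by
      rw [← he]; module
    obtain ⟨hq, e0, e1, e2, e3⟩ := trib1_q C le_rfl hx hy hz le_rfl (by linarith) e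
    exact ⟨hq, Or.inl (by rw [e0]; ring)⟩
  · obtain ⟨x, y, z, hx, hy, hz, hs, he⟩ := (hull3 (v 1) (v 3) (v 4) w).1 h
    have e : (0 : ℝ) • v 0 + x • v 1 + (0 : ℝ) • v 2 + y • v 3 + z • v 4 = w := by
      rw [← he]; module
    obtain ⟨hq, e0, e1, e2, e3⟩ := trib1_q C le_rfl hx le_rfl hy hz (by linarith) e
    exact ⟨hq, Or.inr (Or.inr (Or.inr (Or.inr (Or.inl (by rw [e0, e2]; ring)))))⟩
  · obtain ⟨x, y, z, hx, hy, hz, hs, he⟩ := (hull3 (v 1) (v 4) (v 0) w).1 h
    have e : z • v 0 + x • v 1 + (0 : ℝ) • v 2 + (0 : ℝ) • v 3 + y • v 4 = w := by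
      rw [← he]; module
    obtain ⟨hq, e0, e1, e2, e3⟩ := trib1_q C hz hx le_rfl le_rfl hy (by linarith) e
    exact ⟨hq, Or.inr (Or.inr (Or.inr (Or.inr (Or.inr (by rw [e3, e2]; ring)))))⟩
-- END row trib1

-- BEGIN row trib2
private theorem trib2_hull {x y z w : E3} {a b c : ℝ} (ha : 0 ≤ a) (hb : 0 ≤ b) (hc : 0 ≤ c)
    (h : a + b + c = 1) (hw : a • x + b • y + c • z = w) : w ∈ convexHull ℝ {x, y, z} := by
  rw [hull3]
  exact ⟨a, b, c, ha, hb, hc, h, hw⟩

private theorem trib2_mem {v : Fin 5 → E3} {w : E3} {a b c d e : ℝ} (ha : 0 ≤ a) (hb : 0 ≤ b)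
    (hc : 0 ≤ c) (hd : 0 ≤ d) (he : 0 ≤ e) (h : a + b + c + d + e = 1)
    (hw : a • v 0 + b • v 1 + c • v 2 + d • v 3 + e • v 4 = w)
    (hp : (d = 0 ∧ e = 0) ∨ (b = 0 ∧ e = 0) ∨ (b = 0 ∧ c = 0) ∨ (a = 0 ∧ e = 0) ∨
      (a = 0 ∧ c = 0) ∨ (c = 0 ∧ d = 0)) : w ∈ Sur v := by
  unfold Sur Front
  rcases hp with ⟨rfl, rfl⟩ | ⟨rfl, rfl⟩ | ⟨rfl, rfl⟩ | ⟨rfl, rfl⟩ | ⟨rfl, rfl⟩ | ⟨rfl, rfl⟩
  · refine Or.inl (Or.inl (Or.inl ?_))
    exact trib2_hull ha hb hc (by linarith) (by rw [← hw]; simp)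
  · refine Or.inl (Or.inl (Or.inr ?_))
    exact trib2_hull ha hc hd (by linarith) (by rw [← hw]; simp)
  · refine Or.inl (Or.inr ?_)
    exact trib2_hull ha hd he (by linarith) (by rw [← hw]; simp)
  · refine Or.inr (Or.inl (Or.inl ?_))
    exact trib2_hull hb hc hd (by linarith) (by rw [← hw]; simp [sh])
  · refine Or.inr (Or.inl (Or.inr ?_))
    exact trib2_hull hb hd he (by linarith) (by rw [← hw]; simp [sh])
  · refine Or.inr (Or.inr ?_)
    exact trib2_hull hb he ha (by linarith) (by rw [← hw]; simp [sh]; abel)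

private theorem trib2_zero {c c' x y : ℝ} (hc : 0 < c) (hc' : 0 < c') (hx : 0 ≤ x) (hy : 0 ≤ y)
    (h : 0 = c * x + c' * y) : x = 0 ∧ y = 0 := by
  have h1 : 0 ≤ c * x := mul_nonneg hc.le hx
  have h2 : 0 ≤ c' * y := mul_nonneg hc'.le hy
  have h3 : c * x = 0 := by linarith
  have h4 : c' * y = 0 := by linarith
  exact ⟨(mul_eq_zero.1 h3).resolve_left hc.ne', (mul_eq_zero.1 h4).resolve_left hc'.ne'⟩

/-- Conversely. PROOF. As `tri2` in Ex.lean: the weights of `hulb`; an equality makes the weight of the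
missing vertex zero in the right case, in the other case the point has two zero weights. -/
theorem trib2 (C : Co v k0 k1 k2 k3 c0 c1 c2 c3) (w : E3)
    (h : w ∈ QB k0 k1 k2 k3 c0 c1 c2 c3) (h' : EB k0 k1 k2 k3 c0 c1 c2 c3 w) : w ∈ Sur v := by
  obtain ⟨q1, q2, q3, q4, q5, q6⟩ := h
  unfold EB at h'
  have p0 := C.p0
  have p1 := C.p1
  have p2 := C.p2
  have p3 := C.p3
  have hsm := C.sm
  have hsu := C.su w
  rcases le_total 0 (k2 w) with hc | hc
  · refine trib2_mem (a := k0 w) (b := k1 w) (c := k2 w) (d := k3 w) (e := 0) q1 q2 hc q3 le_rfl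
      (by linarith) ((C.ev _ _ _ _ _ w (by linarith)).2 ⟨by ring, by ring, by ring, by ring⟩) ?_
    rcases h' with e | e | e | e | e | e
    · exact Or.inr (Or.inr (Or.inr (Or.inl ⟨e.symm, rfl⟩)))
    · exact Or.inr (Or.inl ⟨e.symm, rfl⟩)
    · exact Or.inl ⟨e.symm, rfl⟩
    · obtain ⟨e1, e2⟩ := trib2_zero p1 p2 hc q2 e
      exact Or.inr (Or.inr (Or.inl ⟨e2, e1⟩))
    · obtain ⟨e1, e2⟩ := trib2_zero p0 p2 hc q1 e
      exact Or.inr (Or.inr (Or.inr (Or.inr (Or.inl ⟨e2, e1⟩))))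
    · obtain ⟨e1, e2⟩ := trib2_zero p3 p2 hc q3 e
      exact Or.inr (Or.inr (Or.inr (Or.inr (Or.inr ⟨e1, e2⟩))))
  · obtain ⟨f, hf⟩ : ∃ f : ℝ, c2 * f = -k2 w := ⟨-k2 w / c2, by field_simp⟩
    have hf0 : 0 ≤ f := by
      by_contra hcon
      have h1 : f < 0 := not_le.1 hcon
      have h2 : c2 * f < 0 := mul_neg_of_pos_of_neg p2 h1
      linarith
    have hk2 : k2 w = -(c2 * f) := by linarith
    rw [hk2] at q4 q5 q6 h' hsu
    have ha : 0 ≤ k0 w - c0 * f := by
      have h1 : 0 ≤ c2 * (k0 w - c0 * f) := by linarith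
      exact nonneg_of_mul_nonneg_right h1 p2
    have hb : 0 ≤ k1 w - c1 * f := by
      have h1 : 0 ≤ c2 * (k1 w - c1 * f) := by linarith
      exact nonneg_of_mul_nonneg_right h1 p2
    have hd : 0 ≤ k3 w - c3 * f := by
      have h1 : 0 ≤ c2 * (k3 w - c3 * f) := by linarith
      exact nonneg_of_mul_nonneg_right h1 p2
    have key : ∀ {c x : ℝ}, 0 < c → 0 = x → 0 ≤ x - c * f → f = 0 := by
      intro c x hc0 hx hle
      have h1 : c * f ≤ 0 := by linarith
      have h2 : 0 ≤ c * f := mul_nonneg hc0.le hf0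
      exact (mul_eq_zero.1 (le_antisymm h1 h2)).resolve_left hc0.ne'
    have key2 : ∀ {c x : ℝ}, 0 = c * -(c2 * f) + c2 * x → x - c * f = 0 := by
      intro c x hx
      have h1 : c2 * (x - c * f) = 0 := by linarith
      exact (mul_eq_zero.1 h1).resolve_left p2.ne'
    refine trib2_mem (a := k0 w - c0 * f) (b := k1 w - c1 * f) (c := 0) (d := k3 w - c3 * f)
      (e := f) ha hb le_rfl hd hf0 ?_ ((C.ev _ _ _ _ _ w ?_).2 ⟨by ring, by ring, ?_, by ring⟩) ?_
    · have h1 : (c0 + c1 + c3) * f = (1 + c2) * f := by rw [hsm]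
      linarith
    · have h1 : (c0 + c1 + c3) * f = (1 + c2) * f := by rw [hsm]
      linarith
    · linarith
    · rcases h' with e | e | e | e | e | e
      · have h0 := key p0 e ha
        exact Or.inr (Or.inr (Or.inr (Or.inl ⟨by rw [h0, ← e]; ring, h0⟩)))
      · have h0 := key p1 e hb
        exact Or.inr (Or.inl ⟨by rw [h0, ← e]; ring, h0⟩)
      · have h0 := key p3 e hd
        exact Or.inl ⟨by rw [h0, ← e]; ring, h0⟩
      · exact Or.inr (Or.inr (Or.inl ⟨key2 e, rfl⟩))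
      · exact Or.inr (Or.inr (Or.inr (Or.inr (Or.inl ⟨key2 e, rfl⟩))))
      · exact Or.inr (Or.inr (Or.inr (Or.inr (Or.inr ⟨rfl, key2 e⟩))))
-- END row trib2

-- BEGIN row extb
private theorem extb_hull (i : Fin 5) {w : E3} (hw : w ∈ convexHull ℝ (v '' {j | j ≠ i})) :
    ∃ a : Fin 5 → ℝ, (∀ j, 0 ≤ a j) ∧ a i = 0 ∧ a 0 + a 1 + a 2 + a 3 + a 4 = 1 ∧
      a 0 • v 0 + a 1 • v 1 + a 2 • v 2 + a 3 • v 3 + a 4 • v 4 = w := by
  let S : Set E3 := {w | ∃ a : Fin 5 → ℝ, (∀ j, 0 ≤ a j) ∧ a i = 0 ∧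
    a 0 + a 1 + a 2 + a 3 + a 4 = 1 ∧
    a 0 • v 0 + a 1 • v 1 + a 2 • v 2 + a 3 • v 3 + a 4 • v 4 = w}
  have hS : Convex ℝ S := by
    rintro x ⟨a, ha, hai, has, rfl⟩ y ⟨b, hb, hbi, hbs, rfl⟩ s t hs ht hst
    refine ⟨fun j => s * a j + t * b j, fun j => ?_, ?_, ?_, ?_⟩
    · exact add_nonneg (mul_nonneg hs (ha j)) (mul_nonneg ht (hb j))
    · simp [hai, hbi]
    · simp only
      linear_combination s * has + t * hbs + hst
    · simp only [smul_add, add_smul, smul_smul]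
      abel
  have hsub : v '' {j | j ≠ i} ⊆ S := by
    rintro _ ⟨j, hj, rfl⟩
    refine ⟨Pi.single j 1, fun l => ?_, ?_, ?_, ?_⟩
    · by_cases h : l = j
      · subst h; simp
      · simp [h]
    · have hj' : j ≠ i := hj
      simp [Ne.symm hj']
    · fin_cases j <;> simp
    · fin_cases j <;> simp
  exact convexHull_min hsub hS hw

/-- The vertices are extreme. PROOF. Suppose `v i = ∑_{j ≠ i} a j • v j` (weights `≥ 0`, sum `1`;
`mem_convexHull_iff_exists_fintype` or `Set.Finite`/`hull` of four points). `C.ev` for both sides (the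
coordinates of `v i` are `C.ev` with the weights of `Pi.single i 1`): `i = 0`: `1 = c0 a4`, and
`0 = a1 + c1 a4`, so `a4 = 0`, contradiction; `i = 1`: the same with `k0`; `i = 3`: the same; `i = 2`:
`1 = k2 = 0 - c2 a4 ≤ 0`; `i = 4`: `- c2 = k2 = a2 ≥ 0`. -/
theorem extb (C : Co v k0 k1 k2 k3 c0 c1 c2 c3) (i : Fin 5) :
    v i ∉ convexHull ℝ (v '' {j | j ≠ i}) := by
  intro hi
  obtain ⟨a, ha, hai, has, hw⟩ := extb_hull i hi
  obtain ⟨h0, h1, h2, h3⟩ := (C.ev _ _ _ _ _ _ has).1 hw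
  have p0 := C.p0
  have p1 := C.p1
  have p2 := C.p2
  have p3 := C.p3
  have a0 := ha 0
  have a1 := ha 1
  have a2 := ha 2
  have a3 := ha 3
  have a4 := ha 4
  fin_cases i
  · obtain ⟨e0, e1, e2, e3⟩ := (C.ev 1 0 0 0 0 (v 0) (by norm_num)).1 (by simp)
    simp only [Fin.zero_eta, Fin.isValue] at h0 h1 h2 h3 hai
    have h4 : a 4 = 0 := by nlinarith [mul_nonneg p1.le a4]
    rw [h4] at h0
    rw [e0, hai] at h0
    norm_num at h0
  · obtain ⟨e0, e1, e2, e3⟩ := (C.ev 0 1 0 0 0 (v 1) (by norm_num)).1 (by simp)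
    simp only [Fin.mk_one, Fin.isValue] at h0 h1 h2 h3 hai
    have h4 : a 4 = 0 := by nlinarith [mul_nonneg p0.le a4]
    rw [h4] at h1
    rw [e1, hai] at h1
    norm_num at h1
  · obtain ⟨e0, e1, e2, e3⟩ := (C.ev 0 0 1 0 0 (v 2) (by norm_num)).1 (by simp)
    simp only [Fin.reduceFinMk, Fin.isValue] at h0 h1 h2 h3 hai
    nlinarith [mul_nonneg p2.le a4]
  · obtain ⟨e0, e1, e2, e3⟩ := (C.ev 0 0 0 1 0 (v 3) (by norm_num)).1 (by simp)
    simp only [Fin.reduceFinMk, Fin.isValue] at h0 h1 h2 h3 hai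
    have h4 : a 4 = 0 := by nlinarith [mul_nonneg p0.le a4]
    rw [h4] at h3
    rw [e3, hai] at h3
    norm_num at h3
  · obtain ⟨e0, e1, e2, e3⟩ := (C.ev 0 0 0 0 1 (v 4) (by norm_num)).1 (by simp)
    simp only [Fin.reduceFinMk, Fin.isValue] at h0 h1 h2 h3 hai
    rw [e2, hai] at h2
    nlinarith
-- END row extb

-- BEGIN row innb
/-- The interior is not empty. PROOF. By `hulb` and the open set of the strict inequalities; the point
with the weights `1/4` at `v 0, v 1, v 2, v 3` (`C.ev`). -/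
theorem innb (C : Co v k0 k1 k2 k3 c0 c1 c2 c3) :
    (interior (convexHull ℝ (range v))).Nonempty := by
  rw [hulb C]
  have hop : IsOpen {w : E3 | 0 < k0 w ∧ 0 < k1 w ∧ 0 < k3 w ∧
      0 < c1 * k2 w + c2 * k1 w ∧ 0 < c0 * k2 w + c2 * k0 w ∧ 0 < c3 * k2 w + c2 * k3 w} := by
    have h0 := C.n0
    have h1 := C.n1
    have h2 := C.n2
    have h3 := C.n3
    simp only [Set.setOf_and]
    refine IsOpen.inter ?_ (IsOpen.inter ?_ (IsOpen.inter ?_ (IsOpen.inter ?_
      (IsOpen.inter ?_ ?_))))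
    all_goals exact isOpen_lt (by fun_prop) (by fun_prop)
  obtain ⟨e0, e1, e2, e3⟩ := (C.ev (1 / 4) (1 / 4) (1 / 4) (1 / 4) 0 _ (by norm_num)).1 rfl
  have p0 := C.p0
  have p1 := C.p1
  have p2 := C.p2
  have p3 := C.p3
  refine ⟨(1 / 4 : ℝ) • v 0 + (1 / 4 : ℝ) • v 1 + (1 / 4 : ℝ) • v 2 + (1 / 4 : ℝ) • v 3 +
    (0 : ℝ) • v 4, mem_interior.2 ⟨_, ?_, hop, ?_⟩⟩
  · rintro u ⟨a1, a2, a3, a4, a5, a6⟩
    exact ⟨a1.le, a2.le, a3.le, a4.le, a5.le, a6.le⟩
  · refine ⟨?_, ?_, ?_, ?_, ?_, ?_⟩ <;> simp only [e0, e1, e2, e3] <;> linarith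
-- END row innb

-- BEGIN row itsb
private theorem itsb_k (C : Co v k0 k1 k2 k3 c0 c1 c2 c3) (x0 x1 x2 x3 x4 : ℝ) (w : E3)
    (hs : x0 + x1 + x2 + x3 + x4 = 1)
    (hw : x0 • v 0 + x1 • v 1 + x2 • v 2 + x3 • v 3 + x4 • v 4 = w) : k1 w = x1 + c1 * x4 :=
  ((C.ev x0 x1 x2 x3 x4 w hs).1 hw).2.1

private theorem itsb_z {c a x : ℝ} (hc : 0 < c) (ha : 0 ≤ a) (hx : 0 ≤ x) (h : a + c * x = 0) :
    a = 0 ∧ x = 0 := by
  have h1 : 0 ≤ c * x := mul_nonneg hc.le hx
  have h2 : a = 0 := by linarith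
  have h3 : c * x = 0 := by linarith
  exact ⟨h2, (mul_eq_zero.1 h3).resolve_left hc.ne'⟩

/-- The face `023` and the other faces. PROOF. As `its` in Ex.lean: on `Tri v 0 2 3` `k1 = 0`
(`C.ev`); a point of another face has the weights `a1`, `a4` with `a1 + c1 a4 = 0`, so both are zero. -/
theorem itsb (C : Co v k0 k1 k2 k3 c0 c1 c2 c3) : Tri v 0 2 3 ∩ Rest v ⊆
      segment ℝ (v 0) (v 2) ∪ segment ℝ (v 0) (v 3) ∪ segment ℝ (v 2) (v 3) ∧
    IsClosed (Rest v) ∧ Sur v = Tri v 0 2 3 ∪ Rest v ∧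
    v 1 ∉ Tri v 0 2 3 ∧ v 4 ∉ Tri v 0 2 3 := by
  have hz : ∀ w ∈ Tri v 0 2 3, k1 w = 0 := by
    intro w hw
    obtain ⟨a, b, c, -, -, -, hs, rfl⟩ := (hull3 _ _ _ _).1 hw
    rw [itsb_k C a 0 b c 0 (a • v 0 + b • v 2 + c • v 3) (by linarith) (by simp)]
    ring
  refine ⟨?_, ?_, ?_, ?_, ?_⟩
  · rintro w ⟨hw, hw'⟩
    have h0 := hz w hw
    rcases hw' with (h | h) | ((h | h) | h)
    · obtain ⟨a, b, c, ha, hb, hc, hs, rfl⟩ := (hull3 _ _ _ _).1 h
      rw [itsb_k C a b c 0 0 (a • v 0 + b • v 1 + c • v 2) (by linarith) (by simp)] at h0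
      obtain rfl : b = 0 := by linarith
      exact Or.inl (Or.inl ⟨a, c, ha, hc, by linarith, by rw [zero_smul, add_zero]⟩)
    · obtain ⟨a, b, c, ha, hb, hc, hs, rfl⟩ := (hull3 _ _ _ _).1 h
      rw [itsb_k C a 0 0 b c (a • v 0 + b • v 3 + c • v 4) (by linarith) (by simp)] at h0
      obtain ⟨-, rfl⟩ := itsb_z C.p1 le_rfl hc h0
      exact Or.inl (Or.inr ⟨a, b, ha, hb, by linarith, by rw [zero_smul, add_zero]⟩)
    · obtain ⟨a, b, c, ha, hb, hc, hs, rfl⟩ := (hull3 _ _ _ _).1 h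
      have e1 : sh v 0 = v 1 := rfl
      have e2 : sh v 1 = v 2 := rfl
      have e3 : sh v 2 = v 3 := rfl
      rw [e1, e2, e3] at h0 ⊢
      rw [itsb_k C 0 a b c 0 (a • v 1 + b • v 2 + c • v 3) (by linarith) (by simp)] at h0
      obtain rfl : a = 0 := by linarith
      exact Or.inr ⟨b, c, hb, hc, by linarith, by rw [zero_smul, zero_add]⟩
    · obtain ⟨a, b, c, ha, hb, hc, hs, rfl⟩ := (hull3 _ _ _ _).1 h
      have e1 : sh v 0 = v 1 := rfl
      have e2 : sh v 2 = v 3 := rfl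
      have e3 : sh v 3 = v 4 := rfl
      rw [e1, e2, e3] at h0 ⊢
      rw [itsb_k C 0 a 0 b c (a • v 1 + b • v 3 + c • v 4) (by linarith) (by simp)] at h0
      obtain ⟨rfl, rfl⟩ := itsb_z C.p1 ha hc h0
      obtain rfl : b = 1 := by linarith
      rw [zero_smul, zero_smul, one_smul, zero_add, add_zero]
      exact Or.inr (right_mem_segment ℝ _ _)
    · obtain ⟨a, b, c, ha, hb, hc, hs, rfl⟩ := (hull3 _ _ _ _).1 h
      have e1 : sh v 0 = v 1 := rfl
      have e2 : sh v 3 = v 4 := rfl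
      have e3 : sh v 4 = v 0 := rfl
      rw [e1, e2, e3] at h0 ⊢
      rw [itsb_k C c a 0 0 b (a • v 1 + b • v 4 + c • v 0) (by linarith)
        (by simp only [zero_smul, add_zero]; abel)] at h0
      obtain ⟨rfl, rfl⟩ := itsb_z C.p1 ha hb h0
      obtain rfl : c = 1 := by linarith
      rw [zero_smul, zero_smul, one_smul, zero_add, zero_add]
      exact Or.inl (Or.inl (left_mem_segment ℝ _ _))
  · have hc : ∀ (v : Fin 5 → E3) (i j k : Fin 5), IsClosed (Tri v i j k) := fun v i j k =>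
      (Set.toFinite _).isClosed_convexHull ℝ
    exact ((hc _ _ _ _).union (hc _ _ _ _)).union (((hc _ _ _ _).union (hc _ _ _ _)).union (hc _ _ _ _))
  · ext w
    simp only [Sur, Rest, Front, mem_union]
    tauto
  · intro h
    have h1 := hz _ h
    rw [itsb_k C 0 1 0 0 0 (v 1) (by norm_num) (by simp)] at h1
    norm_num at h1
  · intro h
    have h1 := hz _ h
    rw [itsb_k C 0 0 0 0 1 (v 4) (by norm_num) (by simp)] at h1
    have h2 := C.p1
    linarith
-- END row itsb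

-- BEGIN row strb
/-- In the face `023` the straight segment is the only shortest path. PROOF. The proof of `str` in
Ex.lean with `v` for `vx`. -/
theorem strb (v : Fin 5 → E3) {x : E3} (hx : x ∈ Tri v 0 2 3) (i : Fin 5)
    (hi : i = 0 ∨ i = 2 ∨ i = 3) : OneShortest v x (v i) (dist x (v i)) := by
  have hv : v i ∈ Tri v 0 2 3 := by
    rcases hi with rfl | rfl | rfl
    · exact subset_convexHull ℝ _ (by simp)
    · exact subset_convexHull ℝ _ (by simp)
    · exact subset_convexHull ℝ _ (by simp)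
  have hs : segment ℝ x (v i) ⊆ Tri v 0 2 3 :=
    (convex_convexHull ℝ _).segment_subset hx hv
  refine ⟨v i, ?_, by rw [dist_self, add_zero], fun n c h => ?_⟩
  · rw [segment_same]
    intro w hw
    rcases hw with hw | hw
    · exact Or.inl (Or.inr (hs hw))
    · rw [mem_singleton_iff] at hw
      rw [hw]
      exact Or.inl (Or.inr hv)
  · refine ⟨len_ge _ _ _ n c h, fun he j hj => ?_⟩
    have h0 : 0 < n := by omega
    have hz : x ∈ segment ℝ (c 0) (c (0 + 1)) := by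
      rw [h.1]
      exact left_mem_segment ℝ _ _
    have h2 := (thru h h0 hz).2 (by rw [dist_self, zero_add]; exact he) j hj
    rw [segment_same] at h2
    intro w hw
    rcases h2 hw with h3 | h3
    · rw [mem_singleton_iff] at h3
      rw [h3]
      exact Or.inl (left_mem_segment ℝ _ _)
    · exact Or.inl h3
-- END row strb

-- BEGIN row sideb1
private theorem sideb1_set {α : Type*} (a b c : α) : ({c, a, b} : Set α) = {a, b, c} := by
  rw [Set.insert_comm c a, Set.pair_comm c b]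

/-- The vertex `v 1`. PROOF. As `side1` in Ex.lean: `leg` with `R = Rest v`, `A, B, C, D = v 3, v 0,
v 2, v 1`; `hcr` from `opp` (Tet.lean) and `D.opp2`; `hI`, closedness from `itsb`; `hB`, `hC` from `hn`
(`v 0`, `v 2` are end points of the two segments). -/
theorem sideb1 (C : Co v k0 k1 k2 k3 c0 c1 c2 c3) {p : Fin 5 → ℂ} (D : Dev v p) {x m : E3}
    (hm : m ∈ segment ℝ (v 0) (v 2))
    (hn : ∀ y ∈ segment ℝ (v 0) (v 3) ∪ segment ℝ (v 2) (v 3),
      dist x m + dist m (v 1) < dist x y + dist y (v 1)) {α β γ : ℝ} (h0 : 0 ≤ α) (h1 : 0 ≤ β)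
    (h2 : 0 ≤ γ) (hs : α + β + γ = 1) (hx : α • v 3 + β • v 0 + γ • v 2 = x) :
    OneShortest v x (v 1) (dist (α • p 3 + β • p 0 + γ • p 2) (p 1)) ∧
      segment ℝ (α • p 3 + β • p 0 + γ • p 2) (p 1) ⊆ Pent p := by
  obtain ⟨i1, i2, i3, i4, -⟩ := itsb C
  have hne : p 0 ≠ p 2 := by
    intro he
    have h3 := D.d02
    rw [he, dist_self] at h3
    have h4 : v 0 = v 2 := dist_eq_zero.1 h3.symm
    have h5 := ((C.ev 1 0 0 0 0 (v 0) (by norm_num)).1 (by simp)).2.2.1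
    have h6 := ((C.ev 0 0 1 0 0 (v 2) (by norm_num)).1 (by simp)).2.2.1
    rw [h4, h6] at h5
    norm_num at h5
  obtain ⟨s, t, hcr⟩ := opp hne D.opp2.symm
  have hT : convexHull ℝ {v 3, v 0, v 2} = Tri v 0 2 3 := by
    unfold Tri
    rw [sideb1_set]
  have hI : convexHull ℝ {v 3, v 0, v 2} ∩ Rest v ⊆ segment ℝ (v 0) (v 2) ∪
      {y | dist x m + dist m (v 1) < dist x y + dist y (v 1)} := by
    intro y hy
    rw [hT] at hy
    rcases i1 hy with (h4 | h4) | h4
    · exact Or.inl h4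
    · exact Or.inr (hn y (Or.inl h4))
    · exact Or.inr (hn y (Or.inr h4))
  obtain ⟨q, hq, hqd, hp, hseg⟩ := leg (R := Rest v) (x := x) (m := m) hcr
    (by rw [dist_comm (v 3), dist_comm (p 3)]; exact D.d03.symm)
    (by rw [dist_comm (v 3), dist_comm (p 3)]; exact D.d23.symm)
    D.d02.symm D.d01.symm
    (by rw [dist_comm (v 2), dist_comm (p 2)]; exact D.d12.symm)
    i2 (by rw [hT]; exact i4) hI hm
    (hn _ (Or.inl (left_mem_segment ℝ _ _))) (hn _ (Or.inr (left_mem_segment ℝ _ _)))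
    h0 h1 h2 hs hx
  have hqs : q ∈ segment ℝ (v 0) (v 2) := openSegment_subset_segment ℝ _ _ hq
  refine ⟨⟨q, ?_, hqd, ?_⟩, ?_⟩
  · apply Set.union_subset
    · have hx' : x ∈ Tri v 0 2 3 := by
        rw [← hT]
        exact (hull3 _ _ _ _).2 ⟨α, β, γ, h0, h1, h2, hs, hx⟩
      have hq' : q ∈ Tri v 0 2 3 := (convex_convexHull ℝ _).segment_subset
        (subset_convexHull ℝ _ (by simp)) (subset_convexHull ℝ _ (by simp)) hqs
      exact ((convex_convexHull ℝ _).segment_subset hx' hq').trans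
        (fun w hw => Or.inl (Or.inr hw))
    · have hq' : q ∈ Tri v 0 1 2 := (convex_convexHull ℝ _).segment_subset
        (subset_convexHull ℝ _ (by simp)) (subset_convexHull ℝ _ (by simp)) hqs
      exact ((convex_convexHull ℝ _).segment_subset hq'
        (subset_convexHull ℝ _ (by simp))).trans (fun w hw => Or.inl (Or.inl hw))
  · intro n c hc
    rw [i3, ← hT] at hc
    obtain ⟨h3, h4⟩ := hp n c hc
    rw [← hqd]
    exact ⟨h3, h4⟩
  · refine hseg.trans ?_
    intro w hw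
    unfold Pent
    rcases hw with hw | hw
    · rw [sideb1_set] at hw
      exact Or.inl (Or.inr hw)
    · rw [Set.pair_comm (p 2) (p 1)] at hw
      exact Or.inl (Or.inl hw)
-- END row sideb1

-- BEGIN row sideb4
/-- The vertex `v 4`. PROOF. As `side4` in Ex.lean, see `sideb1`; `A, B, C, D = v 2, v 0, v 3, v 4`. -/
theorem sideb4 (C : Co v k0 k1 k2 k3 c0 c1 c2 c3) {p : Fin 5 → ℂ} (D : Dev v p) {x m : E3}
    (hm : m ∈ segment ℝ (v 0) (v 3))
    (hn : ∀ y ∈ segment ℝ (v 0) (v 2) ∪ segment ℝ (v 2) (v 3),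
      dist x m + dist m (v 4) < dist x y + dist y (v 4)) {α β γ : ℝ} (h0 : 0 ≤ α) (h1 : 0 ≤ β)
    (h2 : 0 ≤ γ) (hs : α + β + γ = 1) (hx : α • v 2 + β • v 0 + γ • v 3 = x) :
    OneShortest v x (v 4) (dist (α • p 2 + β • p 0 + γ • p 3) (p 4)) ∧
      segment ℝ (α • p 2 + β • p 0 + γ • p 3) (p 4) ⊆ Pent p := by
  obtain ⟨hi1, hcl, hSur, -, hv4⟩ := itsb C
  have hT : convexHull ℝ {v 2, v 0, v 3} = Tri v 0 2 3 := by
    unfold Tri
    rw [Set.insert_comm]
  have hbc : p 0 ≠ p 3 := by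
    intro hh
    have h3 := D.d03
    rw [hh, dist_self] at h3
    have h4 : v 0 = v 3 := dist_eq_zero.1 h3.symm
    have h5 := ((C.ev 1 0 0 0 0 (v 0) (by norm_num)).1 (by simp)).1
    have h6 := ((C.ev 0 0 0 1 0 (v 3) (by norm_num)).1 (by simp)).1
    rw [h4, h6] at h5
    norm_num at h5
  obtain ⟨s, t, hcr⟩ := opp hbc D.opp3
  have e1 : dist (v 2) (v 0) = dist (p 2) (p 0) := by
    rw [dist_comm (v 2), dist_comm (p 2), D.d02]
  have e2 : dist (v 2) (v 3) = dist (p 2) (p 3) := D.d23.symm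
  have e3 : dist (v 0) (v 3) = dist (p 0) (p 3) := D.d03.symm
  have e4 : dist (v 0) (v 4) = dist (p 0) (p 4) := D.d04.symm
  have e5 : dist (v 3) (v 4) = dist (p 3) (p 4) := D.d34.symm
  have hI : convexHull ℝ {v 2, v 0, v 3} ∩ Rest v ⊆
      segment ℝ (v 0) (v 3) ∪ {y | dist x m + dist m (v 4) < dist x y + dist y (v 4)} := by
    rw [hT]
    intro y hy
    rcases hi1 hy with (h3 | h3) | h3
    · exact Or.inr (hn y (Or.inl h3))
    · exact Or.inl h3
    · exact Or.inr (hn y (Or.inr h3))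
  obtain ⟨q, hq, hql, hpath, hseg⟩ := leg (R := Rest v) (m := m) hcr e1 e2 e3 e4 e5 hcl
    (by rw [hT]; exact hv4) hI hm (hn _ (Or.inl (left_mem_segment ℝ _ _)))
    (hn _ (Or.inr (right_mem_segment ℝ _ _))) h0 h1 h2 hs hx
  have hq' : q ∈ segment ℝ (v 0) (v 3) := openSegment_subset_segment _ _ _ hq
  have hxT : x ∈ Tri v 0 2 3 := by
    rw [← hT]
    exact (hull3 _ _ _ _).2 ⟨α, β, γ, h0, h1, h2, hs, hx⟩
  have hc1 : Convex ℝ (Tri v 0 2 3) := convex_convexHull _ _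
  have hc2 : Convex ℝ (Tri v 0 3 4) := convex_convexHull _ _
  have hqT : q ∈ Tri v 0 2 3 :=
    hc1.segment_subset (subset_convexHull _ _ (by simp)) (subset_convexHull _ _ (by simp)) hq'
  have hqT' : q ∈ Tri v 0 3 4 :=
    hc2.segment_subset (subset_convexHull _ _ (by simp)) (subset_convexHull _ _ (by simp)) hq'
  have h4T : v 4 ∈ Tri v 0 3 4 := subset_convexHull _ _ (by simp)
  refine ⟨⟨q, ?_, hql, ?_⟩, ?_⟩
  · rintro z (hz | hz)
    · exact Or.inl (Or.inr (hc1.segment_subset hxT hqT hz))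
    · exact Or.inr (hc2.segment_subset hqT' h4T hz)
  · intro n c hc
    rw [hSur, ← hT] at hc
    rw [← hql]
    exact hpath n c hc
  · intro z hz
    rcases hseg hz with h3 | h3
    · rw [Set.insert_comm] at h3
      exact Or.inl (Or.inr h3)
    · exact Or.inr h3
-- END row sideb4

-- BEGIN row finb
/-- All vertices. PROOF. As `fin` in Ex.lean, with `sideb1`, `sideb4`, `strb`, `tri_iso`. -/
theorem finb (C : Co v k0 k1 k2 k3 c0 c1 c2 c3) {p : Fin 5 → ℂ} (D : Dev v p) {x m m' : E3}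
    (hm : m ∈ segment ℝ (v 0) (v 2))
    (hn : ∀ y ∈ segment ℝ (v 0) (v 3) ∪ segment ℝ (v 2) (v 3),
      dist x m + dist m (v 1) < dist x y + dist y (v 1))
    (hm' : m' ∈ segment ℝ (v 0) (v 3))
    (hn' : ∀ y ∈ segment ℝ (v 0) (v 2) ∪ segment ℝ (v 2) (v 3),
      dist x m' + dist m' (v 4) < dist x y + dist y (v 4)) (hx : x ∈ Tri v 0 2 3) :
    ∃ X ∈ Pent p, ∀ i, segment ℝ X (p i) ⊆ Pent p ∧ OneShortest v x (v i) (dist X (p i)) := by
  obtain ⟨a, b, c, ha, hb, hc, hs, hxe⟩ := (hull3 _ _ _ _).1 hx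
  have v1 : c • v 3 + a • v 0 + b • v 2 = x := by rw [← hxe]; abel
  have v4 : b • v 2 + a • v 0 + c • v 3 = x := by rw [← hxe]; abel
  have s1 := sideb1 C D hm hn hc ha hb (by linarith) v1
  have s4 := sideb4 C D hm' hn' hb ha hc (by linarith) v4
  have p1 : c • p 3 + a • p 0 + b • p 2 = a • p 0 + b • p 2 + c • p 3 := by abel
  have p4 : b • p 2 + a • p 0 + c • p 3 = a • p 0 + b • p 2 + c • p 3 := by abel
  rw [p1] at s1
  rw [p4] at s4
  have hX : a • p 0 + b • p 2 + c • p 3 ∈ convexHull ℝ {p 0, p 2, p 3} :=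
    (hull3 _ _ _ _).2 ⟨a, b, c, ha, hb, hc, hs, rfl⟩
  have iso : ∀ a' b' c' : ℝ, a' + b' + c' = 1 →
      dist x (a' • v 0 + b' • v 2 + c' • v 3) =
        dist (a • p 0 + b • p 2 + c • p 3) (a' • p 0 + b' • p 2 + c' • p 3) := by
    intro a' b' c' h'
    rw [← hxe]
    exact tri_iso _ _ _ _ _ _ D.d02.symm D.d03.symm D.d23.symm _ _ _ _ _ _ hs h'
  have e0 := iso 1 0 0 (by ring)
  have e2 := iso 0 1 0 (by ring)
  have e3 := iso 0 0 1 (by ring)
  simp only [zero_smul, zero_add, add_zero, one_smul] at e0 e2 e3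
  have sub : convexHull ℝ {p 0, p 2, p 3} ⊆ Pent p := fun z hz => Or.inl (Or.inr hz)
  have seg : ∀ i : Fin 5, p i ∈ ({p 0, p 2, p 3} : Set ℂ) →
      segment ℝ (a • p 0 + b • p 2 + c • p 3) (p i) ⊆ Pent p := fun i hi =>
    ((convex_convexHull ℝ _).segment_subset hX (subset_convexHull ℝ _ hi)).trans sub
  refine ⟨a • p 0 + b • p 2 + c • p 3, sub hX, fun i => ?_⟩
  fin_cases i
  · exact ⟨seg 0 (by simp), by have := strb v hx 0 (by simp); rw [e0] at this; exact this⟩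
  · exact ⟨s1.2, s1.1⟩
  · exact ⟨seg 2 (by simp), by have := strb v hx 2 (by simp); rw [e2] at this; exact this⟩
  · exact ⟨seg 3 (by simp), by have := strb v hx 3 (by simp); rw [e3] at this; exact this⟩
  · exact ⟨s4.2, s4.1⟩
-- END row finb

-- BEGIN row ideb
private def ideb_tab : Fin 5 → Fin 5 → Fin 5 :=
  ![![0, 1, 2, 3, 1], ![1, 0, 1, 2, 3], ![2, 1, 0, 1, 4], ![3, 2, 1, 0, 1], ![1, 3, 4, 1, 0]]

private def ideb_val (a b c : ℝ) : Fin 5 → ℝ := ![0, 36, a, b, c]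

private theorem ideb_inj {a b c : ℝ} (a0 : a ≠ 0) (a1 : a ≠ 36) (b0 : b ≠ 0) (b1 : b ≠ 36)
    (ab : a ≠ b) (d0 : c ≠ 0) (d1 : c ≠ 36) (ca : c ≠ a) (cb : c ≠ b) :
    ∀ x y : Fin 5, ideb_val a b c x = ideb_val a b c y → x = y := by
  have z : (0 : ℝ) ≠ 36 := by norm_num
  intro x y h
  fin_cases x <;> fin_cases y <;>
    first
    | rfl
    | exact absurd h z
    | exact absurd h.symm z
    | exact absurd h a0
    | exact absurd h.symm a0
    | exact absurd h a1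
    | exact absurd h.symm a1
    | exact absurd h b0
    | exact absurd h.symm b0
    | exact absurd h b1
    | exact absurd h.symm b1
    | exact absurd h ab
    | exact absurd h.symm ab
    | exact absurd h d0
    | exact absurd h.symm d0
    | exact absurd h d1
    | exact absurd h.symm d1
    | exact absurd h ca
    | exact absurd h.symm ca
    | exact absurd h cb
    | exact absurd h.symm cb

private theorem ideb_fix (C : Co v k0 k1 k2 k3 c0 c1 c2 c3) (g : E3 ≃ᵢ E3) (f0 : g (v 0) = v 0)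
    (f1 : g (v 1) = v 1) (f2 : g (v 2) = v 2) (f3 : g (v 3) = v 3) :
    g = IsometryEquiv.refl E3 := by
  refine IsometryEquiv.ext fun w => ?_
  change g w = w
  have hL : ∀ x y : E3, g.toRealAffineIsometryEquiv.linearIsometryEquiv (x - y) = g x - g y :=
    fun x y => g.toRealAffineIsometryEquiv.map_vsub x y
  have e := (C.ev (k0 w) (k1 w) (k2 w) (k3 w) 0 w (by linarith [C.su w])).2
    ⟨by ring, by ring, by ring, by ring⟩
  have hk : k0 w = 1 - k1 w - k2 w - k3 w := by linarith [C.su w]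
  rw [hk] at e
  have e1 : w - v 0 = k1 w • (v 1 - v 0) + k2 w • (v 2 - v 0) + k3 w • (v 3 - v 0) := by
    calc w - v 0 = ((1 - k1 w - k2 w - k3 w) • v 0 + k1 w • v 1 + k2 w • v 2 + k3 w • v 3 +
          (0 : ℝ) • v 4) - v 0 := by rw [e]
      _ = _ := by module
  have e2 : g.toRealAffineIsometryEquiv.linearIsometryEquiv (w - v 0) = w - v 0 := by
    rw [e1, map_add, map_add, map_smul, map_smul, map_smul, hL, hL, hL, f0, f1, f2, f3]
  have e3 := hL w (v 0)
  rw [e2, f0] at e3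
  exact (sub_left_inj.1 e3).symm

/-- Only the identity. PROOF. As `ide` in Ex.lean. `g` permutes the vertices, `σ`; the pair `2, 4` is
the only one with the squared distance `c`, `2` has a partner with `a` (`0`) and `4` has none (its
squared distances are `b, 36, c`, and `a` is none of them); so `σ 2 = 2`, `σ 4 = 4`; `0` is the only
partner of `2` with `a` (`1, 3` have `36`), `1` the only partner of `4` with `b`, `3` the rest. So `g`
fixes `v 0, v 1, v 2, v 3`, and an isometry is affine (`IsometryEquiv.toRealAffineIsometryEquiv`):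
`w = k0 w • v 0 + ...` (`C.ev` with `a4 = 0`). -/
theorem ideb (C : Co v k0 k1 k2 k3 c0 c1 c2 c3) {a b c : ℝ}
    (h01 : dist (v 0) (v 1) ^ 2 = 36) (h12 : dist (v 1) (v 2) ^ 2 = 36)
    (h23 : dist (v 2) (v 3) ^ 2 = 36) (h34 : dist (v 3) (v 4) ^ 2 = 36)
    (h04 : dist (v 0) (v 4) ^ 2 = 36) (h02 : dist (v 0) (v 2) ^ 2 = a)
    (h13 : dist (v 1) (v 3) ^ 2 = a) (h03 : dist (v 0) (v 3) ^ 2 = b)
    (h14 : dist (v 1) (v 4) ^ 2 = b) (h24 : dist (v 2) (v 4) ^ 2 = c)
    (a0 : a ≠ 0) (a1 : a ≠ 36) (b0 : b ≠ 0) (b1 : b ≠ 36) (ab : a ≠ b) (d0 : c ≠ 0) (d1 : c ≠ 36)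
    (ca : c ≠ a) (cb : c ≠ b)
    (g : E3 ≃ᵢ E3) (h : g '' range v = range v) : g = IsometryEquiv.refl E3 := by
  have hz : ∀ x : E3, dist x x ^ 2 = 0 := fun x => by rw [dist_self, zero_pow two_ne_zero]
  have hc : ∀ {x y : E3} {t : ℝ}, dist x y ^ 2 = t → dist y x ^ 2 = t := fun {x y t} h => by
    rw [dist_comm]; exact h
  have hd : ∀ i j : Fin 5, dist (v i) (v j) ^ 2 = ideb_val a b c (ideb_tab i j) := by
    intro i j
    fin_cases i
    · fin_cases j
      · exact hz _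
      · exact h01
      · exact h02
      · exact h03
      · exact h04
    · fin_cases j
      · exact hc h01
      · exact hz _
      · exact h12
      · exact h13
      · exact h14
    · fin_cases j
      · exact hc h02
      · exact hc h12
      · exact hz _
      · exact h23
      · exact h24
    · fin_cases j
      · exact hc h03
      · exact hc h13
      · exact hc h23
      · exact hz _
      · exact h34
    · fin_cases j
      · exact hc h04
      · exact hc h14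
      · exact hc h24
      · exact hc h34
      · exact hz _
  have h1 : ∀ i, ∃ j, v j = g (v i) := by
    intro i
    have h2 : g (v i) ∈ g '' range v := mem_image_of_mem g (mem_range_self i)
    rw [h] at h2
    exact h2
  choose σ hσ using h1
  have hN : ∀ i j, ideb_tab (σ i) (σ j) = ideb_tab i j := by
    intro i j
    refine ideb_inj a0 a1 b0 b1 ab d0 d1 ca cb _ _ ?_
    rw [← hd, ← hd, hσ, hσ, g.dist_eq]
  have t1 : ∀ a b : Fin 5, ideb_tab a b = 4 → (a = 2 ∧ b = 4) ∨ (a = 4 ∧ b = 2) := by decide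
  have t2 : ∀ b : Fin 5, ideb_tab 4 b ≠ 2 := by decide
  have t3 : ∀ b : Fin 5, ideb_tab 2 b = 2 → b = 0 := by decide
  have t4 : ∀ b : Fin 5, ideb_tab b 4 = 3 → b = 1 := by decide
  have t5 : ∀ b : Fin 5, ideb_tab b 0 = 3 → b = 3 := by decide
  have s2 : σ 2 = 2 ∧ σ 4 = 4 := by
    rcases t1 (σ 2) (σ 4) (hN 2 4) with h2 | h2
    · exact h2
    · exfalso
      have h3 : ideb_tab (σ 2) (σ 0) = 2 := hN 2 0
      rw [h2.1] at h3
      exact t2 _ h3
  have s0 : σ 0 = 0 := by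
    have h3 : ideb_tab (σ 2) (σ 0) = 2 := hN 2 0
    rw [s2.1] at h3
    exact t3 _ h3
  have s1 : σ 1 = 1 := by
    have h3 : ideb_tab (σ 1) (σ 4) = 3 := hN 1 4
    rw [s2.2] at h3
    exact t4 _ h3
  have s3 : σ 3 = 3 := by
    have h3 : ideb_tab (σ 3) (σ 0) = 3 := hN 3 0
    rw [s0] at h3
    exact t5 _ h3
  exact ideb_fix C g (by rw [← hσ, s0]) (by rw [← hσ, s1]) (by rw [← hσ, s2.1]) (by rw [← hσ, s3])
-- END row ideb

-- BEGIN row polb
/-- The polyhedron. PROOF. `⟨extb C, innb C, _⟩`, `hulb`, `frob`, `trib1`, `trib2`. -/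
theorem polb (C : Co v k0 k1 k2 k3 c0 c1 c2 c3) : Poly v := by
  refine ⟨extb C, innb C, ?_⟩
  rw [hulb C, frob C]
  exact Set.Subset.antisymm (fun w hw => trib2 C w hw.1 hw.2) (fun w hw => trib1 C w hw)
-- END row polb

end

/-- The orientation of the triangle `a, b, c`. -/
def ori (a b c : ℂ) : ℝ := (b - a).re * (c - a).im - (b - a).im * (c - a).re

-- BEGIN row cvxb
private theorem cvxb_cyc (a b c : ℂ) : ori a b c = ori b c a := by
  unfold ori
  simp only [Complex.sub_re, Complex.sub_im]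
  ring

private theorem cvxb_sw (a b c : ℂ) : ori a c b = -ori a b c := by
  unfold ori
  simp only [Complex.sub_re, Complex.sub_im]
  ring

private theorem cvxb_z (a b : ℂ) : ori a b a = 0 := by
  unfold ori
  simp only [Complex.sub_re, Complex.sub_im]
  ring

private theorem cvxb_y (a b : ℂ) : ori a b b = 0 := by
  unfold ori
  simp only [Complex.sub_re, Complex.sub_im]
  ring

private theorem cvxb_neg (a w : ℂ) : ori 0 a w = -ori a 0 w := by
  unfold ori
  simp only [Complex.sub_re, Complex.sub_im, Complex.zero_re, Complex.zero_im]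
  ring

private theorem cvxb_lin (a b : ℝ) : IsLinearMap ℝ (fun w : ℂ => a * w.re + b * w.im) := by
  constructor
  · intro x y
    simp only [Complex.add_re, Complex.add_im]
    ring
  · intro c x
    simp only [Complex.smul_re, Complex.smul_im, smul_eq_mul]
    ring

private theorem cvxb_le (a b : ℂ) (s : Set ℂ) (h : ∀ z ∈ s, ori a b z ≤ 0) (w : ℂ)
    (hw : w ∈ convexHull ℝ s) : ori a b w ≤ 0 := by
  have e : ∀ z, ori a b z = ((-(b - a).im) * z.re + (b - a).re * z.im) -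
      ((b - a).re * a.im - (b - a).im * a.re) := by
    intro z
    unfold ori
    simp only [Complex.sub_re, Complex.sub_im]
    ring
  have hm : w ∈ {z : ℂ | (-(b - a).im) * z.re + (b - a).re * z.im ≤
      (b - a).re * a.im - (b - a).im * a.re} := by
    refine convexHull_min ?_ (convex_halfSpace_le (cvxb_lin _ _) _) hw
    intro z hz
    have h1 := h z hz
    rw [e] at h1
    have h2 : (-(b - a).im) * z.re + (b - a).re * z.im ≤
        (b - a).re * a.im - (b - a).im * a.re := by linarith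
    exact h2
  have hm' : (-(b - a).im) * w.re + (b - a).re * w.im ≤
      (b - a).re * a.im - (b - a).im * a.re := hm
  rw [e]
  linarith

private theorem cvxb_five {P : Fin 5 → Prop} (h0 : P 0) (h1 : P 1) (h2 : P 2) (h3 : P 3)
    (h4 : P 4) (i : Fin 5) : P i := by
  fin_cases i
  · exact h0
  · exact h1
  · exact h2
  · exact h3
  · exact h4

private theorem cvxb_sec {a b w : ℂ} (h : ori 0 a b < 0) (h1 : 0 ≤ ori 0 b w)
    (h2 : ori 0 a w ≤ 0) (h3 : ori a b w ≤ 0) : w ∈ convexHull ℝ {0, a, b} := by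
  unfold ori at h h1 h2 h3
  simp only [sub_zero] at h h1 h2
  exact sec (by linarith) h1 (by linarith) h3

/-- A convex pentagon. PROOF. See `pcon` in Ex.lean. `⊆`: `convexHull_mono`. `⊇`: by `convexHull_min`
the points of the hull satisfy the inequalities of the sides `ori (p i) (p (i+1)) w ≤ 0`; then three
cases by the signs of `ori 0 (p 2) w`, `ori 0 (p 3) w` and `sec` (`p 0 = 0`). Corners: the line through
the two neighbours of `p i` separates `p i` strictly from the two other points. -/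
theorem cvxb {p : Fin 5 → ℂ} (h0 : p 0 = 0)
    (h : ∀ i j k : Fin 5, i < j → j < k → ori (p i) (p j) (p k) < 0) : ConvexPent p := by
  have h012 := h 0 1 2 (by decide) (by decide)
  have h013 := h 0 1 3 (by decide) (by decide)
  have h014 := h 0 1 4 (by decide) (by decide)
  have h023 := h 0 2 3 (by decide) (by decide)
  have h024 := h 0 2 4 (by decide) (by decide)
  have h034 := h 0 3 4 (by decide) (by decide)
  have h123 := h 1 2 3 (by decide) (by decide)
  have h124 := h 1 2 4 (by decide) (by decide)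
  have h134 := h 1 3 4 (by decide) (by decide)
  have h234 := h 2 3 4 (by decide) (by decide)
  have c : ∀ i j k : Fin 5, ori (p i) (p j) (p k) < 0 → ori (p k) (p i) (p j) < 0 := by
    intro i j k hh
    rw [cvxb_cyc]
    exact hh
  constructor
  · apply Set.Subset.antisymm
    · refine Set.union_subset (Set.union_subset ?_ ?_) ?_ <;>
        refine convexHull_mono ?_ <;> rintro _ (rfl | rfl | rfl) <;> exact Set.mem_range_self _
    · intro w hw
      have q : ∀ i j : Fin 5, (∀ k, ori (p i) (p j) (p k) ≤ 0) → ori (p i) (p j) w ≤ 0 := by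
        intro i j hh
        refine cvxb_le _ _ _ ?_ w hw
        rintro _ ⟨k, rfl⟩
        exact hh k
      have q1 := q 0 1 (cvxb_five (cvxb_z _ _).le (cvxb_y _ _).le h012.le h013.le h014.le)
      have q2 := q 1 2 (cvxb_five (c 0 1 2 h012 |> c 2 0 1).le (cvxb_z _ _).le (cvxb_y _ _).le
        h123.le h124.le)
      have q3 := q 2 3 (cvxb_five (c 0 2 3 h023 |> c 3 0 2).le (c 1 2 3 h123 |> c 3 1 2).le
        (cvxb_z _ _).le (cvxb_y _ _).le h234.le)
      have q4 := q 3 4 (cvxb_five (c 0 3 4 h034 |> c 4 0 3).le (c 1 3 4 h134 |> c 4 1 3).le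
        (c 2 3 4 h234 |> c 4 2 3).le (cvxb_z _ _).le (cvxb_y _ _).le)
      have q5 := q 4 0 (cvxb_five (cvxb_y _ _).le (c 0 1 4 h014).le (c 0 2 4 h024).le
        (c 0 3 4 h034).le (cvxb_z _ _).le)
      unfold Pent
      rw [h0]
      rw [h0] at q1 q5 h012 h023 h034
      rcases le_total 0 (ori 0 (p 2) w) with h1 | h1
      · exact Or.inl (Or.inl (cvxb_sec h012 h1 q1 q2))
      · rcases le_total 0 (ori 0 (p 3) w) with h2 | h2
        · exact Or.inl (Or.inr (cvxb_sec h023 h2 h1 q3))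
        · refine Or.inr (cvxb_sec h034 ?_ h2 q4)
          rw [cvxb_neg]
          linarith
  · have key : ∀ i a b : Fin 5, 0 < ori (p a) (p b) (p i) →
        (∀ j, j ≠ i → ori (p a) (p b) (p j) ≤ 0) →
        p i ∉ convexHull ℝ (p '' {j | j ≠ i}) := by
      intro i a b h1 h2 hm
      refine absurd (cvxb_le (p a) (p b) _ ?_ _ hm) (not_le.2 h1)
      rintro _ ⟨j, hj, rfl⟩
      exact h2 j hj
    have pos : ∀ i j k : Fin 5, ori (p i) (p j) (p k) < 0 → 0 < ori (p i) (p k) (p j) := by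
      intro i j k hh
      rw [cvxb_sw]
      linarith
    refine cvxb_five ?_ ?_ ?_ ?_ ?_
    · refine key 0 4 1 ?_ (cvxb_five (fun h => absurd rfl h) ?_ ?_ ?_ ?_)
      · rw [cvxb_cyc, cvxb_cyc]
        exact pos 0 1 4 h014
      · exact fun _ => (cvxb_y _ _).le
      · exact fun _ => (c 1 2 4 h124).le
      · exact fun _ => (c 1 3 4 h134).le
      · exact fun _ => (cvxb_z _ _).le
    · refine key 1 0 2 (pos 0 1 2 h012) (cvxb_five ?_ (fun h => absurd rfl h) ?_ ?_ ?_)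
      · exact fun _ => (cvxb_z _ _).le
      · exact fun _ => (cvxb_y _ _).le
      · exact fun _ => h023.le
      · exact fun _ => h024.le
    · refine key 2 1 3 (pos 1 2 3 h123) (cvxb_five ?_ ?_ (fun h => absurd rfl h) ?_ ?_)
      · exact fun _ => (c 3 0 1 (c 0 1 3 h013)).le
      · exact fun _ => (cvxb_z _ _).le
      · exact fun _ => (cvxb_y _ _).le
      · exact fun _ => h134.le
    · refine key 3 2 4 (pos 2 3 4 h234) (cvxb_five ?_ ?_ ?_ (fun h => absurd rfl h) ?_)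
      · exact fun _ => (c 4 0 2 (c 0 2 4 h024)).le
      · exact fun _ => (c 4 1 2 (c 1 2 4 h124)).le
      · exact fun _ => (cvxb_z _ _).le
      · exact fun _ => (cvxb_y _ _).le
    · refine key 4 3 0 ?_ (cvxb_five ?_ ?_ ?_ ?_ (fun h => absurd rfl h))
      · rw [cvxb_cyc]
        exact pos 0 3 4 h034
      · exact fun _ => (cvxb_y _ _).le
      · exact fun _ => (c 0 1 3 h013).le
      · exact fun _ => (c 0 2 3 h023).le
      · exact fun _ => (cvxb_z _ _).le
-- END row cvxb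

end Pool.Agent.Cac5
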