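import Mathlib
import Pool.Agent.Cac5.Bip

/-!
# The two-parameter family

`q = (a, b)`, near to `(76, 80)`: `a`, `b` are the squares of the diagonals.
-/

set_option linter.unusedVariables false

namespace Pool.Agent.Cac5

open Set Real Filter Topology Pool.Agent.Cac

/-- The parameters. -/
noncomputable def fh (q : ℝ × ℝ) : ℝ := √q.2
/-- The parameters. -/
noncomputable def fd (q : ℝ × ℝ) : ℝ := (q.1 - 36) / (2 * fh q)
/-- The parameters. -/
noncomputable def ft (q : ℝ × ℝ) : ℝ := √(9 - fd q ^ 2)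
/-- The parameters. -/
noncomputable def fr (q : ℝ × ℝ) : ℝ := 36 - (fh q / 2 - fd q) ^ 2
/-- The parameters. -/
noncomputable def fu (q : ℝ × ℝ) : ℝ := √(fr q - ft q ^ 2)
/-- The parameters. -/
noncomputable def fL (q : ℝ × ℝ) : ℝ := (3 * fh q ^ 2 / 2 - 72 - fh q * fd q) / 2
/-- The parameters. -/
noncomputable def fs (q : ℝ × ℝ) : ℝ := 36 - fh q ^ 2 / 4
/-- The parameters. -/
noncomputable def fg (q : ℝ × ℝ) : ℝ := √(fr q * fs q - fL q ^ 2)
/-- The parameters. -/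
noncomputable def fx (q : ℝ × ℝ) : ℝ := (-(ft q * fL q) + fu q * fg q) / fr q
/-- The parameters. -/
noncomputable def fy (q : ℝ × ℝ) : ℝ := (fu q * fL q + ft q * fg q) / fr q
/-- The parameters. -/
noncomputable def fk (q : ℝ × ℝ) : ℝ := √(36 / q.1 - 1 / 4)
/-- The coefficients of `v 4`. -/
noncomputable def f1 (q : ℝ × ℝ) : ℝ := (-fy q / fu q + fx q / ft q) / 2
/-- The coefficients of `v 4`. -/
noncomputable def f2 (q : ℝ × ℝ) : ℝ := (fy q / fu q + fx q / ft q) / 2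
/-- The coefficients of `v 4`. -/
noncomputable def f3 (q : ℝ × ℝ) : ℝ :=
  (fh q / 2 - (fh q / 2 - fd q) * f1 q + (fh q / 2 + fd q) * f2 q) / fh q
/-- The coefficients of `v 4`. -/
noncomputable def f0 (q : ℝ × ℝ) : ℝ := 1 + f2 q - f1 q - f3 q

/-- The vertices. -/
noncomputable def vf (q : ℝ × ℝ) : Fin 5 → E3 :=
  ![!₂[0, 0, 0], !₂[ft q, fu q, fh q / 2 - fd q], !₂[-ft q, fu q, fh q / 2 + fd q], !₂[0, 0, fh q],
    !₂[fx q, -fy q, fh q / 2]]

/-- The pentagon. -/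
noncomputable def pf (q : ℝ × ℝ) : Fin 5 → ℂ :=
  ![0, ⟨(fh q / 2 + fd q) / 2 - fk q * √(fr q), √(fr q) / 2 + fk q * (fh q / 2 + fd q)⟩,
    ⟨fh q / 2 + fd q, √(fr q)⟩, ⟨fh q, 0⟩, ⟨fh q / 2, -√(fs q)⟩]

/-- The point of the example. -/
def q0 : ℝ × ℝ := (76, 80)

/-- The strict inequalities. -/
structure Ok (q : ℝ × ℝ) : Prop where
  a : 0 < q.1
  b : 0 < q.2
  t : 0 < 9 - fd q ^ 2
  r : 0 < fr q
  u : 0 < fr q - ft q ^ 2
  g : 0 < fr q * fs q - fL q ^ 2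
  s : 0 < fs q
  k : 0 < 36 / q.1 - 1 / 4
  c0 : 0 < f0 q
  c1 : 0 < f1 q
  c2 : 0 < f2 q
  c3 : 0 < f3 q
  d : 0 < fh q / 2 + fd q
  n1 : q.1 ≠ 36
  n2 : q.2 ≠ 36
  n3 : q.1 ≠ q.2
  n4 : dist (vf q 2) (vf q 4) ^ 2 ≠ 36
  n5 : dist (vf q 2) (vf q 4) ^ 2 ≠ q.1
  n6 : dist (vf q 2) (vf q 4) ^ 2 ≠ q.2
  n7 : dist (vf q 2) (vf q 4) ^ 2 ≠ 0

-- BEGIN row bas1
/-- Values at `(76, 80)`. PROOF. `√80 = 4 * √5` (`Real.sqrt_eq_iff_of_sq_eq`...), `fd = 40 / (8 √5) =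
√5`, `ft = √4`, `fr = 36 - 5`, `fu = √27 = 3 * √3`, `fL = 14`, `fs = 16`. -/
theorem bas1 : fh q0 = 4 * √5 ∧ fd q0 = √5 ∧ ft q0 = 2 ∧ fr q0 = 31 ∧ fu q0 = 3 * √3 ∧
    fL q0 = 14 ∧ fs q0 = 16 := by
  have h5 : √5 ^ 2 = 5 := Real.sq_sqrt (by norm_num)
  have h3 : √3 ^ 2 = 3 := Real.sq_sqrt (by norm_num)
  have e1 : fh q0 = 4 * √5 := by
    have h : (80 : ℝ) = (4 * √5) ^ 2 := by linear_combination -16 * h5
    show √(80 : ℝ) = 4 * √5
    rw [h, Real.sqrt_sq (by positivity)]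
  have e2 : fd q0 = √5 := by
    show ((76 : ℝ) - 36) / (2 * fh q0) = √5
    rw [e1, div_eq_iff (by positivity)]
    linear_combination -8 * h5
  have e3 : ft q0 = 2 := by
    show √(9 - fd q0 ^ 2) = 2
    rw [e2, h5, show (9 : ℝ) - 5 = 2 ^ 2 by norm_num, Real.sqrt_sq (by norm_num)]
  have e4 : fr q0 = 31 := by
    show 36 - (fh q0 / 2 - fd q0) ^ 2 = 31
    rw [e1, e2]
    linear_combination -h5
  have e5 : fu q0 = 3 * √3 := by
    have h : (31 : ℝ) - 2 ^ 2 = (3 * √3) ^ 2 := by linear_combination -9 * h3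
    show √(fr q0 - ft q0 ^ 2) = 3 * √3
    rw [e4, e3, h, Real.sqrt_sq (by positivity)]
  have e6 : fL q0 = 14 := by
    show (3 * fh q0 ^ 2 / 2 - 72 - fh q0 * fd q0) / 2 = 14
    rw [e1, e2]
    linear_combination 10 * h5
  have e7 : fs q0 = 16 := by
    show 36 - fh q0 ^ 2 / 4 = 16
    rw [e1]
    linear_combination -4 * h5
  exact ⟨e1, e2, e3, e4, e5, e6, e7⟩
-- END row bas1

-- BEGIN row bas2
/-- PROOF. `bas1`; `fg = √300 = 10 √3`, `fx = (-28 + 90) / 31`, `fy = (42 √3 + 20 √3) / 31`,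
`fk = kap`; `f1 = (-2/3 + 1) / 2`, ... -/
theorem bas2 : fg q0 = 10 * √3 ∧ fx q0 = 2 ∧ fy q0 = 2 * √3 ∧ fk q0 = kap ∧
    f1 q0 = 1 / 6 ∧ f2 q0 = 5 / 6 ∧ f3 q0 = 13 / 12 ∧ f0 q0 = 7 / 12 := by
  obtain ⟨hh, hd, ht, hr, hu, hL, hs⟩ := bas1
  have s3 : √3 * √3 = (3 : ℝ) := Real.mul_self_sqrt (by norm_num)
  have p3 : (0 : ℝ) < √3 := Real.sqrt_pos.2 (by norm_num)
  have p5 : (0 : ℝ) < √5 := Real.sqrt_pos.2 (by norm_num)
  have hg : fg q0 = 10 * √3 := by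
    unfold fg
    rw [hr, hs, hL]
    have h1 : (31 : ℝ) * 16 - 14 ^ 2 = (10 * √3) * (10 * √3) := by
      have h2 : (10 * √3) * (10 * √3) = 100 * (√3 * √3) := by ring
      rw [h2, s3]
      norm_num
    rw [h1, Real.sqrt_mul_self (by positivity)]
  have hx : fx q0 = 2 := by
    unfold fx
    rw [ht, hL, hu, hg, hr]
    have h2 : 3 * √3 * (10 * √3) = 30 * (√3 * √3) := by ring
    rw [h2, s3]
    norm_num
  have hy : fy q0 = 2 * √3 := by
    unfold fy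
    rw [ht, hL, hu, hg, hr]
    ring
  have hk : fk q0 = kap := by
    unfold fk kap
    have h1 : (36 : ℝ) / q0.1 - 1 / 4 = 17 / 76 := by
      show (36 : ℝ) / 76 - 1 / 4 = 17 / 76
      norm_num
    rw [h1]
  have hyu : fy q0 / fu q0 = 2 / 3 := by
    rw [hy, hu]
    field_simp
  have hxt : fx q0 / ft q0 = 1 := by
    rw [hx, ht]
    norm_num
  have h1 : f1 q0 = 1 / 6 := by
    unfold f1
    rw [hxt, neg_div, hyu]
    norm_num
  have h2 : f2 q0 = 5 / 6 := by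
    unfold f2
    rw [hxt, hyu]
    norm_num
  have h3 : f3 q0 = 13 / 12 := by
    unfold f3
    rw [h1, h2, hh, hd, div_eq_iff (by positivity)]
    ring
  have h0 : f0 q0 = 7 / 12 := by
    unfold f0
    rw [h1, h2, h3]
    norm_num
  exact ⟨hg, hx, hy, hk, h1, h2, h3, h0⟩
-- END row bas2

-- BEGIN row bas3
/-- PROOF. `bas1`, `bas2`, `ext i; fin_cases i`; `√(31)`, `√16 = 4`. -/
theorem bas3 : vf q0 = vx ∧ pf q0 = px := by
  obtain ⟨h1, h2, h3, h4, h5, h6, h7⟩ := bas1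
  obtain ⟨e1, e2, e3, e4, e5, e6, e7, e8⟩ := bas2
  have h16 : √(16 : ℝ) = 4 := by
    rw [show (16 : ℝ) = 4 ^ 2 by norm_num]
    exact Real.sqrt_sq (by norm_num)
  constructor
  · unfold vf vx
    rw [h1, h2, h3, h5, e2, e3]
    have a1 : 4 * √5 / 2 - √5 = √5 := by ring
    have a2 : 4 * √5 / 2 + √5 = 3 * √5 := by ring
    have a3 : 4 * √5 / 2 = 2 * √5 := by ring
    have a4 : -(2 * √3) = -2 * √3 := by ring
    rw [a1, a2, a3, a4]
  · unfold pf px
    rw [h1, h2, h4, h7, e4, h16]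
    have a2 : 4 * √5 / 2 + √5 = 3 * √5 := by ring
    have a3 : 4 * √5 / 2 = 2 * √5 := by ring
    have a5 : kap * (3 * √5) = 3 * √5 * kap := by ring
    rw [a2, a3, a5]
-- END row bas3

-- BEGIN row con1
/-- PROOF. `unfold`, `ContinuousAt.div` (`fh q0 ≠ 0`, `fr q0 = 31 ≠ 0`, `bas1`), `Real.continuous_sqrt`,
`continuousAt_fst`, `continuousAt_snd`. -/
theorem con1 : ContinuousAt fh q0 ∧ ContinuousAt fd q0 ∧ ContinuousAt ft q0 ∧ ContinuousAt fr q0 ∧
    ContinuousAt fu q0 ∧ ContinuousAt fL q0 ∧ ContinuousAt fs q0 ∧ ContinuousAt fg q0 ∧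
    ContinuousAt fx q0 ∧ ContinuousAt fy q0 ∧ ContinuousAt fk q0 := by
  obtain ⟨b1, b2, b3, b4, b5, b6, b7⟩ := bas1
  have hh : fh q0 ≠ 0 := by
    rw [b1]
    positivity
  have hr : fr q0 ≠ 0 := by
    rw [b4]
    norm_num
  have hq : (q0 : ℝ × ℝ).1 ≠ 0 := by
    show (76 : ℝ) ≠ 0
    norm_num
  have e1 : ContinuousAt fh q0 := by
    show ContinuousAt (fun q : ℝ × ℝ => √q.2) q0
    exact continuousAt_snd.sqrt
  have e2 : ContinuousAt fd q0 := by
    show ContinuousAt (fun q : ℝ × ℝ => (q.1 - 36) / (2 * fh q)) q0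
    exact (continuousAt_fst.sub continuousAt_const).div (continuousAt_const.mul e1)
      (mul_ne_zero two_ne_zero hh)
  have e3 : ContinuousAt ft q0 := by
    show ContinuousAt (fun q : ℝ × ℝ => √(9 - fd q ^ 2)) q0
    exact (continuousAt_const.sub (e2.pow 2)).sqrt
  have e4 : ContinuousAt fr q0 := by
    show ContinuousAt (fun q : ℝ × ℝ => 36 - (fh q / 2 - fd q) ^ 2) q0
    exact continuousAt_const.sub (((e1.div_const 2).sub e2).pow 2)
  have e5 : ContinuousAt fu q0 := by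
    show ContinuousAt (fun q : ℝ × ℝ => √(fr q - ft q ^ 2)) q0
    exact (e4.sub (e3.pow 2)).sqrt
  have e6 : ContinuousAt fL q0 := by
    show ContinuousAt (fun q : ℝ × ℝ => (3 * fh q ^ 2 / 2 - 72 - fh q * fd q) / 2) q0
    exact ((((continuousAt_const.mul (e1.pow 2)).div_const 2).sub continuousAt_const).sub
      (e1.mul e2)).div_const 2
  have e7 : ContinuousAt fs q0 := by
    show ContinuousAt (fun q : ℝ × ℝ => 36 - fh q ^ 2 / 4) q0
    exact continuousAt_const.sub ((e1.pow 2).div_const 4)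
  have e8 : ContinuousAt fg q0 := by
    show ContinuousAt (fun q : ℝ × ℝ => √(fr q * fs q - fL q ^ 2)) q0
    exact ((e4.mul e7).sub (e6.pow 2)).sqrt
  have e9 : ContinuousAt fx q0 := by
    show ContinuousAt (fun q : ℝ × ℝ => (-(ft q * fL q) + fu q * fg q) / fr q) q0
    exact ((e3.mul e6).neg.add (e5.mul e8)).div e4 hr
  have e10 : ContinuousAt fy q0 := by
    show ContinuousAt (fun q : ℝ × ℝ => (fu q * fL q + ft q * fg q) / fr q) q0
    exact ((e5.mul e6).add (e3.mul e8)).div e4 hr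
  have e11 : ContinuousAt fk q0 := by
    show ContinuousAt (fun q : ℝ × ℝ => √(36 / q.1 - 1 / 4)) q0
    exact ((continuousAt_const.div continuousAt_fst hq).sub continuousAt_const).sqrt
  exact ⟨e1, e2, e3, e4, e5, e6, e7, e8, e9, e10, e11⟩
-- END row con1

-- BEGIN row con2
/-- PROOF. `con1`, `ContinuousAt.div` with `fu q0`, `ft q0`, `fh q0 ≠ 0` (`bas1`). -/
theorem con2 : ContinuousAt f0 q0 ∧ ContinuousAt f1 q0 ∧ ContinuousAt f2 q0 ∧
    ContinuousAt f3 q0 := by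
  obtain ⟨hh, hd, ht, hr, hu, hL, hs, hg, hx, hy, hk⟩ := con1
  obtain ⟨vh, -, vt, -, vu, -, -⟩ := bas1
  have h5 : (0 : ℝ) < √5 := Real.sqrt_pos.2 (by norm_num)
  have h3 : (0 : ℝ) < √3 := Real.sqrt_pos.2 (by norm_num)
  have nh : fh q0 ≠ 0 := by rw [vh]; positivity
  have nt : ft q0 ≠ 0 := by rw [vt]; norm_num
  have nu : fu q0 ≠ 0 := by rw [vu]; positivity
  have c1 : ContinuousAt f1 q0 := by
    unfold f1
    exact ((hy.neg.div hu nu).add (hx.div ht nt)).div_const 2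
  have c2 : ContinuousAt f2 q0 := by
    unfold f2
    exact ((hy.div hu nu).add (hx.div ht nt)).div_const 2
  have c3 : ContinuousAt f3 q0 := by
    unfold f3
    exact (((hh.div_const 2).sub (((hh.div_const 2).sub hd).mul c1)).add
      (((hh.div_const 2).add hd).mul c2)).div hh nh
  have c0 : ContinuousAt f0 q0 := by
    unfold f0
    exact ((continuousAt_const.add c2).sub c1).sub c3
  exact ⟨c0, c1, c2, c3⟩
-- END row con2

-- BEGIN row con3
/-- PROOF. `con1`; `continuousAt_pi`, coordinates: `EuclideanSpace` (`PiLp.continuous_toLp`), complex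
numbers: `Complex.equivRealProdCLM` or `⟨a, b⟩ = a + b * I` (`Complex.continuous_ofReal`). -/
theorem con3 (i : Fin 5) : ContinuousAt (fun q => vf q i) q0 ∧
    ContinuousAt (fun q => pf q i) q0 := by
  obtain ⟨c1, c2, c3, c4, c5, c6, c7, c8, c9, c10, c11⟩ := con1
  have key : ∀ a b c : ℝ × ℝ → ℝ, ContinuousAt a q0 → ContinuousAt b q0 → ContinuousAt c q0 →
      ContinuousAt (fun q => (!₂[a q, b q, c q] : E3)) q0 := by
    intro a b c ha hb hc
    have h : Continuous (fun z : ℝ × ℝ × ℝ => (!₂[z.1, z.2.1, z.2.2] : E3)) := by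
      refine (PiLp.continuous_toLp 2 _).comp (continuous_pi fun i => ?_)
      fin_cases i
      · exact continuous_fst
      · exact continuous_fst.comp continuous_snd
      · exact continuous_snd.comp continuous_snd
    exact ContinuousAt.comp (f := fun q => (a q, b q, c q)) h.continuousAt (ha.prodMk (hb.prodMk hc))
  have kec : ∀ a b : ℝ × ℝ → ℝ, ContinuousAt a q0 → ContinuousAt b q0 →
      ContinuousAt (fun q => (⟨a q, b q⟩ : ℂ)) q0 := by
    intro a b ha hb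
    have h : Continuous (fun z : ℝ × ℝ => (⟨z.1, z.2⟩ : ℂ)) :=
      Complex.equivRealProdCLM.symm.continuous
    exact ContinuousAt.comp (f := fun q => (a q, b q)) h.continuousAt (ha.prodMk hb)
  have z : ContinuousAt (fun _ : ℝ × ℝ => (0 : ℝ)) q0 := continuousAt_const
  have h2 : ContinuousAt (fun q => fh q / 2) q0 := c1.div_const 2
  have hr : ContinuousAt (fun q => √(fr q)) q0 := c4.sqrt
  have hs : ContinuousAt (fun q => √(fs q)) q0 := c7.sqrt
  fin_cases i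
  · exact ⟨continuousAt_const, continuousAt_const⟩
  · exact ⟨key _ _ _ c3 c5 (h2.sub c2), kec _ _ (((h2.add c2).div_const 2).sub (c11.mul hr))
      ((hr.div_const 2).add (c11.mul (h2.add c2)))⟩
  · exact ⟨key _ _ _ c3.neg c5 (h2.add c2), kec _ _ (h2.add c2) hr⟩
  · exact ⟨key _ _ _ z z c1, kec _ _ c1 z⟩
  · exact ⟨key _ _ _ c9 c10.neg h2, kec _ _ h2 hs.neg⟩
-- END row con3

-- BEGIN row okk
/-- PROOF. Each of the twenty is eventually true: at `q0` the values are `76`, `80`, `4`, `31`, `27`,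
`300`, `16`, `17/76`, `7/12`, `1/6`, `5/6`, `13/12`, `3 √5` (`bas1`, `bas2`), the functions are continuous
at `q0` (`con1`, `con2`; `ContinuousAt.eventually_lt`, `Filter.Tendsto.eventually_const_lt`); `n1 .. n7`:
`ContinuousAt.eventually_ne` with `76, 80`, and `dist ^ 2` is continuous (`con3`) with the value `96`
(`bas3`, `vnum 2 4`, `NN`). Then `Filter.Eventually.and`, `mono`. -/
theorem okk : ∀ᶠ q in 𝓝 q0, Ok q := by
  obtain ⟨b1, b2, b3, b4, b5, b6, b7⟩ := bas1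
  obtain ⟨d1, d2, d3, d4, d5, d6, d7, d8⟩ := bas2
  obtain ⟨c1, c2, c3, c4, c5, c6, c7, c8, c9, c10, c11⟩ := con1
  obtain ⟨e0, e1, e2, e3⟩ := con2
  have h3 : (√3 : ℝ) ^ 2 = 3 := Real.sq_sqrt (by norm_num)
  have h5 : (√5 : ℝ) ^ 2 = 5 := Real.sq_sqrt (by norm_num)
  have p5 : (0 : ℝ) < √5 := by positivity
  have hf : ContinuousAt (fun q : ℝ × ℝ => q.1) q0 := continuousAt_fst
  have hs : ContinuousAt (fun q : ℝ × ℝ => q.2) q0 := continuousAt_snd
  have hq1 : q0.1 = 76 := rfl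
  have hq2 : q0.2 = 80 := rfl
  have hd : ContinuousAt (fun q => dist (vf q 2) (vf q 4) ^ 2) q0 :=
    ((con3 2).1.dist (con3 4).1).pow 2
  have hdv : dist (vf q0 2) (vf q0 4) ^ 2 = 96 := by
    rw [bas3.1, vnum]
    rfl
  have pos : ∀ f : ℝ × ℝ → ℝ, ContinuousAt f q0 → 0 < f q0 → ∀ᶠ q in 𝓝 q0, 0 < f q :=
    fun f hf h => hf.eventually (lt_mem_nhds h)
  have nq : ∀ f : ℝ × ℝ → ℝ, ContinuousAt f q0 → f q0 ≠ 0 → ∀ᶠ q in 𝓝 q0, f q ≠ 0 :=
    fun f hf h => hf.eventually_ne h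
  have u1 := pos _ hf (by rw [hq1]; norm_num)
  have u2 := pos _ hs (by rw [hq2]; norm_num)
  have u3 := pos (fun q => 9 - fd q ^ 2) (continuousAt_const.sub (c2.pow 2)) (by
    show 0 < 9 - fd q0 ^ 2
    rw [b2, h5]; norm_num)
  have u4 := pos _ c4 (by rw [b4]; norm_num)
  have u5 := pos (fun q => fr q - ft q ^ 2) (c4.sub (c3.pow 2)) (by
    show 0 < fr q0 - ft q0 ^ 2
    rw [b4, b3]; norm_num)
  have u6 := pos (fun q => fr q * fs q - fL q ^ 2) ((c4.mul c7).sub (c6.pow 2)) (by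
    show 0 < fr q0 * fs q0 - fL q0 ^ 2
    rw [b4, b7, b6]; norm_num)
  have u7 := pos _ c7 (by rw [b7]; norm_num)
  have u8 := pos (fun q => 36 / q.1 - 1 / 4) ((continuousAt_const.div hf (by
    show q0.1 ≠ 0
    rw [hq1]; norm_num)).sub continuousAt_const) (by
    show 0 < 36 / q0.1 - 1 / 4
    rw [hq1]; norm_num)
  have u9 := pos _ e0 (by rw [d8]; norm_num)
  have u10 := pos _ e1 (by rw [d5]; norm_num)
  have u11 := pos _ e2 (by rw [d6]; norm_num)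
  have u12 := pos _ e3 (by rw [d7]; norm_num)
  have u13 := pos (fun q => fh q / 2 + fd q) ((c1.div_const 2).add c2) (by
    show 0 < fh q0 / 2 + fd q0
    rw [b1, b2]; positivity)
  have w1 := nq (fun q => q.1 - 36) (hf.sub continuousAt_const) (by
    show q0.1 - 36 ≠ 0
    rw [hq1]; norm_num)
  have w2 := nq (fun q => q.2 - 36) (hs.sub continuousAt_const) (by
    show q0.2 - 36 ≠ 0
    rw [hq2]; norm_num)
  have w3 := nq (fun q => q.1 - q.2) (hf.sub hs) (by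
    show q0.1 - q0.2 ≠ 0
    rw [hq1, hq2]; norm_num)
  have w4 := nq (fun q => dist (vf q 2) (vf q 4) ^ 2 - 36) (hd.sub continuousAt_const) (by
    show dist (vf q0 2) (vf q0 4) ^ 2 - 36 ≠ 0
    rw [hdv]; norm_num)
  have w5 := nq (fun q => dist (vf q 2) (vf q 4) ^ 2 - q.1) (hd.sub hf) (by
    show dist (vf q0 2) (vf q0 4) ^ 2 - q0.1 ≠ 0
    rw [hdv, hq1]; norm_num)
  have w6 := nq (fun q => dist (vf q 2) (vf q 4) ^ 2 - q.2) (hd.sub hs) (by
    show dist (vf q0 2) (vf q0 4) ^ 2 - q0.2 ≠ 0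
    rw [hdv, hq2]; norm_num)
  have w7 := nq _ hd (by rw [hdv]; norm_num)
  filter_upwards [u1, u2, u3, u4, u5, u6, u7, u8, u9, u10, u11, u12, u13, w1, w2, w3, w4, w5, w6,
    w7] with q a1 a2 a3 a4 a5 a6 a7 a8 a9 a10 a11 a12 a13 g1 g2 g3 g4 g5 g6 g7
  exact ⟨a1, a2, a3, a4, a5, a6, a7, a8, a9, a10, a11, a12, a13, sub_ne_zero.1 g1,
    sub_ne_zero.1 g2, sub_ne_zero.1 g3, sub_ne_zero.1 g4, sub_ne_zero.1 g5, sub_ne_zero.1 g6, g7⟩
-- END row okk

-- BEGIN row ids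
/-- The identities. PROOF. `fh ^ 2 = q.2` (`Real.sq_sqrt`), `2 * fh * fd = q.1 - 36`,
`ft ^ 2 = 9 - fd ^ 2`, `fu ^ 2 = fr - ft ^ 2`, `fg ^ 2 = fr * fs - fL ^ 2`; `fx ^ 2 + fy ^ 2 =
(fL ^ 2 + fg ^ 2) * (ft ^ 2 + fu ^ 2) / fr ^ 2 = fs`, `fu * fy - ft * fx = fL` (`ft ^ 2 + fu ^ 2 = fr`);
`field_simp`. -/
theorem ids {q : ℝ × ℝ} (h : Ok q) : 0 < fh q ∧ fh q ^ 2 = q.2 ∧ 2 * (fh q * fd q) = q.1 - 36 ∧
    0 < ft q ∧ ft q ^ 2 = 9 - fd q ^ 2 ∧ 0 < fu q ∧ fu q ^ 2 = fr q - ft q ^ 2 ∧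
    fx q ^ 2 + fy q ^ 2 = fs q ∧ fu q * fy q - ft q * fx q = fL q := by
  have h1 : 0 < fh q := Real.sqrt_pos.2 h.b
  have h2 : fh q ^ 2 = q.2 := Real.sq_sqrt h.b.le
  have h3 : 2 * (fh q * fd q) = q.1 - 36 := by
    have e : fd q = (q.1 - 36) / (2 * fh q) := rfl
    rw [e]
    field_simp
  have h4 : 0 < ft q := Real.sqrt_pos.2 h.t
  have h5 : ft q ^ 2 = 9 - fd q ^ 2 := Real.sq_sqrt h.t.le
  have h6 : 0 < fu q := Real.sqrt_pos.2 h.u
  have h7 : fu q ^ 2 = fr q - ft q ^ 2 := Real.sq_sqrt h.u.le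
  have h8 : fg q ^ 2 = fr q * fs q - fL q ^ 2 := Real.sq_sqrt h.g.le
  have hr : fr q ≠ 0 := h.r.ne'
  have ex : fx q * fr q = -(ft q * fL q) + fu q * fg q := by
    have e : fx q = (-(ft q * fL q) + fu q * fg q) / fr q := rfl
    rw [e, div_mul_cancel₀ _ hr]
  have ey : fy q * fr q = fu q * fL q + ft q * fg q := by
    have e : fy q = (fu q * fL q + ft q * fg q) / fr q := rfl
    rw [e, div_mul_cancel₀ _ hr]
  refine ⟨h1, h2, h3, h4, h5, h6, h7, ?_, ?_⟩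
  · have e : (fx q ^ 2 + fy q ^ 2) * fr q ^ 2 = fs q * fr q ^ 2 := by
      calc (fx q ^ 2 + fy q ^ 2) * fr q ^ 2 = (fx q * fr q) ^ 2 + (fy q * fr q) ^ 2 := by ring
        _ = (ft q ^ 2 + fu q ^ 2) * (fL q ^ 2 + fg q ^ 2) := by rw [ex, ey]; ring
        _ = fs q * fr q ^ 2 := by rw [h7, h8]; ring
    exact mul_right_cancel₀ (pow_ne_zero 2 hr) e
  · have e : (fu q * fy q - ft q * fx q) * fr q = fL q * fr q := by
      calc (fu q * fy q - ft q * fx q) * fr q = fu q * (fy q * fr q) - ft q * (fx q * fr q) := by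
            ring
        _ = (fu q ^ 2 + ft q ^ 2) * fL q := by rw [ex, ey]; ring
        _ = fL q * fr q := by rw [h7]; ring
    exact mul_right_cancel₀ hr e
-- END row ids

-- BEGIN row dst
private theorem dst_d (a b c a' b' c' : ℝ) :
    dist (!₂[a, b, c] : E3) !₂[a', b', c'] ^ 2 =
      (a - a') ^ 2 + (b - b') ^ 2 + (c - c') ^ 2 := by
  rw [EuclideanSpace.dist_eq, Real.sq_sqrt (Finset.sum_nonneg fun i _ => sq_nonneg _),
    Fin.sum_univ_three]
  simp only [Real.dist_eq, sq_abs]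
  rfl

/-- The distances. PROOF. `ids`, `EuclideanSpace.dist_eq`, `Fin.sum_univ_three` (see `vnum`),
`linear_combination`. E.g. `01`: `ft² + fu² + (fh/2 - fd)² = fr + (fh/2 - fd)² = 36`; `04`:
`fx² + fy² + fh²/4 = fs + fh²/4 = 36`; `14`: `(ft - fx)² + (fu + fy)² + fd² = fr + fs + 2 fL + fd²
= fh² = q.2`; `02`: `fr + (fh/2 + fd)² = 36 + 2 fh fd = q.1`. -/
theorem dst {q : ℝ × ℝ} (h : Ok q) :
    dist (vf q 0) (vf q 1) ^ 2 = 36 ∧ dist (vf q 1) (vf q 2) ^ 2 = 36 ∧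
    dist (vf q 2) (vf q 3) ^ 2 = 36 ∧ dist (vf q 3) (vf q 4) ^ 2 = 36 ∧
    dist (vf q 0) (vf q 4) ^ 2 = 36 ∧ dist (vf q 0) (vf q 2) ^ 2 = q.1 ∧
    dist (vf q 1) (vf q 3) ^ 2 = q.1 ∧ dist (vf q 0) (vf q 3) ^ 2 = q.2 ∧
    dist (vf q 1) (vf q 4) ^ 2 = q.2 := by
  obtain ⟨_, h2, hd, _, ht2, _, hu2, hxy, huy⟩ := ids h
  have hr : fr q = 36 - (fh q / 2 - fd q) ^ 2 := rfl
  have hs : fs q = 36 - fh q ^ 2 / 4 := rfl
  have hL : fL q = (3 * fh q ^ 2 / 2 - 72 - fh q * fd q) / 2 := rfl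
  have e0 : vf q 0 = !₂[0, 0, 0] := rfl
  have e1 : vf q 1 = !₂[ft q, fu q, fh q / 2 - fd q] := rfl
  have e2 : vf q 2 = !₂[-ft q, fu q, fh q / 2 + fd q] := rfl
  have e3 : vf q 3 = !₂[0, 0, fh q] := rfl
  have e4 : vf q 4 = !₂[fx q, -fy q, fh q / 2] := rfl
  rw [e0, e1, e2, e3, e4]
  simp only [dst_d]
  refine ⟨?_, ?_, ?_, ?_, ?_, ?_, ?_, ?_, ?_⟩
  · linear_combination hu2 + hr
  · linear_combination 4 * ht2
  · linear_combination hu2 + hr
  · linear_combination hxy + hs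
  · linear_combination hxy + hs
  · linear_combination hu2 + hr + hd
  · linear_combination hu2 + hr + hd
  · linear_combination h2
  · linear_combination hu2 + hxy + 2 * huy + hr + hs + 2 * hL + h2
-- END row dst

-- BEGIN row dsp
/-- The distances in the plane. PROOF. `pnum_d` (Ex.lean), `ids`, `√fr ^ 2 = fr`, `√fs ^ 2 = fs`,
`fk ^ 2 = 36 / q.1 - 1 / 4`, and `(fh/2 + fd)² + fr = q.1` (see `dst`). -/
theorem dsp {q : ℝ × ℝ} (h : Ok q) :
    dist (pf q 0) (pf q 1) ^ 2 = 36 ∧ dist (pf q 1) (pf q 2) ^ 2 = 36 ∧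
    dist (pf q 2) (pf q 3) ^ 2 = 36 ∧ dist (pf q 3) (pf q 4) ^ 2 = 36 ∧
    dist (pf q 0) (pf q 4) ^ 2 = 36 ∧ dist (pf q 0) (pf q 2) ^ 2 = q.1 ∧
    dist (pf q 0) (pf q 3) ^ 2 = q.2 := by
  obtain ⟨_, h2, h3, _⟩ := ids h
  have ha : q.1 ≠ 0 := h.a.ne'
  have hR : √(fr q) ^ 2 = fr q := Real.sq_sqrt h.r.le
  have hS : √(fs q) ^ 2 = fs q := Real.sq_sqrt h.s.le
  have hk : fk q ^ 2 = 36 / q.1 - 1 / 4 := Real.sq_sqrt h.k.le
  have er : fr q = 36 - (fh q / 2 - fd q) ^ 2 := rfl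
  have es : fs q = 36 - fh q ^ 2 / 4 := rfl
  have hA : (fh q / 2 + fd q) ^ 2 + √(fr q) ^ 2 = q.1 := by
    linear_combination hR + er + h3
  have hq : q.1 * fk q ^ 2 = 36 - q.1 / 4 := by
    rw [hk]
    field_simp
  have e0 : pf q 0 = 0 := rfl
  have e1 : pf q 1 = ⟨(fh q / 2 + fd q) / 2 - fk q * √(fr q),
    √(fr q) / 2 + fk q * (fh q / 2 + fd q)⟩ := rfl
  have e2 : pf q 2 = ⟨fh q / 2 + fd q, √(fr q)⟩ := rfl
  have e3 : pf q 3 = ⟨fh q, 0⟩ := rfl
  have e4 : pf q 4 = ⟨fh q / 2, -√(fs q)⟩ := rfl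
  rw [e0, e1, e2, e3, e4]
  simp only [pnum_d, Complex.zero_re, Complex.zero_im]
  refine ⟨?_, ?_, ?_, ?_, ?_, ?_, ?_⟩
  · linear_combination (1 / 4 + fk q ^ 2) * hA + hq
  · linear_combination (1 / 4 + fk q ^ 2) * hA + hq
  · linear_combination hR + er
  · linear_combination hS + es
  · linear_combination hS + es
  · linear_combination hA
  · linear_combination h2
-- END row dsp

-- BEGIN row opp2f
/-- PROOF. As `popp` in Ex.lean, by `ctr`: the numbers are `fk * q.1` (that is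
`fk * ((fh/2 + fd)² + fr)`) and `- fh * √fr`; `√fr * fh` and `- fh * √fs` (`ids`). -/
theorem opp2f {q : ℝ × ℝ} (h : Ok q) : (line[ℝ, pf q 0, pf q 2]).SOppSide (pf q 1) (pf q 3) ∧
    (line[ℝ, pf q 0, pf q 3]).SOppSide (pf q 2) (pf q 4) := by
  have hh : 0 < fh q := Real.sqrt_pos.2 h.b
  have hr : 0 < √(fr q) := Real.sqrt_pos.2 h.r
  have hs : 0 < √(fs q) := Real.sqrt_pos.2 h.s
  have hk : 0 < fk q := Real.sqrt_pos.2 h.k
  have hD : 0 < fh q / 2 + fd q := h.d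
  have e0 : pf q 0 = 0 := rfl
  have e1 : pf q 1 = ⟨(fh q / 2 + fd q) / 2 - fk q * √(fr q),
    √(fr q) / 2 + fk q * (fh q / 2 + fd q)⟩ := rfl
  have e2 : pf q 2 = ⟨fh q / 2 + fd q, √(fr q)⟩ := rfl
  have e3 : pf q 3 = ⟨fh q, 0⟩ := rfl
  have e4 : pf q 4 = ⟨fh q / 2, -√(fs q)⟩ := rfl
  generalize hDe : fh q / 2 + fd q = D at hD e1 e2
  refine ⟨ctr ?_ ?_, ctr ?_ ?_⟩
  · rw [e0, e1, e2]
    simp only [sub_zero]
    have e : D * (√(fr q) / 2 + fk q * D) - √(fr q) * (D / 2 - fk q * √(fr q)) =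
        fk q * (D * D + √(fr q) * √(fr q)) := by ring
    rw [e]
    positivity
  · rw [e0, e2, e3]
    simp only [sub_zero]
    nlinarith [mul_pos hr hh]
  · rw [e0, e2, e3]
    simp only [sub_zero]
    nlinarith [mul_pos hr hh]
  · rw [e0, e3, e4]
    simp only [sub_zero]
    nlinarith [mul_pos hs hh]
-- END row opp2f

-- BEGIN row devf
private theorem devf_eq {a b : ℂ} {c d : E3} {t : ℝ} (h1 : dist a b ^ 2 = t)
    (h2 : dist c d ^ 2 = t) : dist a b = dist c d :=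
  (sq_eq_sq₀ dist_nonneg dist_nonneg).1 (h1.trans h2.symm)

/-- PROOF. As `dev` in Ex.lean: `dst`, `dsp`, `opp2f`; equal squares of distances are equal distances
(`sq_eq_sq₀`/`pow_left_injective`); `sh (vf q) i = vf q (i + 1)`. -/
theorem devf {q : ℝ × ℝ} (h : Ok q) : Dev (vf q) (pf q) ∧ Dev (sh (vf q)) (pf q) := by
  obtain ⟨p01, p12, p23, p34, p04, p02, p03⟩ := dsp h
  obtain ⟨v01, v12, v23, v34, v04, v02, v13, v03, v14⟩ := dst h
  obtain ⟨o2, o3⟩ := opp2f h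
  have v40 : dist (vf q 4) (vf q 0) ^ 2 = 36 := by rw [dist_comm]; exact v04
  have v10 : dist (vf q 1) (vf q 0) ^ 2 = 36 := by rw [dist_comm]; exact v01
  exact ⟨⟨devf_eq p01 v01, devf_eq p12 v12, devf_eq p23 v23, devf_eq p34 v34, devf_eq p04 v04,
    devf_eq p02 v02, devf_eq p03 v03, o2, o3⟩, ⟨devf_eq p01 v12, devf_eq p12 v23,
    devf_eq p23 v34, devf_eq p34 v40, devf_eq p04 v10, devf_eq p02 v13, devf_eq p03 v14, o2, o3⟩⟩
-- END row devf

-- BEGIN row cvf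
/-- PROOF. `cvxb`; each of the ten numbers `ori (pf q i) (pf q j) (pf q k)` is continuous at `q0`
(`con3`; `ori` unfolded) and negative at `q0` (`bas3`, `orix`); `eventually_all` for the finite
quantifiers, `Filter.Tendsto.eventually_lt_const`. `pf q 0 = 0`. -/
theorem cvf (orix : ∀ i j k : Fin 5, i < j → j < k → ori (px i) (px j) (px k) < 0) :
    ∀ᶠ q in 𝓝 q0, ConvexPent (pf q) := by
  have key : ∀ i j k : Fin 5, ∀ᶠ q in 𝓝 q0, i < j → j < k → ori (pf q i) (pf q j) (pf q k) < 0 := by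
    intro i j k
    by_cases hij : i < j ∧ j < k
    · have ci := (con3 i).2
      have cj := (con3 j).2
      have ck := (con3 k).2
      have hc : ContinuousAt (fun q => ori (pf q i) (pf q j) (pf q k)) q0 := by
        unfold ori
        exact ((Complex.continuous_re.continuousAt.comp (cj.sub ci)).mul
          (Complex.continuous_im.continuousAt.comp (ck.sub ci))).sub
          ((Complex.continuous_im.continuousAt.comp (cj.sub ci)).mul
          (Complex.continuous_re.continuousAt.comp (ck.sub ci)))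
      have hv : ori (pf q0 i) (pf q0 j) (pf q0 k) < 0 := by
        rw [bas3.2]
        exact orix i j k hij.1 hij.2
      filter_upwards [hc.eventually_lt_const hv] with q hq _ _
      exact hq
    · exact Eventually.of_forall fun q h1 h2 => absurd ⟨h1, h2⟩ hij
  have key2 : ∀ᶠ q in 𝓝 q0, ∀ i j k : Fin 5, i < j → j < k → ori (pf q i) (pf q j) (pf q k) < 0 :=
    eventually_all.2 fun i => eventually_all.2 fun j => eventually_all.2 fun k => key i j k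
  filter_upwards [key2] with q hq
  exact cvxb rfl hq
-- END row cvf

-- BEGIN row orix
private theorem orix_mul {x y a b c d : ℝ} (h1 : a ≤ x) (h2 : x ≤ b) (h3 : c ≤ y) (h4 : y ≤ d)
    (ha : 0 ≤ a) (hc : 0 ≤ c) : a * c ≤ x * y ∧ x * y ≤ b * d :=
  ⟨mul_le_mul h1 h3 hc (ha.trans h1), mul_le_mul h2 h4 (hc.trans h3) ((ha.trans h1).trans h2)⟩

private theorem orix_num : ∃ A B C D E F : ℝ, (px 0).re = 0 ∧ (px 0).im = 0 ∧ (px 1).re = A ∧
    (px 1).im = B ∧ (px 2).re = C ∧ (px 2).im = D ∧ (px 3).re = E ∧ (px 3).im = 0 ∧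
    (px 4).re = F ∧ (px 4).im = -4 ∧ (0.7 ≤ A ∧ A ≤ 0.75) ∧ (5.94 ≤ B ∧ B ≤ 5.96) ∧
    (6.7 ≤ C ∧ C ≤ 6.71) ∧ (5.56 ≤ D ∧ D ≤ 5.57) ∧ (8.94 ≤ E ∧ E ≤ 8.95) ∧
    (4.47 ≤ F ∧ F ≤ 4.48) := by
  have a1 : (2.236 : ℝ) ≤ √5 := Real.le_sqrt_of_sq_le (by norm_num)
  have a2 : √5 ≤ (2.2361 : ℝ) := Real.sqrt_le_iff.2 ⟨by norm_num, by norm_num⟩
  have b1 : (5.567 : ℝ) ≤ √31 := Real.le_sqrt_of_sq_le (by norm_num)
  have b2 : √31 ≤ (5.568 : ℝ) := Real.sqrt_le_iff.2 ⟨by norm_num, by norm_num⟩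
  have c1 : (0.472 : ℝ) ≤ kap := Real.le_sqrt_of_sq_le (by norm_num)
  have c2 : kap ≤ (0.473 : ℝ) := Real.sqrt_le_iff.2 ⟨by norm_num, by norm_num⟩
  have d1 := orix_mul c1 c2 b1 b2 (by norm_num) (by norm_num)
  have d2 := orix_mul a1 a2 c1 c2 (by norm_num) (by norm_num)
  refine ⟨3 * √5 / 2 - kap * √31, √31 / 2 + 3 * √5 * kap, 3 * √5, √31, 4 * √5, 2 * √5, rfl, rfl,
    rfl, rfl, rfl, rfl, rfl, rfl, rfl, rfl, ?_, ?_, ?_, ?_, ?_, ?_⟩
  · constructor
    · norm_num at *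
      linarith [d1.2]
    · norm_num at *
      linarith [d1.1]
  · constructor
    · norm_num at *
      linarith [d2.1]
    · norm_num at *
      linarith [d2.2]
  · constructor <;> norm_num at * <;> linarith
  · constructor <;> norm_num at * <;> linarith
  · constructor <;> norm_num at * <;> linarith
  · constructor <;> norm_num at * <;> linarith

/-- The ten triangles of the pentagon. PROOF. `fin_cases`/`interval_cases`; with `√5 = 2.2360..`,
`√31 = 5.5677..`, `kap = 0.47296..` (see `pcon` in Ex.lean for bounds), `nlinarith`. -/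
theorem orix (i j k : Fin 5) (h : i < j) (h' : j < k) : ori (px i) (px j) (px k) < 0 := by
  have key : ∀ i j k : Fin 5, i < j → j < k →
      (i = 0 ∧ j = 1 ∧ k = 2) ∨ (i = 0 ∧ j = 1 ∧ k = 3) ∨ (i = 0 ∧ j = 1 ∧ k = 4) ∨
      (i = 0 ∧ j = 2 ∧ k = 3) ∨ (i = 0 ∧ j = 2 ∧ k = 4) ∨ (i = 0 ∧ j = 3 ∧ k = 4) ∨
      (i = 1 ∧ j = 2 ∧ k = 3) ∨ (i = 1 ∧ j = 2 ∧ k = 4) ∨ (i = 1 ∧ j = 3 ∧ k = 4) ∨
      (i = 2 ∧ j = 3 ∧ k = 4) := by decide
  obtain ⟨A, B, C, D, E, F, r0, i0, r1, i1, r2, i2, r3, i3, r4, i4, hA, hB, hC, hD, hE, hF⟩ :=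
    orix_num
  norm_num at hA hB hC hD hE hF
  have mCB := orix_mul hC.1 hC.2 hB.1 hB.2 (by norm_num) (by norm_num)
  have mDA := orix_mul hD.1 hD.2 hA.1 hA.2 (by norm_num) (by norm_num)
  have mEB := orix_mul hE.1 hE.2 hB.1 hB.2 (by norm_num) (by norm_num)
  have mFB := orix_mul hF.1 hF.2 hB.1 hB.2 (by norm_num) (by norm_num)
  have mED := orix_mul hE.1 hE.2 hD.1 hD.2 (by norm_num) (by norm_num)
  have mFD := orix_mul hF.1 hF.2 hD.1 hD.2 (by norm_num) (by norm_num)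
  norm_num at mCB mDA mEB mFB mED mFD
  obtain ⟨hA1, hA2⟩ := hA
  obtain ⟨hB1, hB2⟩ := hB
  obtain ⟨hC1, hC2⟩ := hC
  obtain ⟨hD1, hD2⟩ := hD
  obtain ⟨hE1, hE2⟩ := hE
  obtain ⟨hF1, hF2⟩ := hF
  obtain ⟨mCB1, mCB2⟩ := mCB
  obtain ⟨mDA1, mDA2⟩ := mDA
  obtain ⟨mEB1, mEB2⟩ := mEB
  obtain ⟨mFB1, mFB2⟩ := mFB
  obtain ⟨mED1, mED2⟩ := mED
  obtain ⟨mFD1, mFD2⟩ := mFD
  rcases key i j k h h' with ⟨rfl, rfl, rfl⟩ | ⟨rfl, rfl, rfl⟩ | ⟨rfl, rfl, rfl⟩ | ⟨rfl, rfl, rfl⟩ |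
    ⟨rfl, rfl, rfl⟩ | ⟨rfl, rfl, rfl⟩ | ⟨rfl, rfl, rfl⟩ | ⟨rfl, rfl, rfl⟩ | ⟨rfl, rfl, rfl⟩ |
    ⟨rfl, rfl, rfl⟩ <;>
  · simp only [ori, Complex.sub_re, Complex.sub_im, r0, i0, r1, i1, r2, i2, r3, i3, r4, i4]
    linarith
-- END row orix

/-- The first coordinate. -/
noncomputable def g1 (q : ℝ × ℝ) (w : E3) : ℝ := (w 1 / fu q + w 0 / ft q) / 2
/-- The second coordinate. -/
noncomputable def g2 (q : ℝ × ℝ) (w : E3) : ℝ := (w 1 / fu q - w 0 / ft q) / 2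
/-- The third coordinate. -/
noncomputable def g3 (q : ℝ × ℝ) (w : E3) : ℝ :=
  (w 2 - (fh q / 2 - fd q) * g1 q w - (fh q / 2 + fd q) * g2 q w) / fh q
/-- The coordinate number 0. -/
noncomputable def g0 (q : ℝ × ℝ) (w : E3) : ℝ := 1 - g1 q w - g2 q w - g3 q w

-- BEGIN row cof
/-- The coordinates. PROOF. Positivity from `h.c0 ..`; `sm` by definition of `f0`; continuity
`fun_prop` after `unfold`; `su` by `ring`; `ev`: componentwise (`ext i; fin_cases i`,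
`PiLp.add_apply`, ...) as `coo` in Ex.lean, with `ft, fu, fh ≠ 0` (`ids`), and `vf q 4 = f0 • vf q 0 +
f1 • vf q 1 - f2 • vf q 2 + f3 • vf q 3`. -/
theorem cof {q : ℝ × ℝ} (h : Ok q) :
    Co (vf q) (g0 q) (g1 q) (g2 q) (g3 q) (f0 q) (f1 q) (f2 q) (f3 q) := by
  obtain ⟨hH, -, -, hT, -, hU, -⟩ := ids h
  have hH0 := hH.ne'
  have hT0 := hT.ne'
  have hU0 := hU.ne'
  have e1 : fx q = ft q * (f1 q + f2 q) := by
    unfold f1 f2
    field_simp
    ring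
  have e2 : fy q = fu q * (f2 q - f1 q) := by
    unfold f1 f2
    field_simp
    ring
  have e3 : fh q / 2 = (fh q / 2 - fd q) * f1 q - (fh q / 2 + fd q) * f2 q + fh q * f3 q := by
    unfold f3
    rw [mul_div_cancel₀ _ hH0]
    ring
  have c : ∀ i : Fin 3, Continuous fun w : E3 => w i := fun i => by fun_prop
  have n1 : Continuous (g1 q) := (((c 1).div_const _).add ((c 0).div_const _)).div_const _
  have n2 : Continuous (g2 q) := (((c 1).div_const _).sub ((c 0).div_const _)).div_const _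
  have n3 : Continuous (g3 q) :=
    (((c 2).sub (continuous_const.mul n1)).sub (continuous_const.mul n2)).div_const _
  have n0 : Continuous (g0 q) := ((continuous_const.sub n1).sub n2).sub n3
  refine ⟨h.c0, h.c1, h.c2, h.c3, ?_, n0, n1, n2, n3, ?_, ?_⟩
  · unfold f0
    ring
  · intro w
    unfold g0
    ring
  · intro a0 a1 a2 a3 a4 w hs
    have w0 : (a0 • vf q 0 + a1 • vf q 1 + a2 • vf q 2 + a3 • vf q 3 + a4 • vf q 4) 0 =
        ft q * ((a1 + f1 q * a4) - (a2 - f2 q * a4)) := by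
      simp [vf]
      rw [e1]
      ring
    have w1 : (a0 • vf q 0 + a1 • vf q 1 + a2 • vf q 2 + a3 • vf q 3 + a4 • vf q 4) 1 =
        fu q * ((a1 + f1 q * a4) + (a2 - f2 q * a4)) := by
      simp [vf]
      rw [e2]
      ring
    have w2 : (a0 • vf q 0 + a1 • vf q 1 + a2 • vf q 2 + a3 • vf q 3 + a4 • vf q 4) 2 =
        (fh q / 2 - fd q) * (a1 + f1 q * a4) + (fh q / 2 + fd q) * (a2 - f2 q * a4) +
          fh q * (a3 + f3 q * a4) := by
      simp [vf]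
      linear_combination a4 * e3
    have hf : f0 q = 1 + f2 q - f1 q - f3 q := rfl
    constructor
    · intro hw
      rw [hw] at w0 w1 w2
      have k1 : g1 q w = a1 + f1 q * a4 := by
        unfold g1
        rw [w0, w1, mul_div_cancel_left₀ _ hU0, mul_div_cancel_left₀ _ hT0]
        ring
      have k2 : g2 q w = a2 - f2 q * a4 := by
        unfold g2
        rw [w0, w1, mul_div_cancel_left₀ _ hU0, mul_div_cancel_left₀ _ hT0]
        ring
      have k3 : g3 q w = a3 + f3 q * a4 := by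
        unfold g3
        rw [k1, k2, w2, div_eq_iff hH0]
        ring
      refine ⟨?_, k1, k2, k3⟩
      unfold g0
      rw [k1, k2, k3, hf]
      linear_combination -hs
    · rintro ⟨-, k1, k2, k3⟩
      have u1 : w 1 / fu q = g1 q w + g2 q w := by
        unfold g1 g2
        ring
      have u0 : w 0 / ft q = g1 q w - g2 q w := by
        unfold g1 g2
        ring
      rw [div_eq_iff hU0] at u1
      rw [div_eq_iff hT0] at u0
      have u2 := k3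
      unfold g3 at u2
      rw [div_eq_iff hH0, k1, k2] at u2
      rw [k1, k2] at u0 u1
      ext i
      fin_cases i
      · refine w0.trans ?_
        show _ = w 0
        rw [u0]
        ring
      · refine w1.trans ?_
        show _ = w 1
        rw [u1]
        ring
      · refine w2.trans ?_
        show _ = w 2
        linear_combination -u2
-- END row cof

/-- The middle of the face in the example: `(9 v 0 + 6 v 2 + 5 v 3) / 20`. -/
noncomputable def xf (v : Fin 5 → E3) : E3 := (9 / 20 : ℝ) • v 0 + (6 / 20 : ℝ) • v 2 +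
  (5 / 20 : ℝ) • v 3

-- BEGIN row near
/-- PROOF. `con3`, `bas3`, `Metric.continuousAt_iff`/`Metric.tendsto`; `eventually_all` for `i`. -/
theorem near : ∀ᶠ q in 𝓝 q0, ∀ i, dist (vf q i) (vx i) < 1 / 100 := by
  refine Filter.eventually_all.2 fun i => ?_
  have h := Metric.tendsto_nhds.1 (con3 i).1 (1 / 100) (by norm_num)
  have h0 : vf q0 i = vx i := by rw [bas3.1]
  simp only [h0] at h
  exact h
-- END row near

-- BEGIN row cmb
/-- Combinations of near points are near. PROOF. `dist_eq_norm`, the difference is the combination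
of the differences, `norm_add_le`, `norm_smul`. -/
theorem cmb {v w : Fin 5 → E3} {e : ℝ} (he : 0 ≤ e) (h : ∀ i, dist (v i) (w i) ≤ e) (i j k : Fin 5)
    {α β γ : ℝ} (h0 : 0 ≤ α) (h1 : 0 ≤ β) (h2 : 0 ≤ γ) (hs : α + β + γ = 1) :
    dist (α • v i + β • v j + γ • v k) (α • w i + β • w j + γ • w k) ≤ e := by
  have hi := h i
  have hj := h j
  have hk := h k
  rw [dist_eq_norm] at hi hj hk
  rw [dist_eq_norm]
  have e1 : α • v i + β • v j + γ • v k - (α • w i + β • w j + γ • w k) =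
      α • (v i - w i) + β • (v j - w j) + γ • (v k - w k) := by module
  rw [e1]
  calc ‖α • (v i - w i) + β • (v j - w j) + γ • (v k - w k)‖
      ≤ ‖α • (v i - w i)‖ + ‖β • (v j - w j)‖ + ‖γ • (v k - w k)‖ := norm_add₃_le
    _ = α * ‖v i - w i‖ + β * ‖v j - w j‖ + γ * ‖v k - w k‖ := by
        rw [norm_smul, norm_smul, norm_smul, Real.norm_of_nonneg h0, Real.norm_of_nonneg h1,
          Real.norm_of_nonneg h2]
    _ ≤ α * e + β * e + γ * e := by gcongr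
    _ = e := by rw [← add_mul, ← add_mul, hs, one_mul]
-- END row cmb

-- BEGIN row tra1
/-- The numbers for `v 1` persist. PROOF. `x0 = xf vx` (see `x0m`); `dist x x0 < 3 / 50` (`cmb`);
`m = (1/2) v 0 + (1/2) v 2`, and `m1 = (1/2) vx 0 + (1/2) vx 2`; `num1`: `dist x m + dist m (v 1) ≤
28 / 5 + 1 / 10 + ...  < 6 < 13 / 2 < dist x y + dist y (v 1)`: `y = (1 - s) • v i + s • v j`, `y'` the
same combination of `vx i, vx j`, `dist y y' ≤ 1 / 100` (`cmb` with `γ = 0`), `num1` for `y'`. -/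
theorem tra1 {v : Fin 5 → E3} (h : ∀ i, dist (v i) (vx i) < 1 / 100) {x : E3}
    (hx : dist x (xf v) < 1 / 20) :
    ∃ m ∈ segment ℝ (v 0) (v 2), ∀ y ∈ segment ℝ (v 0) (v 3) ∪ segment ℝ (v 2) (v 3),
      dist x m + dist m (v 1) < dist x y + dist y (v 1) := by
  have hle : ∀ i, dist (v i) (vx i) ≤ 1 / 100 := fun i => (h i).le
  have ex : xf vx = x0 := by
    ext i
    fin_cases i
    · simp [xf, vx, x0]; norm_num
    · simp [xf, vx, x0]; ring
    · simp [xf, vx, x0]; ring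
  have em : (1 / 2 : ℝ) • vx 0 + (1 / 2 : ℝ) • vx 2 = m1 := by
    ext i
    fin_cases i
    · simp [vx, m1]
    · simp [vx, m1]; ring
    · simp [vx, m1]; ring
  have c2 : ∀ (i j : Fin 5) {a b : ℝ}, 0 ≤ a → 0 ≤ b → a + b = 1 →
      dist (a • v i + b • v j) (a • vx i + b • vx j) ≤ 1 / 100 := by
    intro i j a b ha hb hab
    have h1 := cmb (by norm_num) hle i j j ha hb le_rfl (by rw [hab, add_zero])
    rwa [zero_smul, zero_smul, add_zero, add_zero] at h1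
  have hx0 : dist x x0 ≤ 3 / 50 := by
    have h1 : dist (xf v) (xf vx) ≤ 1 / 100 :=
      cmb (by norm_num) hle 0 2 3 (by norm_num) (by norm_num) (by norm_num) (by norm_num)
    rw [ex] at h1
    linarith [dist_triangle x (xf v) x0]
  have hm : dist ((1 / 2 : ℝ) • v 0 + (1 / 2 : ℝ) • v 2) m1 ≤ 1 / 100 := by
    rw [← em]
    exact c2 0 2 (by norm_num) (by norm_num) (by norm_num)
  obtain ⟨_, n1, n2, _, _⟩ := num1
  refine ⟨(1 / 2 : ℝ) • v 0 + (1 / 2 : ℝ) • v 2,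
    ⟨1 / 2, 1 / 2, by norm_num, by norm_num, by norm_num, rfl⟩, ?_⟩
  have t1 := dist_triangle4 x x0 m1 ((1 / 2 : ℝ) • v 0 + (1 / 2 : ℝ) • v 2)
  rw [dist_comm m1] at t1
  have t2 := dist_triangle4 ((1 / 2 : ℝ) • v 0 + (1 / 2 : ℝ) • v 2) m1 (vx 1) (v 1)
  rw [dist_comm (vx 1)] at t2
  have key : ∀ y y' : E3, dist y y' ≤ 1 / 100 → 7 ≤ dist x0 y' + dist y' (vx 1) →
      dist x ((1 / 2 : ℝ) • v 0 + (1 / 2 : ℝ) • v 2) +
        dist ((1 / 2 : ℝ) • v 0 + (1 / 2 : ℝ) • v 2) (v 1) < dist x y + dist y (v 1) := by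
    intro y y' hy h7
    have t3 := dist_triangle4 x0 x y y'
    rw [dist_comm x0 x] at t3
    have t4 := dist_triangle4 y' y (v 1) (vx 1)
    rw [dist_comm y' y] at t4
    linarith [hle 1]
  rintro y (⟨a, b, ha, hb, hab, rfl⟩ | ⟨a, b, ha, hb, hab, rfl⟩)
  · exact key _ _ (c2 0 3 ha hb hab) (n2 _ (Or.inl ⟨a, b, ha, hb, hab, rfl⟩))
  · exact key _ _ (c2 2 3 ha hb hab) (n2 _ (Or.inr ⟨a, b, ha, hb, hab, rfl⟩))
-- END row tra1

-- BEGIN row tra4
private theorem tra4_x0 : x0 = xf vx := by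
  unfold xf
  ext i
  fin_cases i
  · simp [vx, x0]; norm_num
  · simp [vx, x0]; ring
  · simp [vx, x0]; ring

private theorem tra4_m4 : m4 = (1 / 2 : ℝ) • vx 0 + (1 / 2 : ℝ) • vx 3 + (0 : ℝ) • vx 0 := by
  ext i
  fin_cases i
  · simp [vx, m4]
  · simp [vx, m4]
  · simp [vx, m4]; ring

private theorem tra4_seg {v : Fin 5 → E3} (h : ∀ i, dist (v i) (vx i) < 1 / 100) {i j : Fin 5} {y : E3}
    (hy : y ∈ segment ℝ (v i) (v j)) : ∃ y' ∈ segment ℝ (vx i) (vx j), dist y y' ≤ 1 / 100 := by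
  obtain ⟨a, b, ha, hb, hab, rfl⟩ := hy
  refine ⟨a • vx i + b • vx j, ⟨a, b, ha, hb, hab, rfl⟩, ?_⟩
  have h1 := cmb (v := v) (w := vx) (e := 1 / 100) (by norm_num) (fun i => (h i).le) i j i ha hb
    (le_refl (0 : ℝ)) (by linarith)
  rw [zero_smul, add_zero, zero_smul, add_zero] at h1
  exact h1

/-- The numbers for `v 4` persist. PROOF. As `tra1`, with `num4`, `m = (1/2) v 0 + (1/2) v 3`. -/
theorem tra4 {v : Fin 5 → E3} (h : ∀ i, dist (v i) (vx i) < 1 / 100) {x : E3}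
    (hx : dist x (xf v) < 1 / 20) :
    ∃ m ∈ segment ℝ (v 0) (v 3), ∀ y ∈ segment ℝ (v 0) (v 2) ∪ segment ℝ (v 2) (v 3),
      dist x m + dist m (v 4) < dist x y + dist y (v 4) := by
  obtain ⟨-, n1, n2, -, -⟩ := num4
  have hle : ∀ i, dist (v i) (vx i) ≤ 1 / 100 := fun i => (h i).le
  have e1 : dist (xf v) x0 ≤ 1 / 100 := by
    rw [tra4_x0]
    exact cmb (by norm_num) hle 0 2 3 (by norm_num) (by norm_num) (by norm_num) (by norm_num)
  have e2 : dist x x0 < 3 / 50 := by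
    have h1 := dist_triangle x (xf v) x0
    linarith
  obtain ⟨m, hm⟩ : ∃ m : E3, m = (1 / 2 : ℝ) • v 0 + (1 / 2 : ℝ) • v 3 + (0 : ℝ) • v 0 := ⟨_, rfl⟩
  have e3 : dist m m4 ≤ 1 / 100 := by
    rw [hm, tra4_m4]
    exact cmb (by norm_num) hle 0 3 0 (by norm_num) (by norm_num) (le_refl _) (by norm_num)
  have e4 := (h 4).le
  refine ⟨m, ⟨1 / 2, 1 / 2, by norm_num, by norm_num, by norm_num, by rw [hm, zero_smul, add_zero]⟩, ?_⟩
  intro y hy
  obtain ⟨y', hy', e5⟩ : ∃ y' ∈ segment ℝ (vx 0) (vx 2) ∪ segment ℝ (vx 2) (vx 3),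
      dist y y' ≤ 1 / 100 := by
    rcases hy with hy | hy
    · obtain ⟨y', h1, h2⟩ := tra4_seg h hy
      exact ⟨y', Or.inl h1, h2⟩
    · obtain ⟨y', h1, h2⟩ := tra4_seg h hy
      exact ⟨y', Or.inr h1, h2⟩
  have n3 := n2 y' hy'
  have t1 : dist x m ≤ dist x x0 + dist x0 m4 + dist m4 m := dist_triangle4 _ _ _ _
  have t2 : dist m (v 4) ≤ dist m m4 + dist m4 (vx 4) + dist (vx 4) (v 4) := dist_triangle4 _ _ _ _
  have t3 : dist x0 y' ≤ dist x0 x + dist x y + dist y y' := dist_triangle4 _ _ _ _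
  have t4 : dist y' (vx 4) ≤ dist y' y + dist y (v 4) + dist (v 4) (vx 4) := dist_triangle4 _ _ _ _
  rw [dist_comm m4 m] at t1
  rw [dist_comm (vx 4) (v 4)] at t2
  rw [dist_comm x0 x] at t3
  rw [dist_comm y' y] at t4
  linarith
-- END row tra4

-- BEGIN row xfm
/-- PROOF. `hull3`. -/
theorem xfm (v : Fin 5 → E3) : xf v ∈ Tri v 0 2 3 := by
  unfold Tri
  rw [hull3]
  exact ⟨9 / 20, 6 / 20, 5 / 20, by norm_num, by norm_num, by norm_num, by norm_num, rfl⟩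
-- END row xfm

end Pool.Agent.Cac5
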