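import Mathlib
import Pool.Agent.Cac5.Fam

/-!
# All polyhedra near to the example
-/

set_option linter.unusedVariables false

namespace Pool.Agent.Cac5

open Set Real Filter Topology Pool.Agent.Cac

/-- The six equalities. -/
def Six (v : Fin 5 → E3) : Prop := (∀ i, dist (v i) (v (i + 1)) = dist (v 0) (v 1)) ∧
  dist (v 0) (v 2) = dist (v 1) (v 3) ∧ dist (v 0) (v 3) = dist (v 1) (v 4)

/-- Parts of `plc`. -/
noncomputable def zz (S : Fin 7 → ℝ) : ℝ := (S 5 - S 2 + S 6) / (2 * √(S 6))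
/-- Parts of `plc`. -/
noncomputable def yy (S : Fin 7 → ℝ) : ℝ := √(S 5 - zz S ^ 2)
/-- Parts of `plc`. -/
noncomputable def zf (S : Fin 7 → ℝ) : ℝ := (S 4 - S 3 + S 6) / (2 * √(S 6))
/-- Parts of `plc`. -/
noncomputable def yf (S : Fin 7 → ℝ) : ℝ := √(S 4 - zf S ^ 2)
/-- Parts of `plc`. -/
noncomputable def la (S : Fin 7 → ℝ) : ℝ := (S 0 - S 1 + S 5) / (2 * S 5)
/-- Parts of `plc`. -/
noncomputable def ka (S : Fin 7 → ℝ) : ℝ := √(S 0 / S 5 - la S ^ 2)

/-- The pentagon with the squared distances `S` of `01 12 23 34 04 02 03`. -/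
noncomputable def plc (S : Fin 7 → ℝ) : Fin 5 → ℂ :=
  ![0, ⟨la S * zz S - ka S * yy S, la S * yy S + ka S * zz S⟩, ⟨zz S, yy S⟩, ⟨√(S 6), 0⟩,
    ⟨zf S, -yf S⟩]

/-- The strict inequalities. -/
structure Oks (S : Fin 7 → ℝ) : Prop where
  b : 0 < S 6
  a : 0 < S 5
  y : 0 < S 5 - zz S ^ 2
  w : 0 < S 4 - zf S ^ 2
  k : 0 < S 0 / S 5 - la S ^ 2

/-- The values in the example. -/
def S0 : Fin 7 → ℝ := ![36, 36, 36, 36, 36, 76, 80]

/-- The seven squared distances of the front. -/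
noncomputable def sq7 (v : Fin 5 → E3) : Fin 7 → ℝ :=
  ![dist (v 0) (v 1) ^ 2, dist (v 1) (v 2) ^ 2, dist (v 2) (v 3) ^ 2, dist (v 3) (v 4) ^ 2,
    dist (v 0) (v 4) ^ 2, dist (v 0) (v 2) ^ 2, dist (v 0) (v 3) ^ 2]

/-- The development of the front. -/
noncomputable def pv (v : Fin 5 → E3) : Fin 5 → ℂ := plc (sq7 v)

/-- The rounded squared distances of the pentagon of the example. -/
def MM : Fin 5 → Fin 5 → ℕ :=
  ![![0, 36, 76, 80, 36], ![36, 0, 36, 103, 113], ![76, 36, 0, 36, 97], ![80, 103, 36, 0, 36],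
    ![36, 113, 97, 36, 0]]

-- BEGIN row lval
/-- Values in the example. PROOF. `√80 = 4 * √5`: `zz = 120 / (8 √5) = 3 √5`, `yy = √31`,
`zf = 80 / (8 √5) = 2 √5`, `yf = √16`, `la = 1 / 2`, `ka = √(36/76 - 1/4) = kap`; `plc`: `ext i`,
`fin_cases i`. -/
theorem lval : zz S0 = 3 * √5 ∧ yy S0 = √31 ∧ zf S0 = 2 * √5 ∧ yf S0 = 4 ∧ la S0 = 1 / 2 ∧
    ka S0 = kap ∧ plc S0 = px := by
  have s0 : S0 0 = 36 := rfl
  have s1 : S0 1 = 36 := rfl
  have s2 : S0 2 = 36 := rfl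
  have s3 : S0 3 = 36 := rfl
  have s4 : S0 4 = 36 := rfl
  have s5 : S0 5 = 76 := rfl
  have s6 : S0 6 = 80 := rfl
  have p5 : (0 : ℝ) < √5 := Real.sqrt_pos.2 (by norm_num)
  have h5 : √(5 : ℝ) ^ 2 = 5 := Real.sq_sqrt (by norm_num)
  have h80 : √(80 : ℝ) = 4 * √5 := by
    rw [show (80 : ℝ) = (4 * √5) ^ 2 by linear_combination -16 * h5]
    exact Real.sqrt_sq (by positivity)
  have h16 : √(16 : ℝ) = 4 := by
    rw [show (16 : ℝ) = 4 ^ 2 by norm_num]
    exact Real.sqrt_sq (by norm_num)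
  have e1 : zz S0 = 3 * √5 := by
    unfold zz
    rw [s5, s2, s6, h80, div_eq_iff (by positivity)]
    linear_combination -24 * h5
  have e2 : yy S0 = √31 := by
    unfold yy
    rw [e1, s5]
    congr 1
    linear_combination -9 * h5
  have e3 : zf S0 = 2 * √5 := by
    unfold zf
    rw [s4, s3, s6, h80, div_eq_iff (by positivity)]
    linear_combination -16 * h5
  have e4 : yf S0 = 4 := by
    unfold yf
    rw [e3, s4, ← h16]
    congr 1
    linear_combination -4 * h5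
  have e5 : la S0 = 1 / 2 := by
    unfold la
    rw [s0, s1, s5]
    norm_num
  have e6 : ka S0 = kap := by
    unfold ka kap
    rw [e5, s0, s5]
    congr 1
    norm_num
  refine ⟨e1, e2, e3, e4, e5, e6, ?_⟩
  unfold plc px
  rw [e1, e2, e3, e4, e5, e6, s6, h80]
  have a1 : 1 / 2 * (3 * √5) - kap * √31 = 3 * √5 / 2 - kap * √31 := by ring
  have a2 : 1 / 2 * √31 + kap * (3 * √5) = √31 / 2 + 3 * √5 * kap := by ring
  rw [a1, a2]
-- END row lval

-- BEGIN row lcon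
private theorem lcon_z : √(S0 6) ≠ 0 := by
  have h : (0:ℝ) < S0 6 := by
    show (0:ℝ) < 80
    norm_num
  exact (Real.sqrt_pos.2 h).ne'

private theorem lcon_a : S0 5 ≠ 0 := by
  show (76:ℝ) ≠ 0
  norm_num

private theorem lcon_c (k : Fin 7) : ContinuousAt (fun S : Fin 7 → ℝ => S k) S0 :=
  continuousAt_apply k S0

private theorem lcon_zz : ContinuousAt zz S0 := by
  have h : ContinuousAt (fun S : Fin 7 → ℝ => (S 5 - S 2 + S 6) / (2 * √(S 6))) S0 :=
    (((lcon_c 5).sub (lcon_c 2)).add (lcon_c 6)).div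
      (continuousAt_const.mul (lcon_c 6).sqrt) (mul_ne_zero two_ne_zero lcon_z)
  exact h

private theorem lcon_zf : ContinuousAt zf S0 := by
  have h : ContinuousAt (fun S : Fin 7 → ℝ => (S 4 - S 3 + S 6) / (2 * √(S 6))) S0 :=
    (((lcon_c 4).sub (lcon_c 3)).add (lcon_c 6)).div
      (continuousAt_const.mul (lcon_c 6).sqrt) (mul_ne_zero two_ne_zero lcon_z)
  exact h

private theorem lcon_yy : ContinuousAt yy S0 := by
  have h : ContinuousAt (fun S : Fin 7 → ℝ => √(S 5 - zz S ^ 2)) S0 :=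
    ((lcon_c 5).sub (lcon_zz.pow 2)).sqrt
  exact h

private theorem lcon_yf : ContinuousAt yf S0 := by
  have h : ContinuousAt (fun S : Fin 7 → ℝ => √(S 4 - zf S ^ 2)) S0 :=
    ((lcon_c 4).sub (lcon_zf.pow 2)).sqrt
  exact h

private theorem lcon_la : ContinuousAt la S0 := by
  have h : ContinuousAt (fun S : Fin 7 → ℝ => (S 0 - S 1 + S 5) / (2 * S 5)) S0 :=
    (((lcon_c 0).sub (lcon_c 1)).add (lcon_c 5)).div
      (continuousAt_const.mul (lcon_c 5)) (mul_ne_zero two_ne_zero lcon_a)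
  exact h

private theorem lcon_ka : ContinuousAt ka S0 := by
  have h : ContinuousAt (fun S : Fin 7 → ℝ => √(S 0 / S 5 - la S ^ 2)) S0 :=
    (((lcon_c 0).div (lcon_c 5) lcon_a).sub (lcon_la.pow 2)).sqrt
  exact h

private theorem lcon_mk {f g : (Fin 7 → ℝ) → ℝ} (hf : ContinuousAt f S0)
    (hg : ContinuousAt g S0) : ContinuousAt (fun S => (⟨f S, g S⟩ : ℂ)) S0 := by
  have h : ContinuousAt (fun S => ((f S : ℂ) + (g S : ℂ) * Complex.I)) S0 :=
    (Complex.continuous_ofReal.continuousAt.comp hf).add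
      ((Complex.continuous_ofReal.continuousAt.comp hg).mul continuousAt_const)
  refine h.congr (Eventually.of_forall fun S => ?_)
  exact (Complex.mk_eq_add_mul_I (f S) (g S)).symm

/-- Continuity. PROOF. `unfold`, `ContinuousAt.div` (`√(S0 6) = √80 ≠ 0`, `S0 5 = 76 ≠ 0`),
`continuousAt_apply`, `ContinuousAt.sqrt`; the points as in `con3` (Fam.lean). -/
theorem lcon : ContinuousAt zz S0 ∧ ContinuousAt yy S0 ∧ ContinuousAt zf S0 ∧ ContinuousAt yf S0 ∧
    ContinuousAt la S0 ∧ ContinuousAt ka S0 ∧ ∀ i, ContinuousAt (fun S => plc S i) S0 := by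
  refine ⟨lcon_zz, lcon_yy, lcon_zf, lcon_yf, lcon_la, lcon_ka, fun i => ?_⟩
  fin_cases i
  · exact continuousAt_const
  · exact lcon_mk ((lcon_la.mul lcon_zz).sub (lcon_ka.mul lcon_yy))
      ((lcon_la.mul lcon_yy).add (lcon_ka.mul lcon_zz))
  · exact lcon_mk lcon_zz lcon_yy
  · exact lcon_mk (lcon_c 6).sqrt continuousAt_const
  · exact lcon_mk lcon_zf lcon_yf.neg
-- END row lcon

-- BEGIN row lok
/-- PROOF. The five functions are continuous at `S0` (`lcon`) with the values `80, 76, 31, 16, 17/76`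
(`lval`); see `okk` (Fam.lean). -/
theorem lok : ∀ᶠ S in 𝓝 S0, Oks S := by
  obtain ⟨c1, -, c3, -, c5, -, -⟩ := lcon
  obtain ⟨v1, -, v3, -, v5, -, -⟩ := lval
  have cS : ∀ i, ContinuousAt (fun S : Fin 7 → ℝ => S i) S0 := fun i =>
    (continuous_apply i).continuousAt
  have h0 : S0 0 = 36 := rfl
  have h4 : S0 4 = 36 := rfl
  have h5 : S0 5 = 76 := rfl
  have h6 : S0 6 = 80 := rfl
  have e5 : √5 ^ 2 = (5 : ℝ) := Real.sq_sqrt (by norm_num)
  have hb : ∀ᶠ S in 𝓝 S0, 0 < S 6 :=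
    Tendsto.eventually_const_lt (show (0 : ℝ) < S0 6 by rw [h6]; norm_num) (cS 6)
  have ha : ∀ᶠ S in 𝓝 S0, 0 < S 5 :=
    Tendsto.eventually_const_lt (show (0 : ℝ) < S0 5 by rw [h5]; norm_num) (cS 5)
  have hy : ∀ᶠ S in 𝓝 S0, 0 < S 5 - zz S ^ 2 :=
    Tendsto.eventually_const_lt (show (0 : ℝ) < S0 5 - zz S0 ^ 2 by
      rw [h5, v1, mul_pow, e5]; norm_num) ((cS 5).sub (c1.pow 2))
  have hw : ∀ᶠ S in 𝓝 S0, 0 < S 4 - zf S ^ 2 :=
    Tendsto.eventually_const_lt (show (0 : ℝ) < S0 4 - zf S0 ^ 2 by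
      rw [h4, v3, mul_pow, e5]; norm_num) ((cS 4).sub (c3.pow 2))
  have hk : ∀ᶠ S in 𝓝 S0, 0 < S 0 / S 5 - la S ^ 2 :=
    Tendsto.eventually_const_lt (show (0 : ℝ) < S0 0 / S0 5 - la S0 ^ 2 by
      rw [h0, h5, v5]; norm_num)
      (((cS 0).div (cS 5) (by rw [h5]; norm_num)).sub (c5.pow 2))
  filter_upwards [hb, ha, hy, hw, hk] with S k1 k2 k3 k4 k5
  exact ⟨k1, k2, k3, k4, k5⟩
-- END row lok

-- BEGIN row ldis
/-- The seven distances. PROOF. `pnum_d` (Ex.lean), `Real.sq_sqrt`; `2 * √(S 6) * zz S = S 5 - S 2 +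
S 6`, `2 * √(S 6) * zf S = S 4 - S 3 + S 6`, `2 * S 5 * la S = S 0 - S 1 + S 5`; e.g.
`01`: `(la² + ka²) (zz² + yy²) = (S 0 / S 5) * S 5`; see `dsp` (Fam.lean). -/
theorem ldis {S : Fin 7 → ℝ} (h : Oks S) :
    dist (plc S 0) (plc S 1) ^ 2 = S 0 ∧ dist (plc S 1) (plc S 2) ^ 2 = S 1 ∧
    dist (plc S 2) (plc S 3) ^ 2 = S 2 ∧ dist (plc S 3) (plc S 4) ^ 2 = S 3 ∧
    dist (plc S 0) (plc S 4) ^ 2 = S 4 ∧ dist (plc S 0) (plc S 2) ^ 2 = S 5 ∧
    dist (plc S 0) (plc S 3) ^ 2 = S 6 := by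
  have hs0 : √(S 6) ≠ 0 := (Real.sqrt_pos.2 h.b).ne'
  have ha : S 5 ≠ 0 := h.a.ne'
  have hs : √(S 6) ^ 2 = S 6 := Real.sq_sqrt h.b.le
  have hz : 2 * √(S 6) * zz S = S 5 - S 2 + S 6 := by
    unfold zz
    field_simp
  have hzf : 2 * √(S 6) * zf S = S 4 - S 3 + S 6 := by
    unfold zf
    field_simp
  have hla : 2 * S 5 * la S = S 0 - S 1 + S 5 := by
    unfold la
    field_simp
  have hy : yy S ^ 2 = S 5 - zz S ^ 2 := Real.sq_sqrt h.y.le
  have hyf : yf S ^ 2 = S 4 - zf S ^ 2 := Real.sq_sqrt h.w.le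
  have hk : ka S ^ 2 = S 0 / S 5 - la S ^ 2 := Real.sq_sqrt h.k.le
  have hkq : S 5 * ka S ^ 2 = S 0 - S 5 * la S ^ 2 := by
    rw [hk]
    field_simp
  have e0 : plc S 0 = 0 := rfl
  have e1 : plc S 1 = ⟨la S * zz S - ka S * yy S, la S * yy S + ka S * zz S⟩ := rfl
  have e2 : plc S 2 = ⟨zz S, yy S⟩ := rfl
  have e3 : plc S 3 = ⟨√(S 6), 0⟩ := rfl
  have e4 : plc S 4 = ⟨zf S, -yf S⟩ := rfl
  rw [e0, e1, e2, e3, e4]
  simp only [pnum_d, Complex.zero_re, Complex.zero_im]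
  refine ⟨?_, ?_, ?_, ?_, ?_, ?_, ?_⟩
  · linear_combination (la S ^ 2 + ka S ^ 2) * hy + hkq
  · linear_combination ((la S - 1) ^ 2 + ka S ^ 2) * hy + hkq - hla
  · linear_combination hy - hz + hs
  · linear_combination hyf - hzf + hs
  · linear_combination hyf
  · linear_combination hy
  · linear_combination hs
-- END row ldis

-- BEGIN row lopp
/-- PROOF. As `opp2f` (Fam.lean), by `ctr`: `ka * (zz² + yy²) = ka * S 5` and `- √(S 6) * yy`;
`√(S 6) * yy` and `- √(S 6) * yf`. -/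
theorem lopp {S : Fin 7 → ℝ} (h : Oks S) : (line[ℝ, plc S 0, plc S 2]).SOppSide (plc S 1) (plc S 3) ∧
    (line[ℝ, plc S 0, plc S 3]).SOppSide (plc S 2) (plc S 4) := by
  have hh : 0 < √(S 6) := Real.sqrt_pos.2 h.b
  have hy : 0 < yy S := Real.sqrt_pos.2 h.y
  have hf : 0 < yf S := Real.sqrt_pos.2 h.w
  have hk : 0 < ka S := Real.sqrt_pos.2 h.k
  have e0 : plc S 0 = 0 := rfl
  have e1 : plc S 1 = ⟨la S * zz S - ka S * yy S, la S * yy S + ka S * zz S⟩ := rfl
  have e2 : plc S 2 = ⟨zz S, yy S⟩ := rfl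
  have e3 : plc S 3 = ⟨√(S 6), 0⟩ := rfl
  have e4 : plc S 4 = ⟨zf S, -yf S⟩ := rfl
  refine ⟨ctr ?_ ?_, ctr ?_ ?_⟩
  · rw [e0, e1, e2]
    simp only [sub_zero]
    have e : zz S * (la S * yy S + ka S * zz S) - yy S * (la S * zz S - ka S * yy S) =
        ka S * (zz S * zz S + yy S * yy S) := by ring
    rw [e]
    have h1 : 0 ≤ zz S * zz S := mul_self_nonneg _
    have h2 : 0 < yy S * yy S := mul_pos hy hy
    exact mul_pos hk (by linarith)
  · rw [e0, e2, e3]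
    simp only [sub_zero]
    nlinarith [mul_pos hy hh]
  · rw [e0, e2, e3]
    simp only [sub_zero]
    nlinarith [mul_pos hy hh]
  · rw [e0, e3, e4]
    simp only [sub_zero]
    nlinarith [mul_pos hf hh]
-- END row lopp

-- BEGIN row ldev
private theorem ldev_eq {a b : ℝ} (ha : 0 ≤ a) (hb : 0 ≤ b) (h : a ^ 2 = b ^ 2) : a = b :=
  (sq_eq_sq₀ ha hb).1 h

/-- PROOF. `ldis`, `lopp` with `S = sq7 v`; equal squares (see `devf`, Fam.lean). -/
theorem ldev {v : Fin 5 → E3} (h : Oks (sq7 v)) : Dev v (pv v) := by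
  obtain ⟨d01, d12, d23, d34, d04, d02, d03⟩ := ldis h
  obtain ⟨o2, o3⟩ := lopp h
  exact ⟨ldev_eq dist_nonneg dist_nonneg d01, ldev_eq dist_nonneg dist_nonneg d12,
    ldev_eq dist_nonneg dist_nonneg d23, ldev_eq dist_nonneg dist_nonneg d34,
    ldev_eq dist_nonneg dist_nonneg d04, ldev_eq dist_nonneg dist_nonneg d02,
    ldev_eq dist_nonneg dist_nonneg d03, o2, o3⟩
-- END row ldev

-- BEGIN row lcv
/-- PROOF. As `cvf` (Fam.lean): `cvxb`, `lcon`, `lval`, `orix`. -/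
theorem lcv : ∀ᶠ S in 𝓝 S0, ConvexPent (plc S) := by
  have hcon : ∀ i, ContinuousAt (fun S => plc S i) S0 := lcon.2.2.2.2.2.2
  have hval : plc S0 = px := lval.2.2.2.2.2.2
  have key : ∀ i j k : Fin 5, ∀ᶠ S in 𝓝 S0, i < j → j < k →
      ori (plc S i) (plc S j) (plc S k) < 0 := by
    intro i j k
    by_cases hij : i < j ∧ j < k
    · have ci := hcon i
      have cj := hcon j
      have ck := hcon k
      have hc : ContinuousAt (fun S => ori (plc S i) (plc S j) (plc S k)) S0 := by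
        unfold ori
        exact ((Complex.continuous_re.continuousAt.comp (cj.sub ci)).mul
          (Complex.continuous_im.continuousAt.comp (ck.sub ci))).sub
          ((Complex.continuous_im.continuousAt.comp (cj.sub ci)).mul
          (Complex.continuous_re.continuousAt.comp (ck.sub ci)))
      have hv : ori (plc S0 i) (plc S0 j) (plc S0 k) < 0 := by
        rw [hval]
        exact orix i j k hij.1 hij.2
      filter_upwards [hc.eventually_lt_const hv] with S hS _ _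
      exact hS
    · exact Eventually.of_forall fun S h1 h2 => absurd ⟨h1, h2⟩ hij
  have key2 : ∀ᶠ S in 𝓝 S0, ∀ i j k : Fin 5, i < j → j < k →
      ori (plc S i) (plc S j) (plc S k) < 0 :=
    eventually_all.2 fun i => eventually_all.2 fun j => eventually_all.2 fun k => key i j k
  filter_upwards [key2] with S hS
  exact cvxb rfl hS
-- END row lcv

-- BEGIN row lsq
private theorem lsq_cont : Continuous sq7 := by
  refine continuous_pi fun i => ?_
  fin_cases i <;> simp only [sq7] <;>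
    exact ((continuous_apply _).dist (continuous_apply _)).pow 2

/-- The squared distances. PROOF. Continuity: `continuous_pi`, `fin_cases`, `fun_prop`. Values:
`vnum`, `NN`; `sh vx i = vx (i + 1)`. -/
theorem lsq : Continuous sq7 ∧ Continuous (fun v => sq7 (sh v)) ∧ sq7 vx = S0 ∧
    sq7 (sh vx) = S0 := by
  refine ⟨lsq_cont, lsq_cont.comp (continuous_pi fun i => continuous_apply (i + 1)), ?_, ?_⟩
  · funext i
    fin_cases i <;> simp [sq7, S0, vnum, NN]
  · have h0 : sh vx 0 = vx 1 := rfl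
    have h1 : sh vx 1 = vx 2 := rfl
    have h2 : sh vx 2 = vx 3 := rfl
    have h3 : sh vx 3 = vx 4 := rfl
    have h4 : sh vx 4 = vx 0 := rfl
    funext i
    fin_cases i <;> simp [sq7, S0, h0, h1, h2, h3, h4, vnum, NN]
-- END row lsq

-- BEGIN row lmm
private theorem lmm_mul {x y a b c d : ℝ} (h1 : a ≤ x) (h2 : x ≤ b) (h3 : c ≤ y) (h4 : y ≤ d)
    (ha : 0 ≤ a) (hc : 0 ≤ c) : a * c ≤ x * y ∧ x * y ≤ b * d :=
  ⟨mul_le_mul h1 h3 hc (ha.trans h1), mul_le_mul h2 h4 (hc.trans h3) ((ha.trans h1).trans h2)⟩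

private theorem lmm_num : ∃ A B C D E F : ℝ, (px 0).re = 0 ∧ (px 0).im = 0 ∧ (px 1).re = A ∧
    (px 1).im = B ∧ (px 2).re = C ∧ (px 2).im = D ∧ (px 3).re = E ∧ (px 3).im = 0 ∧
    (px 4).re = F ∧ (px 4).im = -4 ∧ (0.7 ≤ A ∧ A ≤ 0.75) ∧ (5.94 ≤ B ∧ B ≤ 5.96) ∧
    (6.7 ≤ C ∧ C ≤ 6.71) ∧ (5.56 ≤ D ∧ D ≤ 5.57) ∧ (8.94 ≤ E ∧ E ≤ 8.95) ∧
    (4.47 ≤ F ∧ F ≤ 4.48) := by
  have a1 : (2.236 : ℝ) ≤ √5 := Real.le_sqrt_of_sq_le (by norm_num)
  have a2 : √5 ≤ (2.2361 : ℝ) := Real.sqrt_le_iff.2 ⟨by norm_num, by norm_num⟩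
  have b1 : (5.567 : ℝ) ≤ √31 := Real.le_sqrt_of_sq_le (by norm_num)
  have b2 : √31 ≤ (5.568 : ℝ) := Real.sqrt_le_iff.2 ⟨by norm_num, by norm_num⟩
  have c1 : (0.472 : ℝ) ≤ kap := Real.le_sqrt_of_sq_le (by norm_num)
  have c2 : kap ≤ (0.473 : ℝ) := Real.sqrt_le_iff.2 ⟨by norm_num, by norm_num⟩
  have d1 := lmm_mul c1 c2 b1 b2 (by norm_num) (by norm_num)
  have d2 := lmm_mul a1 a2 c1 c2 (by norm_num) (by norm_num)
  refine ⟨3 * √5 / 2 - kap * √31, √31 / 2 + 3 * √5 * kap, 3 * √5, √31, 4 * √5, 2 * √5, rfl, rfl,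
    rfl, rfl, rfl, rfl, rfl, rfl, rfl, rfl, ?_, ?_, ?_, ?_, ?_, ?_⟩
  · constructor
    · norm_num at *
      linarith [d1.2]
    · norm_num at *
      linarith [d1.1]
  · constructor
    · norm_num at *
      linarith [d2.1]
    · norm_num at *
      linarith [d2.2]
  · constructor <;> norm_num at * <;> linarith
  · constructor <;> norm_num at * <;> linarith
  · constructor <;> norm_num at * <;> linarith
  · constructor <;> norm_num at * <;> linarith

private theorem lmm_sq {x a b : ℝ} (h1 : a ≤ x) (h2 : x ≤ b) (ha : 0 ≤ a) :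
    a ^ 2 ≤ x ^ 2 ∧ x ^ 2 ≤ b ^ 2 :=
  ⟨pow_le_pow_left₀ ha h1 2, pow_le_pow_left₀ (ha.trans h1) h2 2⟩

private theorem lmm_e {x : ℝ} {m : ℕ} (h : x = m) : |x - m| < 3 / 4 := by
  rw [h, sub_self, abs_zero]
  norm_num

/-- The ten squared distances of the pentagon. PROOF. `pnum` and symmetry for the exact ones; `13`:
`103.106`, `14`: `113.205`, `24`: `96.542` from `√5 = 2.2360..`, `√31 = 5.5677..`, `kap = 0.47296..`
(`orix_num` / `pcon_num` give bounds in Fam.lean, Ex.lean: private, copy), `pnum_d`, `nlinarith`. -/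
theorem lmm (i j : Fin 5) : |dist (px i) (px j) ^ 2 - MM i j| < 3 / 4 := by
  obtain ⟨A, B, C, D, E, F, r0, i0, r1, i1, r2, i2, r3, i3, r4, i4, hA, hB, hC, hD, hE, hF⟩ :=
    lmm_num
  norm_num at hA hB hC hD hE hF
  obtain ⟨p01, p12, p23, p34, p04, p02, p03⟩ := pnum
  have hz : ∀ x : ℂ, |dist x x ^ 2 - ((0 : ℕ) : ℝ)| < 3 / 4 := fun x =>
    lmm_e (by rw [dist_self]; norm_num)
  have hc : ∀ {x y : ℂ} {m : ℕ}, |dist x y ^ 2 - (m : ℝ)| < 3 / 4 →
      |dist y x ^ 2 - (m : ℝ)| < 3 / 4 := fun {x y m} h => by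
    rw [dist_comm]; exact h
  have q01 : |dist (px 0) (px 1) ^ 2 - ((36 : ℕ) : ℝ)| < 3 / 4 := lmm_e (by rw [p01]; norm_num)
  have q12 : |dist (px 1) (px 2) ^ 2 - ((36 : ℕ) : ℝ)| < 3 / 4 := lmm_e (by rw [p12]; norm_num)
  have q23 : |dist (px 2) (px 3) ^ 2 - ((36 : ℕ) : ℝ)| < 3 / 4 := lmm_e (by rw [p23]; norm_num)
  have q34 : |dist (px 3) (px 4) ^ 2 - ((36 : ℕ) : ℝ)| < 3 / 4 := lmm_e (by rw [p34]; norm_num)
  have q04 : |dist (px 0) (px 4) ^ 2 - ((36 : ℕ) : ℝ)| < 3 / 4 := lmm_e (by rw [p04]; norm_num)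
  have q02 : |dist (px 0) (px 2) ^ 2 - ((76 : ℕ) : ℝ)| < 3 / 4 := lmm_e (by rw [p02]; norm_num)
  have q03 : |dist (px 0) (px 3) ^ 2 - ((80 : ℕ) : ℝ)| < 3 / 4 := lmm_e (by rw [p03]; norm_num)
  have q13 : |dist (px 1) (px 3) ^ 2 - ((103 : ℕ) : ℝ)| < 3 / 4 := by
    have s1 : (819 / 100 : ℝ) ^ 2 ≤ (E - A) ^ 2 ∧ (E - A) ^ 2 ≤ (825 / 100 : ℝ) ^ 2 :=
      lmm_sq (by linarith [hE.1, hA.2]) (by linarith [hE.2, hA.1]) (by norm_num)
    have s2 := lmm_sq hB.1 hB.2 (by norm_num)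
    have e : dist (px 1) (px 3) ^ 2 = (E - A) ^ 2 + B ^ 2 := by
      rw [pnum_d, r1, i1, r3, i3]
      ring
    rw [e]
    norm_num at s1 s2 ⊢
    rw [abs_lt]
    constructor <;> linarith [s1.1, s1.2, s2.1, s2.2]
  have q14 : |dist (px 1) (px 4) ^ 2 - ((113 : ℕ) : ℝ)| < 3 / 4 := by
    have s1 : (372 / 100 : ℝ) ^ 2 ≤ (F - A) ^ 2 ∧ (F - A) ^ 2 ≤ (378 / 100 : ℝ) ^ 2 :=
      lmm_sq (by linarith [hF.1, hA.2]) (by linarith [hF.2, hA.1]) (by norm_num)
    have s2 : (994 / 100 : ℝ) ^ 2 ≤ (B + 4) ^ 2 ∧ (B + 4) ^ 2 ≤ (996 / 100 : ℝ) ^ 2 :=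
      lmm_sq (by linarith [hB.1]) (by linarith [hB.2]) (by norm_num)
    have e : dist (px 1) (px 4) ^ 2 = (F - A) ^ 2 + (B + 4) ^ 2 := by
      rw [pnum_d, r1, i1, r4, i4]
      ring
    rw [e]
    norm_num at s1 s2 ⊢
    rw [abs_lt]
    constructor <;> linarith [s1.1, s1.2, s2.1, s2.2]
  have q24 : |dist (px 2) (px 4) ^ 2 - ((97 : ℕ) : ℝ)| < 3 / 4 := by
    have s1 : (222 / 100 : ℝ) ^ 2 ≤ (C - F) ^ 2 ∧ (C - F) ^ 2 ≤ (224 / 100 : ℝ) ^ 2 :=
      lmm_sq (by linarith [hC.1, hF.2]) (by linarith [hC.2, hF.1]) (by norm_num)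
    have s2 : (956 / 100 : ℝ) ^ 2 ≤ (D + 4) ^ 2 ∧ (D + 4) ^ 2 ≤ (957 / 100 : ℝ) ^ 2 :=
      lmm_sq (by linarith [hD.1]) (by linarith [hD.2]) (by norm_num)
    have e : dist (px 2) (px 4) ^ 2 = (C - F) ^ 2 + (D + 4) ^ 2 := by
      rw [pnum_d, r2, i2, r4, i4]
      ring
    rw [e]
    norm_num at s1 s2 ⊢
    rw [abs_lt]
    constructor <;> linarith [s1.1, s1.2, s2.1, s2.2]
  fin_cases i
  · fin_cases j
    · exact hz _
    · exact q01
    · exact q02
    · exact q03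
    · exact q04
  · fin_cases j
    · exact hc q01
    · exact hz _
    · exact q12
    · exact q13
    · exact q14
  · fin_cases j
    · exact hc q02
    · exact hc q12
    · exact hz _
    · exact q23
    · exact q24
  · fin_cases j
    · exact hc q03
    · exact hc q13
    · exact hc q23
    · exact hz _
    · exact q34
  · fin_cases j
    · exact hc q04
    · exact hc q14
    · exact hc q24
    · exact hc q34
    · exact hz _
-- END row lmm

-- BEGIN row lmn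
/-- PROOF. `lcon`, `lval`, `lmm`: `|dist ^ 2 - MM|` is continuous at `S0`, `eventually_all`. -/
theorem lmn : ∀ᶠ S in 𝓝 S0, ∀ i j, |dist (plc S i) (plc S j) ^ 2 - MM i j| < 1 := by
  rw [eventually_all]
  intro i
  rw [eventually_all]
  intro j
  have hi := lcon.2.2.2.2.2.2 i
  have hj := lcon.2.2.2.2.2.2 j
  have hc : ContinuousAt (fun S => |dist (plc S i) (plc S j) ^ 2 - (MM i j : ℝ)|) S0 :=
    (((hi.dist hj).pow 2).sub continuousAt_const).abs
  have hv : plc S0 = px := lval.2.2.2.2.2.2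
  have h0 : |dist (plc S0 i) (plc S0 j) ^ 2 - (MM i j : ℝ)| < 1 := by
    rw [hv]
    exact (lmm i j).trans (by norm_num)
  exact hc.eventually_lt continuousAt_const h0
-- END row lmn

-- BEGIN row lsg
/-- PROOF. `97` is only at `2, 4`, `103` at `1, 3`, `113` at `1, 4`: `σ 1 = 1`, `σ 3 = 3`, `σ 4 = 4`,
`σ 2 = 2`, and `MM (σ 0) 1 = 36`, `MM (σ 0) 2 = 76` give `σ 0 = 0` (small `decide` facts, as in
`ide`, Ex.lean). -/
theorem lsg (σ : Fin 5 → Fin 5) (h : ∀ i j, MM (σ i) (σ j) = MM i j) (i : Fin 5) : σ i = i := by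
  have f1 : ∀ a b : Fin 5, MM a b = 97 → a = 2 ∧ b = 4 ∨ a = 4 ∧ b = 2 := by decide
  have f2 : ∀ a b : Fin 5, MM a b = 103 → a = 1 ∧ b = 3 ∨ a = 3 ∧ b = 1 := by decide
  have f3 : ∀ a b : Fin 5, MM a b = 113 → a = 1 ∧ b = 4 ∨ a = 4 ∧ b = 1 := by decide
  have f4 : ∀ a : Fin 5, MM a 2 = 76 → a = 0 := by decide
  have h24 := f1 _ _ (h 2 4)
  have h13 := f2 _ _ (h 1 3)
  have h14 := f3 _ _ (h 1 4)
  have e1 : σ 1 = 1 := by
    rcases h13 with h13 | h13
    · exact h13.1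
    · rcases h14 with h14 | h14
      · exact h14.1
      · rw [h13.1] at h14
        exact absurd h14.1 (by decide)
  have e3 : σ 3 = 3 := by
    rcases h13 with h13 | h13
    · exact h13.2
    · rw [e1] at h13
      exact absurd h13.1 (by decide)
  have e4 : σ 4 = 4 := by
    rcases h14 with h14 | h14
    · exact h14.2
    · rw [e1] at h14
      exact absurd h14.1 (by decide)
  have e2 : σ 2 = 2 := by
    rcases h24 with h24 | h24
    · exact h24.1
    · rw [e4] at h24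
      exact absurd h24.2 (by decide)
  have e0 : σ 0 = 0 := by
    have h02 := h 0 2
    rw [e2] at h02
    exact f4 _ h02
  fin_cases i
  · exact e0
  · exact e1
  · exact e2
  · exact e3
  · exact e4
-- END row lsg

-- BEGIN row lext
/-- Corners are extreme points. PROOF. `h.1`; `range p = insert (p i) (p '' {j | j ≠ i})`,
`convexHull_insert`: if `p i` is in the open segment of `x = α p i + (1 - α) x'`, `y = β p i + (1 - β) y'`
with `x', y'` in the hull of the others, then `p i` is in that hull or `α = β = 1`. -/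
theorem lext {p : Fin 5 → ℂ} (h : ConvexPent p) (i : Fin 5) : p i ∈ extremePoints ℝ (Pent p) := by
  obtain ⟨h1, h2⟩ := h
  have hr : range p = insert (p i) (p '' {j | j ≠ i}) := by
    ext z
    constructor
    · rintro ⟨j, rfl⟩
      by_cases hj : j = i
      · exact Or.inl (by rw [hj])
      · exact Or.inr ⟨j, hj, rfl⟩
    · rintro (rfl | ⟨j, _, rfl⟩)
      · exact mem_range_self i
      · exact mem_range_self j
  have hne : (p '' {j | j ≠ i}).Nonempty := by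
    obtain ⟨j, hj⟩ := exists_ne i
    exact ⟨p j, j, hj, rfl⟩
  have hH : Convex ℝ (convexHull ℝ (p '' {j | j ≠ i})) := convex_convexHull ℝ _
  rw [h1, mem_extremePoints_iff_forall_segment]
  refine ⟨subset_convexHull ℝ _ (mem_range_self i), ?_⟩
  intro x1 hx1 x2 hx2 hx
  rw [hr, convexHull_insert hne, mem_convexJoin] at hx1 hx2
  obtain ⟨u, hu, y1, hy1, a, a', ha, ha', haa, hxa⟩ := hx1
  obtain ⟨w, hw, y2, hy2, b, b', hb, hb', hbb, hxb⟩ := hx2
  rw [mem_singleton_iff] at hu hw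
  subst hu hw
  obtain ⟨s, t, hs, ht, hst, hxe⟩ := hx
  by_cases hm : s * a' + t * b' = 0
  · have e1 : s * a' = 0 := by nlinarith [mul_nonneg hs ha', mul_nonneg ht hb']
    rcases mul_eq_zero.1 e1 with e | e
    · right
      have ht1 : t = 1 := by linarith
      rw [e, ht1, zero_smul, one_smul, zero_add] at hxe
      exact hxe
    · left
      have h3 : a = 1 := by linarith
      rw [← hxa, e, h3, one_smul, zero_smul, add_zero]
  · exfalso
    apply h2 i
    have h0 : 0 ≤ s * a' + t * b' := by positivity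
    have e2 : (s * a' + t * b') • p i = (s * a') • y1 + (t * b') • y2 := by
      have h3 : s * a' + t * b' = 1 - (s * a + t * b) := by
        have h4 : a' = 1 - a := by linarith
        have h5 : b' = 1 - b := by linarith
        rw [h4, h5]
        linear_combination hst
      have h6 : s • (a • p i + a' • y1) + t • (b • p i + b' • y2) = p i := by
        rw [hxa, hxb]
        exact hxe
      have h7 : p i - (s * a + t * b) • p i = (s * a') • y1 + (t * b') • y2 := by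
        nth_rewrite 1 [← h6]
        module
      rw [h3, sub_smul, one_smul]
      exact h7
    have e3 : (s * a' / (s * a' + t * b')) • y1 + (t * b' / (s * a' + t * b')) • y2 = p i := by
      have h8 := congrArg (fun z => (s * a' + t * b')⁻¹ • z) e2
      simp only [smul_smul, smul_add, inv_mul_cancel₀ hm, one_smul] at h8
      rw [h8, div_eq_inv_mul, div_eq_inv_mul]
    rw [← e3]
    exact hH hy1 hy2 (by positivity) (by positivity) (by rw [← add_div, div_self hm])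
-- END row lext

-- BEGIN row lcor
/-- Corners go to corners. PROOF. `g` is affine (`IsometryEquiv.toRealAffineIsometryEquiv`), so it maps
extreme points of `Pent p` to extreme points of `Pent q` (`lext`), and
`extremePoints_convexHull_subset`. -/
theorem lcor {p q : Fin 5 → ℂ} (hp : ConvexPent p) (hq : ConvexPent q) (g : ℂ ≃ᵢ ℂ)
    (hg : g '' Pent p = Pent q) (i : Fin 5) : ∃ j, g (p i) = q j := by
  obtain ⟨h1, h2⟩ := mem_extremePoints.1 (lext hp i)
  have h3 : g (p i) ∈ extremePoints ℝ (Pent q) := by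
    refine mem_extremePoints.2 ⟨hg ▸ mem_image_of_mem g h1, fun x hx y hy hs => ?_⟩
    rw [← hg] at hx hy
    obtain ⟨a, ha, rfl⟩ := hx
    obtain ⟨b, hb, rfl⟩ := hy
    have h4 : p i ∈ openSegment ℝ a b := by
      have h5 := image_openSegment ℝ g.toRealAffineIsometryEquiv.toAffineEquiv.toAffineMap a b
      have h6 : g (p i) ∈ g.toRealAffineIsometryEquiv.toAffineEquiv.toAffineMap ''
          openSegment ℝ a b := by
        rw [h5]
        exact hs
      obtain ⟨c, hc, hce⟩ := h6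
      have h7 : c = p i := g.injective hce
      rwa [h7] at hc
    obtain ⟨h8, h9⟩ := h2 a ha b hb h4
    exact ⟨by rw [h8], by rw [h9]⟩
  rw [hq.1] at h3
  obtain ⟨j, hj⟩ := extremePoints_convexHull_subset h3
  exact ⟨j, hj.symm⟩
-- END row lcor

-- BEGIN row lifr
private theorem lifr_gap : ∀ a b c d : Fin 5, MM a b = MM c d ∨ MM a b + 2 ≤ MM c d ∨
    MM c d + 2 ≤ MM a b := by
  have h : ∀ a b : Fin 5, MM a b = 0 ∨ MM a b = 36 ∨ MM a b = 76 ∨ MM a b = 80 ∨ MM a b = 97 ∨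
      MM a b = 103 ∨ MM a b = 113 := by decide
  intro a b c d
  rcases h a b with h1 | h1 | h1 | h1 | h1 | h1 | h1 <;>
    rcases h c d with h2 | h2 | h2 | h2 | h2 | h2 | h2 <;> rw [h1, h2] <;> decide

/-- Congruent pentagons have the same distances. PROOF. `lcor` gives `σ`; `dist (q (σ i)) (q (σ j)) =
dist (p i) (p j)`, so `|MM (σ i) (σ j) - MM i j| < 2` and the entries of `MM` are equal or differ by
more than `2` (`decide`); `lsg`. -/
theorem lifr {p q : Fin 5 → ℂ} (hp : ConvexPent p) (hq : ConvexPent q)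
    (n1 : ∀ i j, |dist (p i) (p j) ^ 2 - MM i j| < 1)
    (n2 : ∀ i j, |dist (q i) (q j) ^ 2 - MM i j| < 1) (g : ℂ ≃ᵢ ℂ) (hg : g '' Pent p = Pent q)
    (i j : Fin 5) : dist (p i) (p j) = dist (q i) (q j) := by
  choose σ hσ using lcor hp hq g hg
  have hd : ∀ i j, dist (q (σ i)) (q (σ j)) = dist (p i) (p j) := by
    intro i j
    rw [← hσ, ← hσ, g.dist_eq]
  have hM : ∀ i j, MM (σ i) (σ j) = MM i j := by
    intro i j
    have a := abs_lt.1 (n1 i j)
    have b := abs_lt.1 (n2 (σ i) (σ j))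
    rw [hd] at b
    have c1 : (MM (σ i) (σ j) : ℝ) < ((MM i j + 2 : ℕ) : ℝ) := by
      push_cast
      linarith [a.1, a.2, b.1, b.2]
    have c2 : (MM i j : ℝ) < ((MM (σ i) (σ j) + 2 : ℕ) : ℝ) := by
      push_cast
      linarith [a.1, a.2, b.1, b.2]
    have c3 := Nat.cast_lt.1 c1
    have c4 := Nat.cast_lt.1 c2
    rcases lifr_gap (σ i) (σ j) i j with h | h | h <;> omega
  have hs := lsg σ hM
  rw [← hd, hs, hs]
-- END row lifr

-- BEGIN row lsix
/-- PROOF. The seven distances of `D` and `D'`: `dist (v 0) (v 1) = dist (v 1) (v 2)`, ... -/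
theorem lsix {v : Fin 5 → E3} {p q : Fin 5 → ℂ} (D : Dev v p) (D' : Dev (sh v) q)
    (h : ∀ i j, dist (p i) (p j) = dist (q i) (q j)) : Six v := by
  have a01 : dist (q 0) (q 1) = dist (v 1) (v 2) := D'.d01
  have a12 : dist (q 1) (q 2) = dist (v 2) (v 3) := D'.d12
  have a23 : dist (q 2) (q 3) = dist (v 3) (v 4) := D'.d23
  have a34 : dist (q 3) (q 4) = dist (v 4) (v 0) := D'.d34
  have a04 : dist (q 0) (q 4) = dist (v 1) (v 0) := D'.d04
  have a02 : dist (q 0) (q 2) = dist (v 1) (v 3) := D'.d02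
  have a03 : dist (q 0) (q 3) = dist (v 1) (v 4) := D'.d03
  have e01 : dist (v 0) (v 1) = dist (v 1) (v 2) := by rw [← D.d01, h, a01]
  have e12 : dist (v 1) (v 2) = dist (v 2) (v 3) := by rw [← D.d12, h, a12]
  have e23 : dist (v 2) (v 3) = dist (v 3) (v 4) := by rw [← D.d23, h, a23]
  have e34 : dist (v 3) (v 4) = dist (v 4) (v 0) := by rw [← D.d34, h, a34]
  refine ⟨?_, by rw [← D.d02, h, a02], by rw [← D.d03, h, a03]⟩
  intro i
  fin_cases i
  · rfl
  · exact e01.symm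
  · exact (e01.trans e12).symm
  · exact (e01.trans (e12.trans e23)).symm
  · exact (e01.trans (e12.trans (e23.trans e34))).symm
-- END row lsix

-- BEGIN row lifl
/-- PROOF. `sq7 v = sq7 (sh v)`: `ext i; fin_cases i`, the six equalities (`dist_comm`). -/
theorem lifl {v : Fin 5 → E3} (h : Six v) : pv v = pv (sh v) := by
  obtain ⟨h1, h2, h3⟩ := h
  have a1 : dist (v 1) (v 2) = dist (v 0) (v 1) := h1 1
  have a2 : dist (v 2) (v 3) = dist (v 0) (v 1) := h1 2
  have a3 : dist (v 3) (v 4) = dist (v 0) (v 1) := h1 3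
  have a4 : dist (v 4) (v 0) = dist (v 0) (v 1) := h1 4
  have b0 : sh v 0 = v 1 := rfl
  have b1 : sh v 1 = v 2 := rfl
  have b2 : sh v 2 = v 3 := rfl
  have b3 : sh v 3 = v 4 := rfl
  have b4 : sh v 4 = v 0 := rfl
  have e : sq7 v = sq7 (sh v) := by
    unfold sq7
    rw [b0, b1, b2, b3, b4, dist_comm (v 0) (v 4), dist_comm (v 1) (v 0), a1, a2, a3, a4, h2, h3]
  unfold pv
  rw [e]
-- END row lifl

/-- The determinant. -/
noncomputable def dt (a b c : E3) : ℝ := a 0 * (b 1 * c 2 - b 2 * c 1) -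
  a 1 * (b 0 * c 2 - b 2 * c 0) + a 2 * (b 0 * c 1 - b 1 * c 0)

/-- The volume. -/
noncomputable def DD (v : Fin 5 → E3) : ℝ := dt (v 1 - v 0) (v 2 - v 0) (v 3 - v 0)
/-- Coordinate by Cramer. -/
noncomputable def K1 (v : Fin 5 → E3) (w : E3) : ℝ := dt (w - v 0) (v 2 - v 0) (v 3 - v 0) / DD v
/-- Coordinate by Cramer. -/
noncomputable def K2 (v : Fin 5 → E3) (w : E3) : ℝ := dt (v 1 - v 0) (w - v 0) (v 3 - v 0) / DD v
/-- Coordinate by Cramer. -/
noncomputable def K3 (v : Fin 5 → E3) (w : E3) : ℝ := dt (v 1 - v 0) (v 2 - v 0) (w - v 0) / DD v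
/-- The last coordinate. -/
noncomputable def K0 (v : Fin 5 → E3) (w : E3) : ℝ := 1 - K1 v w - K2 v w - K3 v w

-- BEGIN row lcr
private theorem lcr_rec {v : Fin 5 → E3} (hD : DD v ≠ 0) (w : E3) :
    K0 v w • v 0 + K1 v w • v 1 + K2 v w • v 2 + K3 v w • v 3 = w := by
  have e1 : K1 v w * DD v = dt (w - v 0) (v 2 - v 0) (v 3 - v 0) := div_mul_cancel₀ _ hD
  have e2 : K2 v w * DD v = dt (v 1 - v 0) (w - v 0) (v 3 - v 0) := div_mul_cancel₀ _ hD
  have e3 : K3 v w * DD v = dt (v 1 - v 0) (v 2 - v 0) (w - v 0) := div_mul_cancel₀ _ hD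
  have e0 : K0 v w = 1 - K1 v w - K2 v w - K3 v w := rfl
  have key : ∀ j : Fin 3, dt (w - v 0) (v 2 - v 0) (v 3 - v 0) * (v 1 j - v 0 j) +
      dt (v 1 - v 0) (w - v 0) (v 3 - v 0) * (v 2 j - v 0 j) +
      dt (v 1 - v 0) (v 2 - v 0) (w - v 0) * (v 3 j - v 0 j) = DD v * (w j - v 0 j) := by
    intro j
    simp only [dt, DD, PiLp.sub_apply]
    fin_cases j <;> simp only [Fin.zero_eta, Fin.mk_one, Fin.reduceFinMk, Fin.isValue] <;> ring
  ext j
  apply mul_left_cancel₀ hD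
  have h := key j
  simp only [PiLp.add_apply, PiLp.smul_apply, smul_eq_mul]
  rw [e0]
  linear_combination h + (v 1 j - v 0 j) * e1 + (v 2 j - v 0 j) * e2 + (v 3 j - v 0 j) * e3

private theorem lcr_lin {v : Fin 5 → E3} (hD : DD v ≠ 0) (a0 a1 a2 a3 a4 : ℝ)
    (hs : a0 + a1 + a2 + a3 + a4 = 1) :
    K1 v (a0 • v 0 + a1 • v 1 + a2 • v 2 + a3 • v 3 + a4 • v 4) = a1 + K1 v (v 4) * a4 ∧
    K2 v (a0 • v 0 + a1 • v 1 + a2 • v 2 + a3 • v 3 + a4 • v 4) = a2 + K2 v (v 4) * a4 ∧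
    K3 v (a0 • v 0 + a1 • v 1 + a2 • v 2 + a3 • v 3 + a4 • v 4) = a3 + K3 v (v 4) * a4 := by
  have ha : a0 = 1 - a1 - a2 - a3 - a4 := by linarith
  subst ha
  have e1 : K1 v (v 4) * DD v = dt (v 4 - v 0) (v 2 - v 0) (v 3 - v 0) := div_mul_cancel₀ _ hD
  have e2 : K2 v (v 4) * DD v = dt (v 1 - v 0) (v 4 - v 0) (v 3 - v 0) := div_mul_cancel₀ _ hD
  have e3 : K3 v (v 4) * DD v = dt (v 1 - v 0) (v 2 - v 0) (v 4 - v 0) := div_mul_cancel₀ _ hD
  refine ⟨?_, ?_, ?_⟩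
  · show dt _ _ _ / DD v = _
    rw [div_eq_iff hD]
    have h : dt ((1 - a1 - a2 - a3 - a4) • v 0 + a1 • v 1 + a2 • v 2 + a3 • v 3 + a4 • v 4 - v 0)
        (v 2 - v 0) (v 3 - v 0) = a1 * DD v + a4 * dt (v 4 - v 0) (v 2 - v 0) (v 3 - v 0) := by
      simp only [dt, DD, PiLp.add_apply, PiLp.smul_apply, PiLp.sub_apply, smul_eq_mul]
      ring
    linear_combination h - a4 * e1
  · show dt _ _ _ / DD v = _
    rw [div_eq_iff hD]
    have h : dt (v 1 - v 0)
        ((1 - a1 - a2 - a3 - a4) • v 0 + a1 • v 1 + a2 • v 2 + a3 • v 3 + a4 • v 4 - v 0)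
        (v 3 - v 0) = a2 * DD v + a4 * dt (v 1 - v 0) (v 4 - v 0) (v 3 - v 0) := by
      simp only [dt, DD, PiLp.add_apply, PiLp.smul_apply, PiLp.sub_apply, smul_eq_mul]
      ring
    linear_combination h - a4 * e2
  · show dt _ _ _ / DD v = _
    rw [div_eq_iff hD]
    have h : dt (v 1 - v 0) (v 2 - v 0)
        ((1 - a1 - a2 - a3 - a4) • v 0 + a1 • v 1 + a2 • v 2 + a3 • v 3 + a4 • v 4 - v 0) =
        a3 * DD v + a4 * dt (v 1 - v 0) (v 2 - v 0) (v 4 - v 0) := by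
      simp only [dt, DD, PiLp.add_apply, PiLp.smul_apply, PiLp.sub_apply, smul_eq_mul]
      ring
    linear_combination h - a4 * e3

/-- Barycentric coordinates. PROOF. Continuity: `fun_prop` after `unfold`. `su`: `ring`. `ev`, `→`:
`dt` is linear in each argument, `dt a a c = 0`, ... (`unfold`, `field_simp`, `ring` with the
coordinates; use `a0 = 1 - a1 - a2 - a3 - a4`). `←`: Cramer: `w - v 0 = K1 v w • (v 1 - v 0) +
K2 v w • (v 2 - v 0) + K3 v w • (v 3 - v 0)` (componentwise, `field_simp`, `ring`), for `w` and for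
`v 4`. -/
theorem lcr {v : Fin 5 → E3} (hD : DD v ≠ 0) (p0 : 0 < K0 v (v 4)) (p1 : 0 < K1 v (v 4))
    (p2 : K2 v (v 4) < 0) (p3 : 0 < K3 v (v 4)) :
    Co v (K0 v) (K1 v) (K2 v) (K3 v) (K0 v (v 4)) (K1 v (v 4)) (-(K2 v (v 4))) (K3 v (v 4)) := by
  have c1 : Continuous (K1 v) := by
    unfold K1 dt
    simp only [PiLp.sub_apply]
    fun_prop
  have c2 : Continuous (K2 v) := by
    unfold K2 dt
    simp only [PiLp.sub_apply]
    fun_prop
  have c3 : Continuous (K3 v) := by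
    unfold K3 dt
    simp only [PiLp.sub_apply]
    fun_prop
  have c0 : Continuous (K0 v) := ((continuous_const.sub c1).sub c2).sub c3
  refine ⟨p0, p1, neg_pos.2 p2, p3, ?_, c0, c1, c2, c3, ?_, ?_⟩
  · unfold K0
    ring
  · intro w
    unfold K0
    ring
  · intro a0 a1 a2 a3 a4 w hs
    constructor
    · rintro rfl
      obtain ⟨h1, h2, h3⟩ := lcr_lin hD a0 a1 a2 a3 a4 hs
      refine ⟨?_, h1, ?_, h3⟩
      · show 1 - K1 v _ - K2 v _ - K3 v _ = _
        rw [h1, h2, h3]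
        unfold K0
        linear_combination -hs
      · rw [h2]
        ring
    · rintro ⟨h0, h1, h2, h3⟩
      have r4 := lcr_rec hD (v 4)
      have rw' := lcr_rec hD w
      calc a0 • v 0 + a1 • v 1 + a2 • v 2 + a3 • v 3 + a4 • v 4
          = a0 • v 0 + a1 • v 1 + a2 • v 2 + a3 • v 3 + a4 • (K0 v (v 4) • v 0 +
              K1 v (v 4) • v 1 + K2 v (v 4) • v 2 + K3 v (v 4) • v 3) := by rw [r4]
        _ = K0 v w • v 0 + K1 v w • v 1 + K2 v w • v 2 + K3 v w • v 3 := by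
            rw [h0, h1, h2, h3]
            module
        _ = w := rw'
-- END row lcr

-- BEGIN row lcrv
/-- Values in the example. PROOF. `DD vx = 48 * √3 * √5`; the coordinates of `v 4` are `7/12`, `1/6`,
`-5/6`, `13/12`. -/
theorem lcrv : DD vx ≠ 0 ∧ K0 vx (vx 4) = 7 / 12 ∧ K1 vx (vx 4) = 1 / 6 ∧ K2 vx (vx 4) = -5 / 6 ∧
    K3 vx (vx 4) = 13 / 12 := by
  have h3 : (√3 : ℝ) ^ 2 = 3 := Real.sq_sqrt (by norm_num)
  have h5 : (√5 : ℝ) ^ 2 = 5 := Real.sq_sqrt (by norm_num)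
  have p3 : (0 : ℝ) < √3 := by positivity
  have p5 : (0 : ℝ) < √5 := by positivity
  have hD : DD vx = 48 * √3 * √5 := by
    simp [DD, dt, vx]
    ring
  have hD0 : DD vx ≠ 0 := by rw [hD]; positivity
  have e1 : K1 vx (vx 4) = 1 / 6 := by
    unfold K1
    rw [div_eq_iff hD0, hD]
    simp [dt, vx]
    ring
  have e2 : K2 vx (vx 4) = -5 / 6 := by
    unfold K2
    rw [div_eq_iff hD0, hD]
    simp [dt, vx]
    ring
  have e3 : K3 vx (vx 4) = 13 / 12 := by
    unfold K3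
    rw [div_eq_iff hD0, hD]
    simp [dt, vx]
    ring
  refine ⟨hD0, ?_, e1, e2, e3⟩
  unfold K0
  rw [e1, e2, e3]
  norm_num
-- END row lcrv

-- BEGIN row lcrc
private theorem lcrc_dt {a b c : (Fin 5 → E3) → E3} (ha : Continuous a) (hb : Continuous b)
    (hc : Continuous c) : Continuous fun v => dt (a v) (b v) (c v) := by
  unfold dt
  fun_prop

/-- PROOF. Continuity at `vx` of `DD`, `K i v (v 4)` (`ContinuousAt.div` with `DD vx ≠ 0`; the
numerators by `fun_prop`), `lcrv`, then `lcr`. -/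
theorem lcrc : ∀ᶠ v in 𝓝 vx,
    Co v (K0 v) (K1 v) (K2 v) (K3 v) (K0 v (v 4)) (K1 v (v 4)) (-(K2 v (v 4))) (K3 v (v 4)) := by
  obtain ⟨hD, w0, w1, w2, w3⟩ := lcrv
  have hs : ∀ i j : Fin 5, Continuous fun v : Fin 5 → E3 => v i - v j :=
    fun i j => (continuous_apply i).sub (continuous_apply j)
  have cD : Continuous DD := lcrc_dt (hs 1 0) (hs 2 0) (hs 3 0)
  have c1 : ContinuousAt (fun v : Fin 5 → E3 => K1 v (v 4)) vx :=
    (lcrc_dt (hs 4 0) (hs 2 0) (hs 3 0)).continuousAt.div cD.continuousAt hD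
  have c2 : ContinuousAt (fun v : Fin 5 → E3 => K2 v (v 4)) vx :=
    (lcrc_dt (hs 1 0) (hs 4 0) (hs 3 0)).continuousAt.div cD.continuousAt hD
  have c3 : ContinuousAt (fun v : Fin 5 → E3 => K3 v (v 4)) vx :=
    (lcrc_dt (hs 1 0) (hs 2 0) (hs 4 0)).continuousAt.div cD.continuousAt hD
  have c0 : ContinuousAt (fun v : Fin 5 → E3 => K0 v (v 4)) vx :=
    ((continuousAt_const.sub c1).sub c2).sub c3
  have e0 : ∀ᶠ v in 𝓝 vx, 0 < K0 v (v 4) := c0.eventually (lt_mem_nhds (by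
    show 0 < K0 vx (vx 4)
    rw [w0]
    norm_num))
  have e1 : ∀ᶠ v in 𝓝 vx, 0 < K1 v (v 4) := c1.eventually (lt_mem_nhds (by
    show 0 < K1 vx (vx 4)
    rw [w1]
    norm_num))
  have e2 : ∀ᶠ v in 𝓝 vx, K2 v (v 4) < 0 := c2.eventually (gt_mem_nhds (by
    show K2 vx (vx 4) < 0
    rw [w2]
    norm_num))
  have e3 : ∀ᶠ v in 𝓝 vx, 0 < K3 v (v 4) := c3.eventually (lt_mem_nhds (by
    show 0 < K3 vx (vx 4)
    rw [w3]
    norm_num))
  filter_upwards [cD.continuousAt.eventually_ne hD, e0, e1, e2, e3] with v h h0 h1 h2 h3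
  exact lcr h h0 h1 h2 h3
-- END row lcrc

-- BEGIN row lnn
/-- PROOF. `vnum` and continuity (`eventually_all`). -/
theorem lnn : ∀ᶠ v in 𝓝 vx, ∀ i j, |dist (v i) (v j) ^ 2 - NN i j| < 1 := by
  rw [Filter.eventually_all]
  intro i
  rw [Filter.eventually_all]
  intro j
  have hc : Continuous fun v : Fin 5 → E3 => |dist (v i) (v j) ^ 2 - NN i j| := by
    have h1 : Continuous fun v : Fin 5 → E3 => dist (v i) (v j) :=
      (continuous_apply i).dist (continuous_apply j)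
    exact ((h1.pow 2).sub continuous_const).abs
  refine hc.continuousAt.eventually_lt continuousAt_const ?_
  rw [vnum i j, sub_self, abs_zero]
  exact one_pos
-- END row lnn

-- BEGIN row lide
private def lide_N : Fin 5 → Fin 5 → ℕ :=
  ![![0, 36, 76, 80, 36], ![36, 0, 36, 76, 80], ![76, 36, 0, 36, 96], ![80, 76, 36, 0, 36],
    ![36, 80, 96, 36, 0]]

private theorem lide_cast (i j : Fin 5) : NN i j = (lide_N i j : ℝ) := by
  fin_cases i <;> fin_cases j <;> simp [NN, lide_N]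

private theorem lide_fix {v : Fin 5 → E3} {k0 k1 k2 k3 : E3 → ℝ} {c0 c1 c2 c3 : ℝ}
    (C : Co v k0 k1 k2 k3 c0 c1 c2 c3) (g : E3 ≃ᵢ E3) (f0 : g (v 0) = v 0)
    (f1 : g (v 1) = v 1) (f2 : g (v 2) = v 2) (f3 : g (v 3) = v 3) :
    g = IsometryEquiv.refl E3 := by
  refine IsometryEquiv.ext fun w => ?_
  change g w = w
  have hL : ∀ x y : E3, g.toRealAffineIsometryEquiv.linearIsometryEquiv (x - y) = g x - g y :=
    fun x y => g.toRealAffineIsometryEquiv.map_vsub x y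
  have e := (C.ev (k0 w) (k1 w) (k2 w) (k3 w) 0 w (by linarith [C.su w])).2
    ⟨by ring, by ring, by ring, by ring⟩
  have hk : k0 w = 1 - k1 w - k2 w - k3 w := by linarith [C.su w]
  rw [hk] at e
  have e1 : w - v 0 = k1 w • (v 1 - v 0) + k2 w • (v 2 - v 0) + k3 w • (v 3 - v 0) := by
    calc w - v 0 = ((1 - k1 w - k2 w - k3 w) • v 0 + k1 w • v 1 + k2 w • v 2 + k3 w • v 3 +
          (0 : ℝ) • v 4) - v 0 := by rw [e]
      _ = _ := by module
  have e2 : g.toRealAffineIsometryEquiv.linearIsometryEquiv (w - v 0) = w - v 0 := by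
    rw [e1, map_add, map_add, map_smul, map_smul, map_smul, hL, hL, hL, f0, f1, f2, f3]
  have e3 := hL w (v 0)
  rw [e2, f0] at e3
  exact (sub_left_inj.1 e3).symm

/-- Only the identity. PROOF. As `ide` (Ex.lean) and `ideb` (Bip.lean): `g (v i) = v (σ i)`,
`|NN (σ i) (σ j) - NN i j| < 2`, so `NN (σ i) (σ j) = NN i j` (the entries `0, 36, 76, 80, 96` differ
by at least `4`), so `σ = id`; then `g` fixes `v 0, v 1, v 2, v 3` and is affine. -/
theorem lide {v : Fin 5 → E3} {k0 k1 k2 k3 : E3 → ℝ} {c0 c1 c2 c3 : ℝ}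
    (C : Co v k0 k1 k2 k3 c0 c1 c2 c3) (hn : ∀ i j, |dist (v i) (v j) ^ 2 - NN i j| < 1)
    (g : E3 ≃ᵢ E3) (h : g '' range v = range v) : g = IsometryEquiv.refl E3 := by
  have h1 : ∀ i, ∃ j, v j = g (v i) := by
    intro i
    have h2 : g (v i) ∈ g '' range v := mem_image_of_mem g (mem_range_self i)
    rw [h] at h2
    exact h2
  choose σ hσ using h1
  have hv : ∀ a b : Fin 5, lide_N a b = 0 ∨ lide_N a b = 36 ∨ lide_N a b = 76 ∨
      lide_N a b = 80 ∨ lide_N a b = 96 := by decide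
  have hN : ∀ i j, lide_N (σ i) (σ j) = lide_N i j := by
    intro i j
    have h2 := abs_lt.1 (hn (σ i) (σ j))
    have h3 := abs_lt.1 (hn i j)
    rw [hσ, hσ, g.dist_eq, lide_cast] at h2
    rw [lide_cast] at h3
    rcases hv (σ i) (σ j) with e | e | e | e | e <;>
      rcases hv i j with e' | e' | e' | e' | e' <;> rw [e, e'] <;>
      (exfalso; rw [e] at h2; rw [e'] at h3; push_cast at h2 h3;
        linarith [h2.1, h2.2, h3.1, h3.2])
  have a1 : ∀ a b : Fin 5, lide_N a b = 96 → (a = 2 ∧ b = 4) ∨ (a = 4 ∧ b = 2) := by decide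
  have a2 : ∀ b : Fin 5, lide_N 4 b ≠ 76 := by decide
  have a3 : ∀ b : Fin 5, lide_N 2 b = 76 → b = 0 := by decide
  have a4 : ∀ b : Fin 5, lide_N b 4 = 80 → b = 1 := by decide
  have a5 : ∀ b : Fin 5, lide_N b 0 = 80 → b = 3 := by decide
  have s2 : σ 2 = 2 ∧ σ 4 = 4 := by
    rcases a1 (σ 2) (σ 4) (hN 2 4) with h2 | h2
    · exact h2
    · exfalso
      have h3 : lide_N (σ 2) (σ 0) = 76 := hN 2 0
      rw [h2.1] at h3
      exact a2 _ h3
  have s0 : σ 0 = 0 := by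
    have h3 : lide_N (σ 2) (σ 0) = 76 := hN 2 0
    rw [s2.1] at h3
    exact a3 _ h3
  have s1 : σ 1 = 1 := by
    have h3 : lide_N (σ 1) (σ 4) = 80 := hN 1 4
    rw [s2.2] at h3
    exact a4 _ h3
  have s3 : σ 3 = 3 := by
    have h3 : lide_N (σ 3) (σ 0) = 80 := hN 3 0
    rw [s0] at h3
    exact a5 _ h3
  exact lide_fix C g (by rw [← hσ, s0]) (by rw [← hσ, s1]) (by rw [← hσ, s2.1]) (by rw [← hσ, s3])
-- END row lide

-- BEGIN row lvf
/-- PROOF. As `near` (Fam.lean). -/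
theorem lvf {η : ℝ} (h : 0 < η) : ∀ᶠ q in 𝓝 q0, ∀ i, dist (vf q i) (vx i) < η := by
  refine Filter.eventually_all.2 fun i => ?_
  have h1 := Metric.tendsto_nhds.1 (con3 i).1 η h
  have h0 : vf q0 i = vx i := by rw [bas3.1]
  simp only [h0] at h1
  exact h1
-- END row lvf

-- BEGIN row lvs
private theorem lvs_eq {a b c d : E3} (h : dist a b ^ 2 = dist c d ^ 2) : dist a b = dist c d := by
  have h1 : |dist a b| = |dist c d| := (sq_eq_sq_iff_abs_eq_abs _ _).1 h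
  rwa [abs_of_nonneg dist_nonneg, abs_of_nonneg dist_nonneg] at h1

private theorem lvs_six {a b : E3} (h : dist a b ^ 2 = 36) : dist a b = 6 := by
  have h1 : (0 : ℝ) ≤ dist a b := dist_nonneg
  have h2 : (dist a b - 6) * (dist a b + 6) = 0 := by linear_combination h
  rcases mul_eq_zero.1 h2 with h3 | h3
  · linarith
  · linarith

/-- PROOF. `dst` (Fam.lean): `dist = 6` from `dist ^ 2 = 36`, equal squares. -/
theorem lvs {q : ℝ × ℝ} (h : Ok q) : Six (vf q) ∧ dist (vf q 0) (vf q 1) = 6 ∧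
    dist (vf q 0) (vf q 2) ^ 2 = q.1 ∧ dist (vf q 0) (vf q 3) ^ 2 = q.2 := by
  obtain ⟨e01, e12, e23, e34, e04, e02, e13, e03, e14⟩ := dst h
  have f01 := lvs_six e01
  have hi : ∀ i : Fin 5, dist (vf q i) (vf q (i + 1)) = dist (vf q 0) (vf q 1) := by
    intro i
    rw [f01]
    have h4 : dist (vf q 4) (vf q 0) = 6 := by
      rw [dist_comm]
      exact lvs_six e04
    fin_cases i
    · exact f01
    · exact lvs_six e12
    · exact lvs_six e23
    · exact lvs_six e34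
    · exact h4
  exact ⟨⟨hi, lvs_eq (e02.trans e13.symm), lvs_eq (e03.trans e14.symm)⟩, f01, e02, e03⟩
-- END row lvs

end Pool.Agent.Cac5
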