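import Pool.Agent.Cac5.Loc

/-!
# All polyhedra near to the example: the theorem
-/

namespace Pool.Agent.Cac5

open Set Filter Topology Pool.Agent.Cac

theorem locMain : ∃ η > 0,
    (∀ v : Fin 5 → E3, (∀ i, dist (v i) (vx i) < η) →
      Poly v ∧ (∀ g : E3 ≃ᵢ E3, g '' range v = range v → g = IsometryEquiv.refl E3) ∧
      ∃ p q : Fin 5 → ℂ, Dev v p ∧ Dev (sh v) q ∧ ConvexPent p ∧ ConvexPent q ∧
        (∀ x ∈ Tri v 0 2 3, dist x (xf v) < 1 / 20 → ∃ X ∈ Pent p, ∀ i,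
          segment ℝ X (p i) ⊆ Pent p ∧ OneShortest v x (v i) (dist X (p i))) ∧
        ((∃ g : ℂ ≃ᵢ ℂ, g '' Pent p = Pent q) ↔ Six v)) ∧
    ∃ δ > 0, ∀ a b : ℝ, |a - 76| < δ → |b - 80| < δ → ∃ v : Fin 5 → E3,
      (∀ i, dist (v i) (vx i) < η) ∧ Six v ∧ dist (v 0) (v 1) = 6 ∧ dist (v 0) (v 2) ^ 2 = a ∧
        dist (v 0) (v 3) ^ 2 = b := by
  have t1 : Tendsto sq7 (𝓝 vx) (𝓝 S0) := by
    have h := lsq.1.tendsto vx
    rwa [lsq.2.2.1] at h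
  have t2 : Tendsto (fun v => sq7 (sh v)) (𝓝 vx) (𝓝 S0) := by
    have h : Tendsto (fun v => sq7 (sh v)) (𝓝 vx) (𝓝 (sq7 (sh vx))) := lsq.2.1.tendsto vx
    rwa [lsq.2.2.2] at h
  have kS := (lok.and lcv).and lmn
  have key := (((t1.eventually kS).and (t2.eventually kS)).and (lcrc.and lnn))
  obtain ⟨η0, h0, hη⟩ := Metric.eventually_nhds_iff.1 key
  have hη1 : 0 < min η0 (1 / 100) := lt_min h0 (by norm_num)
  refine ⟨min η0 (1 / 100), hη1, ?_, ?_⟩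
  · intro v hv
    have hv1 : dist v vx < η0 := (dist_pi_lt_iff h0).2 fun i => (hv i).trans_le (min_le_left _ _)
    have hv2 : ∀ i, dist (v i) (vx i) < 1 / 100 := fun i => (hv i).trans_le (min_le_right _ _)
    obtain ⟨⟨⟨⟨o1, c1⟩, m1⟩, ⟨o2, c2⟩, m2⟩, C, hn⟩ := hη hv1
    have D1 := ldev o1
    have D2 : Dev (sh v) (pv (sh v)) := ldev o2
    refine ⟨polb C, lide C hn, pv v, pv (sh v), D1, D2, c1, c2, ?_, ?_, fun h => ?_⟩
    · intro x hx hd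
      obtain ⟨m, hm, hn⟩ := tra1 hv2 hd
      obtain ⟨m', hm', hn'⟩ := tra4 hv2 hd
      exact finb C D1 hm hn hm' hn' hx
    · rintro ⟨g, hg⟩
      exact lsix D1 D2 (lifr c1 c2 m1 m2 g hg)
    · refine ⟨IsometryEquiv.refl ℂ, ?_⟩
      rw [lifl h]
      exact Set.image_id _
  · obtain ⟨δ, d0, hδ⟩ := Metric.eventually_nhds_iff.1 (okk.and (lvf hη1))
    refine ⟨δ, d0, fun a b ha hb => ?_⟩
    obtain ⟨hok, hnr⟩ := hδ (y := (a, b)) (by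
      rw [Prod.dist_eq]
      exact max_lt (by rw [Real.dist_eq]; exact ha) (by rw [Real.dist_eq]; exact hb))
    obtain ⟨s1, s2, s3, s4⟩ := lvs hok
    exact ⟨vf (a, b), hnr, s1, s2, s3, s4⟩

end Pool.Agent.Cac5
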