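import Mathlib
import Pool.Agent.Cac5.Defs

/-!
# The words of the statement about all polyhedra near to the example
-/

namespace Pool.Agent.Cac5

open Set Real Pool.Agent.Cac

/-- The five vertices of the example. -/
noncomputable def wx : Fin 5 → E3 :=
  ![!₂[0, 0, 0], !₂[2, 3 * √3, √5], !₂[-2, 3 * √3, 3 * √5], !₂[0, 0, 4 * √5], !₂[2, -2 * √3, 2 * √5]]

/-- The centre of the set of source points. -/
noncomputable def mid (v : Fin 5 → E3) : E3 := (9 / 20 : ℝ) • v 0 + (6 / 20 : ℝ) • v 2 +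
  (5 / 20 : ℝ) • v 3

/-- The six equalities: the five sides `v i, v (i + 1)` are equal, and
`v 0 v 2 = v 1 v 3`, `v 0 v 3 = v 1 v 4`. -/
def SixEq (v : Fin 5 → E3) : Prop := (∀ i, dist (v i) (v (i + 1)) = dist (v 0) (v 1)) ∧
  dist (v 0) (v 2) = dist (v 1) (v 3) ∧ dist (v 0) (v 3) = dist (v 1) (v 4)

end Pool.Agent.Cac5
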